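import Mathlib

/-! Products of minors of the upper triangular Toeplitz matrix `(e_{c-i})` of variables. -/

namespace H48.Hk

open MvPolynomial

/-- the variable `e_k` of the polynomial ring in `M` variables, read as `0` for `M ≤ k`. -/
noncomputable def ev (A : Type*) [CommRing A] (M k : ℕ) : MvPolynomial (Fin M) A :=
  if h : k < M then X ⟨k, h⟩ else 0

/-- the entry `e_{c-i}` in row `i` and column `c` of the Toeplitz matrix. -/
noncomputable def ent (A : Type*) [CommRing A] (M c i : ℕ) : MvPolynomial (Fin M) A :=
  if i ≤ c then ev A M (c - i) else 0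

/-- the minor with rows `W` and columns `J`. -/
noncomputable def mn {R : Type*} [CommRing R] {p : ℕ} (W : Fin p → ℕ → R) (J : Fin p → ℕ) : R :=
  Matrix.det (Matrix.of fun i j : Fin p => W i (J j))

/-- the minor of the first `k` rows and the columns `J` of the Toeplitz matrix. -/
noncomputable def mnr (A : Type*) [CommRing A] (M : ℕ) {k : ℕ} (J : Fin k → ℕ) :
    MvPolynomial (Fin M) A :=
  mn (fun (i : Fin k) (j : ℕ) => ent A M j i) J

/-- `p` is a product of minors, one for each window of the list `β`, of total size `d`; the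
columns of the minor belonging to the window `N` are less than `N`. -/
inductive IsProd (A : Type*) [CommRing A] (M : ℕ) : List ℕ → ℕ → MvPolynomial (Fin M) A → Prop
  | nil : IsProd A M [] 0 1
  | cons {N k d : ℕ} {β : List ℕ} {p : MvPolynomial (Fin M) A} (J : Fin k → ℕ)
      (hJ : ∀ j, J j < N) (h : IsProd A M β d p) :
      IsProd A M (N :: β) (k + d) (mnr A M J * p)

theorem mn_map {R R' : Type*} [CommRing R] [CommRing R'] (φ : R →+* R') {p : ℕ}
    (W : Fin p → ℕ → R) (J : Fin p → ℕ) :
    φ (mn W J) = mn (fun i j => φ (W i j)) J := by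
  unfold mn
  rw [RingHom.map_det]
  rfl

theorem mn_row {R : Type*} [CommRing R] {p : ℕ} (w : ℕ → R) (W : Fin p → ℕ → R)
    (J : Fin (p + 1) → ℕ) :
    mn (Fin.cons w W : Fin (p + 1) → ℕ → R) J =
      ∑ c : Fin (p + 1), (-1) ^ (c : ℕ) * w (J c) * mn W (fun j => J (c.succAbove j)) := by
  unfold mn
  rw [Matrix.det_succ_row_zero]
  rfl

theorem mn_col {R : Type*} [CommRing R] {p : ℕ} (W : Fin (p + 1) → ℕ → R) (j₀ : ℕ)
    (J : Fin p → ℕ) :
    mn W (Fin.cons j₀ J : Fin (p + 1) → ℕ) =
      ∑ i : Fin (p + 1), (-1) ^ (i : ℕ) * W i j₀ * mn (fun a => W (i.succAbove a)) J := by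
  unfold mn
  rw [Matrix.det_succ_column_zero]
  rfl

section

variable {A : Type*} [CommRing A] {M : ℕ}

theorem ev_of_lt {k : ℕ} (h : k < M) : ev A M k = X ⟨k, h⟩ := by
  simp [ev, h]

theorem mnr_zero (J : Fin 0 → ℕ) : mnr A M J = 1 := by
  simp [mnr, mn]

theorem IsProd.perm {β β' : List ℕ} (h : β.Perm β') :
    ∀ {d : ℕ} {p : MvPolynomial (Fin M) A}, IsProd A M β d p → IsProd A M β' d p := by
  induction h with
  | nil => intro d p hp; exact hp
  | cons x _ ih =>
    intro d p hp
    cases hp with
    | cons J hJ h' => exact IsProd.cons J hJ (ih h')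
  | swap x y l =>
    intro d p hp
    cases hp with
    | @cons _ k _ _ _ J hJ h' =>
      cases h' with
      | @cons _ k' d' _ p' J' hJ' h'' =>
        have := IsProd.cons J' hJ' (IsProd.cons J hJ h'')
        have e1 : k' + (k + d') = k + (k' + d') := by ring
        rw [e1] at this
        have e2 : mnr A M J' * (mnr A M J * p') = mnr A M J * (mnr A M J' * p') := by ring
        rw [e2] at this
        exact this
  | trans _ _ ih1 ih2 =>
    intro d p hp
    exact ih2 (ih1 hp)

theorem IsProd.zero_cons {β : List ℕ} {d : ℕ} {p : MvPolynomial (Fin M) A} :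
    IsProd A M (0 :: β) d p ↔ IsProd A M β d p := by
  constructor
  · intro h
    cases h with
    | @cons _ k d' _ p' J hJ h' =>
      have hk : k = 0 := by
        rcases Nat.eq_zero_or_pos k with hk | hk
        · exact hk
        · exact absurd (hJ ⟨0, hk⟩) (by simp)
      subst hk
      rw [mnr_zero, one_mul, zero_add]
      exact h'
  · intro h
    have := IsProd.cons (N := 0) (k := 0) (fun j : Fin 0 => (0 : ℕ)) (fun j => j.elim0) h
    rw [mnr_zero, one_mul, zero_add] at this
    exact this

theorem IsProd.mono_head {N N' : ℕ} (hN : N ≤ N') {β : List ℕ} {d : ℕ}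
    {p : MvPolynomial (Fin M) A} (h : IsProd A M (N :: β) d p) : IsProd A M (N' :: β) d p := by
  cases h with
  | cons J hJ h' => exact IsProd.cons J (fun j => lt_of_lt_of_le (hJ j) hN) h'

theorem IsProd.zero_deg {β : List ℕ} : IsProd A M β 0 1 := by
  induction β with
  | nil => exact IsProd.nil
  | cons N β ih =>
    have := IsProd.cons (N := N) (k := 0) (fun j : Fin 0 => (0 : ℕ)) (fun j => j.elim0) ih
    rw [mnr_zero, one_mul, zero_add] at this
    exact this

theorem IsProd.eq_one {β : List ℕ} {p : MvPolynomial (Fin M) A} (h : IsProd A M β 0 p) :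
    p = 1 := by
  have key : ∀ {β : List ℕ} {d : ℕ} {p : MvPolynomial (Fin M) A}, IsProd A M β d p → d = 0 →
      p = 1 := by
    intro β d p h
    induction h with
    | nil => intro _; rfl
    | @cons N k d β p J hJ h ih =>
      intro hd
      have hk : k = 0 := by omega
      have hd' : d = 0 := by omega
      subst hk
      rw [mnr_zero, one_mul, ih hd']
  exact key h rfl

theorem IsProd.nil_pos {d : ℕ} {p : MvPolynomial (Fin M) A} (h : IsProd A M [] d p) : d = 0 := by
  cases h
  rfl

/-- multiplication by `e_0` -/
theorem ev_zero_mul_mnr {k : ℕ} (J : Fin k → ℕ) :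
    ev A M 0 * mnr A M J =
      mnr A M (Fin.cons 0 (fun j => J j + 1) : Fin (k + 1) → ℕ) := by
  unfold mnr
  rw [mn_col, Fin.sum_univ_succ]
  have h1 : ∀ i : Fin k, (-1 : MvPolynomial (Fin M) A) ^ ((i.succ : Fin (k + 1)) : ℕ) *
      ent A M 0 (i.succ : Fin (k + 1)) *
      mn (fun (a : Fin k) (j : ℕ) => ent A M j (i.succ.succAbove a : Fin (k + 1)))
        (fun j => J j + 1) = 0 := by
    intro i
    have : ent A M 0 (i.succ : Fin (k + 1)) = 0 := by
      simp [ent]
    rw [this]
    ring
  rw [Finset.sum_eq_zero (fun i _ => h1 i), add_zero]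
  have h2 : ent A M 0 ((0 : Fin (k + 1)) : ℕ) = ev A M 0 := by
    simp [ent]
  rw [h2]
  simp only [Fin.val_zero, pow_zero, one_mul]
  congr 1
  unfold mn
  congr 1
  ext1 i j
  simp only [Matrix.of_apply, Fin.zero_succAbove, Fin.val_succ]
  unfold ent
  by_cases h : (i : ℕ) ≤ J j
  · rw [if_pos h, if_pos (by omega)]
    congr 1
    omega
  · rw [if_neg h, if_neg (by omega)]

theorem IsProd.ev_mul {N : ℕ} {β : List ℕ} {d : ℕ} {p : MvPolynomial (Fin M) A}
    (h : IsProd A M (N :: β) d p) : IsProd A M ((N + 1) :: β) (d + 1) (ev A M 0 * p) := by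
  cases h with
  | @cons _ k d' _ p' J hJ h' =>
    have := IsProd.cons (N := N + 1) (Fin.cons 0 (fun j => J j + 1) : Fin (k + 1) → ℕ)
      (by
        intro j
        refine Fin.cases ?_ (fun i => ?_) j
        · simp
        · simpa using hJ i) h'
    rw [← ev_zero_mul_mnr, mul_assoc] at this
    have e : k + 1 + d' = k + d' + 1 := by ring
    rw [e] at this
    exact this

/-- restriction: `e_0 ↦ 0`, `e_{k+1} ↦ e_k`. -/
noncomputable def rho (A : Type*) [CommRing A] (M : ℕ) :
    MvPolynomial (Fin (M + 1)) A →ₐ[A] MvPolynomial (Fin M) A :=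
  aeval (fun i : Fin (M + 1) => (Fin.cases 0 (fun j => X j) i : MvPolynomial (Fin M) A))

@[simp] theorem rho_X_zero : rho A M (X 0) = 0 := by
  simp [rho]

@[simp] theorem rho_X_succ (i : Fin M) : rho A M (X i.succ) = X i := by
  simp [rho]

@[simp] theorem rho_C (a : A) : rho A M (C a) = C a := by
  simp [rho]

theorem rho_rename (f : MvPolynomial (Fin M) A) : rho A M (rename Fin.succ f) = f := by
  have : (rho A M).comp (rename Fin.succ) = AlgHom.id A (MvPolynomial (Fin M) A) := by
    ext i
    simp
  exact congrArg (fun φ => φ f) this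

theorem rho_ev_zero : rho A M (ev A (M + 1) 0) = 0 := by
  rw [ev_of_lt (Nat.succ_pos M)]
  exact rho_X_zero

theorem rho_ev_succ (k : ℕ) : rho A M (ev A (M + 1) (k + 1)) = ev A M k := by
  by_cases h : k < M
  · rw [ev_of_lt (Nat.succ_lt_succ h), ev_of_lt h]
    exact rho_X_succ ⟨k, h⟩
  · have h' : ¬ (k + 1 < M + 1) := by omega
    simp [ev, h]

theorem rho_ent_zero (i : ℕ) : rho A M (ent A (M + 1) 0 i) = 0 := by
  unfold ent
  by_cases h : i ≤ 0
  · rw [if_pos h]
    have : 0 - i = 0 := by omega
    rw [this, rho_ev_zero]
  · rw [if_neg h, map_zero]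

theorem rho_ent_succ (c i : ℕ) : rho A M (ent A (M + 1) (c + 1) i) = ent A M c i := by
  unfold ent
  by_cases h : i ≤ c
  · rw [if_pos h, if_pos (by omega)]
    have : c + 1 - i = (c - i) + 1 := by omega
    rw [this, rho_ev_succ]
  · rw [if_neg h]
    by_cases h2 : i ≤ c + 1
    · rw [if_pos h2]
      have : c + 1 - i = 0 := by omega
      rw [this, rho_ev_zero]
    · rw [if_neg h2, map_zero]

theorem rho_mnr_succ {k : ℕ} (J : Fin k → ℕ) :
    rho A M (mnr A (M + 1) (fun j => J j + 1)) = mnr A M J := by
  unfold mnr
  have := mn_map (rho A M).toRingHom (fun (i : Fin k) (j : ℕ) => ent A (M + 1) j i)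
    (fun j => J j + 1)
  have h : rho A M (mn (fun (i : Fin k) (j : ℕ) => ent A (M + 1) j i) (fun j => J j + 1)) =
    mn (fun i j => rho A M (ent A (M + 1) j (i : Fin k))) (fun j => J j + 1) := this
  rw [h]
  unfold mn
  congr 1
  ext1 i j
  simp only [Matrix.of_apply]
  rw [rho_ent_succ]

theorem rho_mnr_of_zero {k : ℕ} (J : Fin k → ℕ) (j : Fin k) (hj : J j = 0) :
    rho A M (mnr A (M + 1) J) = 0 := by
  unfold mnr
  have h : rho A M (mn (fun (i : Fin k) (j : ℕ) => ent A (M + 1) j i) J) =
    mn (fun i j => rho A M (ent A (M + 1) j (i : Fin k))) J :=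
    mn_map (rho A M).toRingHom (fun (i : Fin k) (j : ℕ) => ent A (M + 1) j i) J
  rw [h]
  unfold mn
  apply Matrix.det_eq_zero_of_column_eq_zero j
  intro i
  simp only [Matrix.of_apply]
  rw [hj, rho_ent_zero]

/-- every product of the restricted windows lifts -/
theorem IsProd.lift {β : List ℕ} : ∀ {d : ℕ} {p : MvPolynomial (Fin M) A},
    IsProd A M (β.map Nat.pred) d p → ∃ q, IsProd A (M + 1) β d q ∧ rho A M q = p := by
  induction β with
  | nil =>
    intro d p h
    cases h
    exact ⟨1, IsProd.nil, map_one _⟩
  | cons N β ih =>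
    intro d p h
    simp only [List.map_cons] at h
    cases h with
    | @cons _ k d' _ p' J hJ h' =>
      obtain ⟨q, hq, hq'⟩ := ih h'
      refine ⟨mnr A (M + 1) (fun j => J j + 1) * q, IsProd.cons _ ?_ hq, ?_⟩
      · intro j
        have := hJ j
        have h2 : Nat.pred N = N - 1 := rfl
        omega
      · rw [map_mul, rho_mnr_succ, hq']

/-- the restriction of a product is zero or a product -/
theorem IsProd.rho {β : List ℕ} {d : ℕ} {p : MvPolynomial (Fin (M + 1)) A}
    (h : IsProd A (M + 1) β d p) :
    H48.Hk.rho A M p = 0 ∨ IsProd A M (β.map Nat.pred) d (H48.Hk.rho A M p) := by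
  induction h with
  | nil => right; rw [map_one]; exact IsProd.nil
  | @cons N k d β p J hJ h ih =>
    rw [map_mul]
    rcases ih with ih | ih
    · left; rw [ih, mul_zero]
    · by_cases hz : ∃ j, J j = 0
      · obtain ⟨j, hj⟩ := hz
        left
        rw [rho_mnr_of_zero J j hj, zero_mul]
      · right
        push Not at hz
        have hJ' : J = fun j => (J j - 1) + 1 := by
          funext j
          have := hz j
          omega
        rw [hJ', rho_mnr_succ]
        simp only [List.map_cons]
        refine IsProd.cons _ ?_ ih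
        intro j
        have h1 := hz j
        have h2 := hJ j
        have h3 : Nat.pred N = N - 1 := rfl
        omega

theorem sub_rename_rho (f : MvPolynomial (Fin (M + 1)) A) :
    ∃ g, f - rename Fin.succ (rho A M f) = X 0 * g := by
  induction f using MvPolynomial.induction_on with
  | C a => exact ⟨0, by simp⟩
  | add p q hp hq =>
    obtain ⟨g1, h1⟩ := hp
    obtain ⟨g2, h2⟩ := hq
    refine ⟨g1 + g2, ?_⟩
    rw [map_add, map_add, mul_add, ← h1, ← h2]
    ring
  | mul_X p i hp =>
    obtain ⟨g, h⟩ := hp
    rw [map_mul, map_mul]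
    refine Fin.cases ?_ (fun j => ?_) i
    · refine ⟨p, ?_⟩
      rw [rho_X_zero, map_zero, mul_zero, sub_zero, mul_comm]
    · refine ⟨g * X j.succ, ?_⟩
      rw [rho_X_succ, rename_X, ← mul_assoc, ← h]
      ring

theorem exists_eq_X_mul {f : MvPolynomial (Fin (M + 1)) A} (hf : rho A M f = 0) :
    ∃ g, f = X 0 * g := by
  obtain ⟨g, hg⟩ := sub_rename_rho f
  rw [hf, map_zero, sub_zero] at hg
  exact ⟨g, hg⟩

end

/-- the span of all products -/
noncomputable def V (K : Type*) [CommRing K] (M : ℕ) (β : List ℕ) (d : ℕ) :
    Submodule K (MvPolynomial (Fin M) K) :=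
  Submodule.span K {p | IsProd K M β d p}

/-- the induction along windows -/
theorem win_induction {P : ℕ → List ℕ → ℕ → Prop}
    (perm : ∀ M β β' d, β.Perm β' → P M β d → P M β' d)
    (zero : ∀ M β, P M β 0)
    (nil : ∀ M d, P M [] (d + 1))
    (drop : ∀ M β d, P M β d → P M (0 :: β) d)
    (step : ∀ M N β d, (∀ N' ∈ β, N + 1 ≤ N') → (∀ N' ∈ β, N' ≤ M + 1) → N ≤ M →
      P M (((N + 1) :: β).map Nat.pred) (d + 1) → P (M + 1) (N :: β) d →
      P (M + 1) ((N + 1) :: β) (d + 1)) :
    ∀ M β d, (∀ N ∈ β, N ≤ M) → P M β d := by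
  intro M
  induction M with
  | zero =>
    intro β
    induction β with
    | nil =>
      intro d _
      cases d with
      | zero => exact zero _ _
      | succ d => exact nil _ _
    | cons N β ih =>
      intro d h
      have hN : N = 0 := Nat.le_zero.mp (h N (by simp))
      subst hN
      exact drop _ _ _ (ih d (fun N' h' => h N' (List.mem_cons_of_mem _ h')))
  | succ M ihM =>
    have key : ∀ s : ℕ, ∀ β d, β.sum + β.length = s → (∀ N ∈ β, N ≤ M + 1) → P (M + 1) β d := by
      intro s
      induction s using Nat.strong_induction_on with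
      | _ s ih =>
        intro β d hs hβ
        cases d with
        | zero => exact zero _ _
        | succ d =>
          by_cases hβ0 : β = []
          · subst hβ0; exact nil _ _
          · -- the minimum of the list
            obtain ⟨N, hN, hmin⟩ : ∃ N ∈ β, ∀ N' ∈ β, N ≤ N' := by
              have hne : β.toFinset.Nonempty := by
                obtain ⟨a, l, rfl⟩ := List.exists_cons_of_ne_nil hβ0
                exact ⟨a, by simp⟩
              refine ⟨β.toFinset.min' hne, ?_, ?_⟩
              · have := Finset.min'_mem β.toFinset hne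
                simpa using this
              · intro N' hN'
                exact Finset.min'_le _ _ (by simpa using hN')
            have hperm : β.Perm (N :: β.erase N) := List.perm_cons_erase hN
            refine perm _ _ _ _ hperm.symm ?_
            have hsum : (β.erase N).sum + N = β.sum := by
              have := hperm.sum_eq
              simp at this
              omega
            have hlen : (β.erase N).length + 1 = β.length := by
              have := hperm.length_eq
              simp at this ⊢
              omega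
            have hmem : ∀ N' ∈ β.erase N, N' ∈ β := fun N' h' => List.mem_of_mem_erase h'
            cases N with
            | zero =>
              refine drop _ _ _ (ih _ ?_ _ _ rfl (fun N' h' => hβ N' (hmem N' h')))
              omega
            | succ N =>
              have hNM : N ≤ M := by
                have := hβ _ hN
                omega
              refine step M N _ d (fun N' h' => hmin N' (hmem N' h'))
                (fun N' h' => hβ N' (hmem N' h')) hNM ?_ ?_
              · apply ihM
                intro N' h'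
                simp only [List.mem_map] at h'
                obtain ⟨N'', h'', rfl⟩ := h'
                have h3 : N'' ≤ M + 1 := by
                  rcases List.mem_cons.mp h'' with rfl | h4
                  · omega
                  · exact hβ N'' (hmem N'' h4)
                have : Nat.pred N'' = N'' - 1 := rfl
                omega
              · refine ih _ ?_ _ _ rfl ?_
                · simp only [List.sum_cons, List.length_cons]
                  omega
                · intro N' h'
                  rcases List.mem_cons.mp h' with rfl | h4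
                  · omega
                  · exact hβ N' (hmem N' h4)
    intro β d hβ
    exact key _ β d rfl hβ

end H48.Hk
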