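import Pool.Agent.H48.Hk.Toric

/-! The recursion for the count. -/

namespace H48.Hk

open Polynomial

/-- `1 + X + ... + X^b`. -/
noncomputable def geo (b : ℕ) : Polynomial ℕ := ∑ j ∈ Finset.range (b + 1), X ^ j

theorem geo_succ (b : ℕ) : geo (b + 1) = 1 + X * geo b := by
  unfold geo
  rw [Finset.sum_range_succ', Finset.mul_sum, pow_zero, add_comm]
  congr 1
  apply Finset.sum_congr rfl
  intro j _
  rw [pow_succ, mul_comm]

theorem geo_ne_zero (b : ℕ) : geo b ≠ 0 := by
  intro h
  have h1 : (geo b).coeff 0 = 1 := by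
    cases b with
    | zero => simp [geo]
    | succ b => rw [geo_succ]; simp
  rw [h] at h1
  simp at h1

theorem bd_perm {β β' : List ℕ} (h : β.Perm β') (i : ℕ) : bd β i = bd β' i :=
  h.countP_eq _

theorem bd_map_pred (β : List ℕ) (i : ℕ) : bd (β.map Nat.pred) i = bd β (i + 1) := by
  induction β with
  | nil => rfl
  | cons N β ih =>
    simp only [List.map_cons]
    rw [bd_cons, bd_cons, ih]
    congr 1
    have h : Nat.pred N = N - 1 := rfl
    by_cases h1 : i < Nat.pred N
    · rw [if_pos h1, if_pos (by omega)]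
    · rw [if_neg h1, if_neg (by omega)]

theorem bd_full {β : List ℕ} {i : ℕ} (h : ∀ N ∈ β, i < N) : bd β i = β.length := by
  unfold bd
  rw [List.countP_eq_length]
  intro N hN
  simpa using h N hN

theorem cntP_eq (M : ℕ) (β : List ℕ) : cntP M β = ∏ i ∈ Finset.range M, geo (bd β i) := rfl

theorem cntP_step (M N : ℕ) (β : List ℕ) (h1 : ∀ N' ∈ β, N + 1 ≤ N') (hN : N ≤ M) :
    cntP (M + 1) ((N + 1) :: β) =
      cntP M (((N + 1) :: β).map Nat.pred) + X * cntP (M + 1) (N :: β) := by
  have hb : ∀ i ≤ N, bd ((N + 1) :: β) i = β.length + 1 := by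
    intro i hi
    rw [bd_full]
    · simp
    · intro N' hN'
      rcases List.mem_cons.mp hN' with rfl | h
      · omega
      · have := h1 N' h
        omega
  have e1 : cntP (M + 1) ((N + 1) :: β) =
      cntP M (((N + 1) :: β).map Nat.pred) * geo (β.length + 1) := by
    rw [cntP_eq, Finset.prod_range_succ', hb 0 (Nat.zero_le _), cntP_eq]
    congr 1
    apply Finset.prod_congr rfl
    intro i _
    rw [bd_map_pred]
  have hmem : N ∈ Finset.range (M + 1) := by
    rw [Finset.mem_range]
    omega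
  have e2 : cntP (M + 1) ((N + 1) :: β) =
      (∏ i ∈ (Finset.range (M + 1)).erase N, geo (bd ((N + 1) :: β) i)) *
        geo (β.length + 1) := by
    rw [cntP_eq, ← Finset.prod_erase_mul _ _ hmem, hb N le_rfl]
  have e3 : cntP (M + 1) (N :: β) =
      (∏ i ∈ (Finset.range (M + 1)).erase N, geo (bd ((N + 1) :: β) i)) *
        geo β.length := by
    rw [cntP_eq, ← Finset.prod_erase_mul _ _ hmem]
    congr 1
    · apply Finset.prod_congr rfl
      intro i hi
      rw [Finset.mem_erase] at hi
      rw [bd_cons, bd_cons]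
      congr 2
      by_cases h : i < N
      · rw [if_pos h, if_pos (by omega)]
      · rw [if_neg h, if_neg (by have := hi.1; omega)]
    · rw [bd_cons, if_neg (lt_irrefl N), zero_add, bd_full]
      intro N' hN'
      have := h1 N' hN'
      omega
  have e4 : cntP M (((N + 1) :: β).map Nat.pred) =
      ∏ i ∈ (Finset.range (M + 1)).erase N, geo (bd ((N + 1) :: β) i) := by
    apply mul_right_cancel₀ (geo_ne_zero (β.length + 1))
    rw [← e1, e2]
  rw [e1, e3, ← e4, geo_succ]
  ring

theorem cnt_step (M N : ℕ) (β : List ℕ) (d : ℕ) (h1 : ∀ N' ∈ β, N + 1 ≤ N') (hN : N ≤ M) :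
    cnt (M + 1) ((N + 1) :: β) (d + 1) =
      cnt M (((N + 1) :: β).map Nat.pred) (d + 1) + cnt (M + 1) (N :: β) d := by
  unfold cnt
  rw [cntP_step M N β h1 hN, coeff_add, coeff_X_mul]

theorem cnt_perm {M : ℕ} {β β' : List ℕ} (h : β.Perm β') (d : ℕ) : cnt M β d = cnt M β' d := by
  unfold cnt
  rw [cntP_eq, cntP_eq]
  congr 1
  apply Finset.prod_congr rfl
  intro i _
  rw [bd_perm h]

theorem cnt_drop (M : ℕ) (β : List ℕ) (d : ℕ) : cnt M (0 :: β) d = cnt M β d := by
  unfold cnt
  have h : cntP M (0 :: β) = cntP M β := by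
    rw [cntP_eq, cntP_eq]
    apply Finset.prod_congr rfl
    intro i _
    rw [bd_cons, if_neg (Nat.not_lt_zero i), zero_add]
  rw [h]

theorem cnt_zero (M : ℕ) (β : List ℕ) : cnt M β 0 = 1 := by
  unfold cnt
  rw [cntP_eq, Polynomial.coeff_zero_prod]
  apply Finset.prod_eq_one
  intro i _
  cases bd β i with
  | zero => simp [geo]
  | succ b => rw [geo_succ]; simp

theorem cnt_nil (M d : ℕ) : cnt M [] (d + 1) = 0 := by
  unfold cnt
  rw [cntP_eq]
  have : ∏ i ∈ Finset.range M, geo (bd [] i) = 1 := by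
    apply Finset.prod_eq_one
    intro i _
    rw [bd_nil]
    simp [geo]
  rw [this, Polynomial.coeff_one, if_neg (Nat.succ_ne_zero d)]

end H48.Hk
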