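import Pool.Agent.H48.Hk.Count

/-! Exactness: an element of the span divisible by `e_0` is `e_0` times an element of the span
with the smallest window decreased. -/

namespace H48.Hk

open MvPolynomial

section

variable {K : Type*} [Field K]

theorem V_perm {M : ℕ} {β β' : List ℕ} (h : β.Perm β') (d : ℕ) : V K M β d = V K M β' d := by
  unfold V
  congr 1
  ext p
  exact ⟨fun hp => hp.perm h, fun hp => hp.perm h.symm⟩

theorem V_drop (M : ℕ) (β : List ℕ) (d : ℕ) : V K M (0 :: β) d = V K M β d := by
  unfold V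
  congr 1
  ext p
  exact IsProd.zero_cons

theorem V_zero (M : ℕ) (β : List ℕ) : V K M β 0 = Submodule.span K {1} := by
  unfold V
  congr 1
  ext p
  constructor
  · intro hp
    exact hp.eq_one
  · intro hp
    rw [Set.mem_singleton_iff] at hp
    subst hp
    exact IsProd.zero_deg

theorem V_nil (M d : ℕ) : V K M [] (d + 1) = ⊥ := by
  unfold V
  rw [Submodule.span_eq_bot]
  intro p hp
  exact absurd (IsProd.nil_pos hp) (Nat.succ_ne_zero d)

theorem map_rho_V (M : ℕ) (β : List ℕ) (d : ℕ) :
    (V K (M + 1) β d).map (rho K M).toLinearMap = V K M (β.map Nat.pred) d := by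
  apply le_antisymm
  · rw [Submodule.map_le_iff_le_comap]
    unfold V
    rw [Submodule.span_le]
    intro p hp
    simp only [SetLike.mem_coe, Submodule.mem_comap]
    rcases IsProd.rho hp with h | h
    · change rho K M p ∈ _
      rw [h]
      exact Submodule.zero_mem _
    · exact Submodule.subset_span h
  · unfold V
    rw [Submodule.span_le]
    intro p hp
    obtain ⟨q, hq, hq'⟩ := IsProd.lift hp
    exact ⟨q, Submodule.subset_span hq, hq'⟩

/-- multiplication by `e_0` -/
noncomputable def mulE (K : Type*) [Field K] (M : ℕ) :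
    MvPolynomial (Fin (M + 1)) K →ₗ[K] MvPolynomial (Fin (M + 1)) K :=
  LinearMap.mulLeft K (X 0)

theorem ev_zero_eq (M : ℕ) : ev K (M + 1) 0 = X 0 := ev_of_lt (Nat.succ_pos M)

theorem mulE_apply (M : ℕ) (f : MvPolynomial (Fin (M + 1)) K) : mulE K M f = X 0 * f := rfl

theorem mulE_inj (M : ℕ) : Function.Injective (mulE K M) := by
  intro f g h
  rw [mulE_apply, mulE_apply] at h
  exact mul_left_cancel₀ (X_ne_zero 0) h

theorem finrank_map_mulE (M : ℕ) (W : Submodule K (MvPolynomial (Fin (M + 1)) K)) :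
    Module.finrank K (W.map (mulE K M)) = Module.finrank K W :=
  (LinearEquiv.finrank_eq (Submodule.equivMapOfInjective (mulE K M) (mulE_inj M) W)).symm

theorem map_mulE_le (M N : ℕ) (β : List ℕ) (d : ℕ) :
    (V K (M + 1) (N :: β) d).map (mulE K M) ≤
      V K (M + 1) ((N + 1) :: β) (d + 1) ⊓ LinearMap.ker (rho K M).toLinearMap := by
  rw [Submodule.map_le_iff_le_comap]
  unfold V
  rw [Submodule.span_le]
  intro p hp
  rw [SetLike.mem_coe, Submodule.mem_comap, Submodule.mem_inf, LinearMap.mem_ker, mulE_apply,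
    AlgHom.toLinearMap_apply]
  constructor
  · apply Submodule.subset_span
    have := IsProd.ev_mul hp
    rw [ev_zero_eq] at this
    exact this
  · rw [map_mul, rho_X_zero, zero_mul]

theorem finrank_split (M : ℕ) (β : List ℕ) (d : ℕ) [Module.Finite K (V K (M + 1) β d)] :
    Module.finrank K (V K (M + 1) β d) = Module.finrank K (V K M (β.map Nat.pred) d) +
      Module.finrank K
        (V K (M + 1) β d ⊓ LinearMap.ker (rho K M).toLinearMap :
          Submodule K (MvPolynomial (Fin (M + 1)) K)) := by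
  have h := LinearMap.finrank_range_add_finrank_ker
    ((rho K M).toLinearMap.domRestrict (V K (M + 1) β d))
  rw [LinearMap.range_domRestrict, map_rho_V, LinearMap.ker_domRestrict] at h
  rw [← h]
  congr 1
  rw [← Submodule.map_comap_subtype, Submodule.finrank_map_subtype_eq]

end

section

variable {K : Type*} [Field K] [CharZero K]

theorem finrank_V : ∀ (M : ℕ) (β : List ℕ) (d : ℕ), (∀ N ∈ β, N ≤ M) →
    Module.finrank K (V K M β d) = cnt M β d := by
  apply win_induction
  · intro M β β' d h hP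
    rw [← V_perm h, ← cnt_perm h, hP]
  · intro M β
    rw [V_zero, cnt_zero]
    exact finrank_span_singleton one_ne_zero
  · intro M d
    rw [V_nil, cnt_nil]
    exact finrank_bot K _
  · intro M β d hP
    rw [V_drop, cnt_drop, hP]
  · intro M N β d h1 h2 hN ih1 ih2
    have hβ : ∀ N' ∈ (N + 1) :: β, N' ≤ M + 1 := by
      intro N' hN'
      rcases List.mem_cons.mp hN' with rfl | h
      · omega
      · exact h2 N' h
    have hfin := finite_V K (M + 1) ((N + 1) :: β) (d + 1) hβ
    apply le_antisymm (finrank_V_le K _ _ _ hβ)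
    rw [finrank_split, cnt_step M N β d h1 hN, ← ih1, ← ih2]
    apply Nat.add_le_add_left
    rw [← finrank_map_mulE]
    apply Submodule.finrank_mono
    exact map_mulE_le M N β d

/-- exactness for the span -/
theorem exactV {M N : ℕ} {β : List ℕ} {d : ℕ} (h1 : ∀ N' ∈ β, N + 1 ≤ N')
    (h2 : ∀ N' ∈ β, N' ≤ M + 1) (hN : N ≤ M) {f : MvPolynomial (Fin (M + 1)) K}
    (hf : f ∈ V K (M + 1) ((N + 1) :: β) (d + 1)) (hr : rho K M f = 0) :
    ∃ g ∈ V K (M + 1) (N :: β) d, f = X 0 * g := by
  have hβ : ∀ N' ∈ (N + 1) :: β, N' ≤ M + 1 := by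
    intro N' hN'
    rcases List.mem_cons.mp hN' with rfl | h
    · omega
    · exact h2 N' h
  have hβ' : ∀ N' ∈ N :: β, N' ≤ M + 1 := by
    intro N' hN'
    rcases List.mem_cons.mp hN' with rfl | h
    · omega
    · exact h2 N' h
  have hβ'' : ∀ N' ∈ ((N + 1) :: β).map Nat.pred, N' ≤ M := by
    intro N' h'
    simp only [List.mem_map] at h'
    obtain ⟨N'', h'', rfl⟩ := h'
    have := hβ N'' h''
    have : Nat.pred N'' = N'' - 1 := rfl
    omega
  have hfin := finite_V K (M + 1) ((N + 1) :: β) (d + 1) hβ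
  have e : (V K (M + 1) (N :: β) d).map (mulE K M) =
      V K (M + 1) ((N + 1) :: β) (d + 1) ⊓ LinearMap.ker (rho K M).toLinearMap := by
    apply Submodule.eq_of_le_of_finrank_le (map_mulE_le M N β d)
    rw [finrank_map_mulE, finrank_V _ _ _ hβ']
    have h := finrank_split (K := K) M ((N + 1) :: β) (d + 1)
    rw [finrank_V _ _ _ hβ, finrank_V _ _ _ hβ'', cnt_step M N β d h1 hN] at h
    omega
  have hm : f ∈ V K (M + 1) ((N + 1) :: β) (d + 1) ⊓ LinearMap.ker (rho K M).toLinearMap :=
    ⟨hf, hr⟩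
  rw [← e] at hm
  obtain ⟨g, hg, hg'⟩ := hm
  exact ⟨g, hg, hg'.symm⟩

end

end H48.Hk
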