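import Pool.Agent.H48.Hk.Pres

/-! The exchange identities. -/

namespace H48.Hk

section

variable {R : Type*} [CommRing R]

/-- shift of a row -/
def sh (s : ℕ) (w : ℕ → R) (j : ℕ) : R := if s ≤ j then w (j - s) else 0

theorem exch {p q : ℕ} (W : Fin p → ℕ → R) (Z : Fin (q + 1) → ℕ → R) (s : ℕ)
    (J : Fin (p + 1) → ℕ) (J' : Fin q → ℕ) :
    ∑ c : Fin (p + 1), (-1) ^ (c : ℕ) * mn W (fun j => J (c.succAbove j)) *
      (if s ≤ J c then mn Z (Fin.cons (J c - s) J' : Fin (q + 1) → ℕ) else 0) =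
    ∑ i : Fin (q + 1), (-1) ^ (i : ℕ) * mn (Fin.cons (sh s (Z i)) W : Fin (p + 1) → ℕ → R) J *
      mn (fun a => Z (i.succAbove a)) J' := by
  have h1 : ∀ c : Fin (p + 1), (-1) ^ (c : ℕ) * mn W (fun j => J (c.succAbove j)) *
      (if s ≤ J c then mn Z (Fin.cons (J c - s) J' : Fin (q + 1) → ℕ) else 0) =
      ∑ i : Fin (q + 1), (-1) ^ (c : ℕ) * mn W (fun j => J (c.succAbove j)) *
        ((-1) ^ (i : ℕ) * sh s (Z i) (J c) * mn (fun a => Z (i.succAbove a)) J') := by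
    intro c
    rw [← Finset.mul_sum]
    congr 1
    by_cases h : s ≤ J c
    · rw [if_pos h, mn_col]
      apply Finset.sum_congr rfl
      intro i _
      simp only [sh, if_pos h]
    · rw [if_neg h]
      symm
      apply Finset.sum_eq_zero
      intro i _
      simp only [sh, if_neg h, mul_zero, zero_mul]
  rw [Finset.sum_congr rfl (fun c _ => h1 c), Finset.sum_comm]
  apply Finset.sum_congr rfl
  intro i _
  rw [mn_row, Finset.mul_sum, Finset.sum_mul]
  apply Finset.sum_congr rfl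
  intro c _
  ring

theorem mn_cons_dup {p : ℕ} (W : Fin p → ℕ → R) (w : ℕ → R) (a : Fin p) (h : W a = w)
    (J : Fin (p + 1) → ℕ) : mn (Fin.cons w W : Fin (p + 1) → ℕ → R) J = 0 := by
  unfold mn
  apply Matrix.det_zero_of_row_eq (i := 0) (j := a.succ)
  · exact (Fin.succ_ne_zero _).symm
  · funext j
    simp only [Matrix.of_apply, Fin.cons_zero, Fin.cons_succ]
    rw [h]

theorem mn_rot {m : ℕ} (V : Fin (m + 1) → ℕ → R) (J : Fin (m + 1) → ℕ) :
    mn (Fin.cons (V (Fin.last m)) (fun i => V i.castSucc) : Fin (m + 1) → ℕ → R) J =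
      (-1) ^ m * mn V J := by
  unfold mn
  have h := Matrix.det_permute (finRotate (m + 1))⁻¹
    (Matrix.of fun i j : Fin (m + 1) => V i (J j))
  rw [Equiv.Perm.sign_inv, sign_finRotate, Nat.add_sub_cancel] at h
  have h2 : (Matrix.of fun i j : Fin (m + 1) =>
      (Fin.cons (V (Fin.last m)) (fun i => V i.castSucc) : Fin (m + 1) → ℕ → R) i (J j)) =
      (Matrix.of fun i j : Fin (m + 1) => V i (J j)).submatrix
        ((finRotate (m + 1))⁻¹ : Equiv.Perm (Fin (m + 1))) id := by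
    ext1 i j
    simp only [Matrix.of_apply, Matrix.submatrix_apply, id]
    refine Fin.cases ?_ (fun i => ?_) i
    · have : ((finRotate (m + 1))⁻¹ : Equiv.Perm (Fin (m + 1))) 0 = Fin.last m := by
        rw [Equiv.Perm.inv_eq_iff_eq, finRotate_last]
      rw [this, Fin.cons_zero]
    · have : ((finRotate (m + 1))⁻¹ : Equiv.Perm (Fin (m + 1))) i.succ = i.castSucc := by
        rw [Equiv.Perm.inv_eq_iff_eq]
        simp
      rw [this, Fin.cons_succ]
  rw [h2]
  have h3 : ((Matrix.of fun i j : Fin (m + 1) => V i (J j)).submatrix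
      ((finRotate (m + 1))⁻¹ : Equiv.Perm (Fin (m + 1))) id).det = (((-1) ^ m : ℤˣ) : ℤ) *
        Matrix.det (Matrix.of fun i j : Fin (m + 1) => V i (J j)) := by
    rw [← h]
  rw [h3]
  simp

variable (U : ℕ → ℕ → R)

/-- the first `k` rows -/
def Ub (k : ℕ) : Fin k → ℕ → R := fun i => U i

variable {U}

theorem exU (hU : ∀ s i, sh s (U i) = U (i + s)) {p : ℕ} (W : Fin p → ℕ → R) {k : ℕ}
    (hW : ∀ i < k, ∃ a, W a = U i) {q : ℕ} (hq : q ≤ k) (J : Fin (p + 1) → ℕ)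
    (J' : Fin q → ℕ) :
    ∑ c : Fin (p + 1), (-1) ^ (c : ℕ) * mn W (fun j => J (c.succAbove j)) *
      (if k - q ≤ J c then mn (Ub U (q + 1)) (Fin.cons (J c - (k - q)) J' : Fin (q + 1) → ℕ)
        else 0) =
    (-1) ^ q * mn (Fin.cons (U k) W : Fin (p + 1) → ℕ → R) J * mn (Ub U q) J' := by
  rw [exch, Finset.sum_eq_single (Fin.last q)]
  · have h1 : sh (k - q) (Ub U (q + 1) (Fin.last q)) = U k := by
      unfold Ub
      rw [hU, Fin.val_last]
      congr 1
      omega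
    have h2 : (fun a => Ub U (q + 1) ((Fin.last q).succAbove a)) = Ub U q := by
      funext a
      unfold Ub
      rw [Fin.succAbove_last, Fin.val_castSucc]
    rw [h1, h2, Fin.val_last]
  · intro i _ hi
    have hi' : (i : ℕ) < q := by
      have h1 := i.2
      have h2 : (i : ℕ) ≠ q := fun h => hi (Fin.ext (by rw [h, Fin.val_last]))
      omega
    obtain ⟨a, ha⟩ := hW (i + (k - q)) (by omega)
    have h1 : mn (Fin.cons (sh (k - q) (Ub U (q + 1) i)) W : Fin (p + 1) → ℕ → R) J = 0 := by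
      apply mn_cons_dup W _ a
      rw [ha]
      unfold Ub
      rw [hU]
    rw [h1, mul_zero, zero_mul]
  · intro h
    exact absurd (Finset.mem_univ _) h

theorem exYU (hU : ∀ s i, sh s (U i) = U (i + s)) (Y : ℕ → R) {p : ℕ} (W : Fin p → ℕ → R)
    {k : ℕ} (hW : ∀ i < k, ∃ a, W a = U i) {q : ℕ} (hq : q ≤ k) (J : Fin (p + 1) → ℕ)
    (J' : Fin (q + 1) → ℕ) :
    ∑ c : Fin (p + 1), (-1) ^ (c : ℕ) * mn W (fun j => J (c.succAbove j)) *
      (if k - q ≤ J c then mn (Fin.cons Y (Ub U (q + 1)) : Fin (q + 2) → ℕ → R)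
        (Fin.cons (J c - (k - q)) J' : Fin (q + 2) → ℕ) else 0) =
    mn (Fin.cons (sh (k - q) Y) W : Fin (p + 1) → ℕ → R) J * mn (Ub U (q + 1)) J' +
      (-1) ^ (q + 1) * mn (Fin.cons (U k) W : Fin (p + 1) → ℕ → R) J *
        mn (Fin.cons Y (Ub U q) : Fin (q + 1) → ℕ → R) J' := by
  rw [exch, Fin.sum_univ_succ]
  congr 1
  · rw [Fin.val_zero, pow_zero, one_mul, Fin.cons_zero]
    congr 2
  · rw [Finset.sum_eq_single (Fin.last q)]
    · have h1 : sh (k - q) ((Fin.cons Y (Ub U (q + 1)) : Fin (q + 2) → ℕ → R)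
          (Fin.last q).succ) = U k := by
        rw [Fin.cons_succ]
        unfold Ub
        rw [hU, Fin.val_last]
        congr 1
        omega
      have h2 : (fun a => (Fin.cons Y (Ub U (q + 1)) : Fin (q + 2) → ℕ → R)
          ((Fin.last q).succ.succAbove a)) = (Fin.cons Y (Ub U q) : Fin (q + 1) → ℕ → R) := by
        funext a
        refine Fin.cases ?_ (fun a => ?_) a
        · rw [Fin.succ_succAbove_zero, Fin.cons_zero, Fin.cons_zero]
        · rw [Fin.succ_succAbove_succ, Fin.cons_succ, Fin.cons_succ]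
          unfold Ub
          rw [Fin.succAbove_last, Fin.val_castSucc]
      rw [h1, h2, Fin.val_succ, Fin.val_last]
    · intro i _ hi
      have hi' : (i : ℕ) < q := by
        have h1 := i.2
        have h2 : (i : ℕ) ≠ q := fun h => hi (Fin.ext (by rw [h, Fin.val_last]))
        omega
      obtain ⟨a, ha⟩ := hW (i + (k - q)) (by omega)
      have h1 : mn (Fin.cons (sh (k - q) ((Fin.cons Y (Ub U (q + 1)) : Fin (q + 2) → ℕ → R)
          i.succ)) W : Fin (p + 1) → ℕ → R) J = 0 := by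
        apply mn_cons_dup W _ a
        rw [ha, Fin.cons_succ]
        unfold Ub
        rw [hU]
      rw [h1, mul_zero, zero_mul]
    · intro h
      exact absurd (Finset.mem_univ _) h

theorem exY (hU : ∀ s i, sh s (U i) = U (i + s)) (Y : ℕ → R) {p : ℕ} (W : Fin p → ℕ → R)
    {k : ℕ} (hW : ∀ i < k, ∃ a, W a = U i) {q : ℕ} (hq : q ≤ k) (J : Fin (p + 1) → ℕ)
    (J' : Fin q → ℕ) :
    ∑ c : Fin (p + 1), (-1) ^ (c : ℕ) * mn W (fun j => J (c.succAbove j)) *
      (if k - q ≤ J c then mn (Fin.cons Y (Ub U q) : Fin (q + 1) → ℕ → R)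
        (Fin.cons (J c - (k - q)) J' : Fin (q + 1) → ℕ) else 0) =
    mn (Fin.cons (sh (k - q) Y) W : Fin (p + 1) → ℕ → R) J * mn (Ub U q) J' := by
  rw [exch, Fin.sum_univ_succ, Finset.sum_eq_zero, add_zero]
  · rw [Fin.val_zero, pow_zero, one_mul, Fin.cons_zero]
    rfl
  · intro i _
    have hi' := i.2
    obtain ⟨a, ha⟩ := hW (i + (k - q)) (by omega)
    have h1 : mn (Fin.cons (sh (k - q) ((Fin.cons Y (Ub U q) : Fin (q + 1) → ℕ → R)
        i.succ)) W : Fin (p + 1) → ℕ → R) J = 0 := by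
      apply mn_cons_dup W _ a
      rw [ha, Fin.cons_succ]
      unfold Ub
      rw [hU]
    rw [h1, mul_zero, zero_mul]

theorem rotU (k : ℕ) (J : Fin (k + 1) → ℕ) :
    mn (Fin.cons (U k) (Ub U k) : Fin (k + 1) → ℕ → R) J = (-1) ^ k * mn (Ub U (k + 1)) J := by
  rw [← mn_rot]
  rfl

theorem rotYU (Y : ℕ → R) (k : ℕ) (J : Fin (k + 2) → ℕ) :
    mn (Fin.cons (U k) (Fin.cons Y (Ub U k) : Fin (k + 1) → ℕ → R) : Fin (k + 2) → ℕ → R) J =
      (-1) ^ (k + 1) * mn (Fin.cons Y (Ub U (k + 1)) : Fin (k + 2) → ℕ → R) J := by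
  rw [← mn_rot]
  refine congrArg (fun W => mn W J) ?_
  funext i
  refine Fin.cases ?_ (fun i => ?_) i
  · rw [Fin.cons_zero, Fin.cons_zero]
    have : Fin.last (k + 1) = (Fin.last k).succ := rfl
    rw [this, Fin.cons_succ]
    unfold Ub
    rw [Fin.val_last]
  · rw [Fin.cons_succ, Fin.cons_succ]
    refine Fin.cases ?_ (fun i => ?_) i
    · rw [Fin.cons_zero]
      rfl
    · rw [Fin.cons_succ]
      rfl

omit [CommRing R] in
theorem hW_Ub (k : ℕ) : ∀ i < k, ∃ a, Ub U k a = U i := fun i hi => ⟨⟨i, hi⟩, rfl⟩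

omit [CommRing R] in
theorem hW_cons (Y : ℕ → R) (k : ℕ) :
    ∀ i < k, ∃ a, (Fin.cons Y (Ub U k) : Fin (k + 1) → ℕ → R) a = U i :=
  fun i hi => ⟨(⟨i, hi⟩ : Fin k).succ, rfl⟩

/-- exchange of two minors -/
theorem ex1 (hU : ∀ s i, sh s (U i) = U (i + s)) {k q : ℕ} (hq : q ≤ k)
    (J : Fin (k + 1) → ℕ) (J' : Fin q → ℕ) :
    mn (Ub U (k + 1)) J * mn (Ub U q) J' =
    ∑ c : Fin (k + 1), (-1) ^ (q + k) * (-1) ^ (c : ℕ) *
      mn (Ub U k) (fun j => J (c.succAbove j)) *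
      (if k - q ≤ J c then mn (Ub U (q + 1)) (Fin.cons (J c - (k - q)) J' : Fin (q + 1) → ℕ)
        else 0) := by
  have h := exU hU (Ub U k) (hW_Ub k) hq J J'
  rw [rotU] at h
  have h2 : ∑ c : Fin (k + 1), (-1) ^ (q + k) * (-1) ^ (c : ℕ) *
      mn (Ub U k) (fun j => J (c.succAbove j)) *
      (if k - q ≤ J c then mn (Ub U (q + 1)) (Fin.cons (J c - (k - q)) J' : Fin (q + 1) → ℕ)
        else 0) = (-1) ^ (q + k) * ∑ c : Fin (k + 1), (-1) ^ (c : ℕ) *
      mn (Ub U k) (fun j => J (c.succAbove j)) *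
      (if k - q ≤ J c then mn (Ub U (q + 1)) (Fin.cons (J c - (k - q)) J' : Fin (q + 1) → ℕ)
        else 0) := by
    rw [Finset.mul_sum]
    apply Finset.sum_congr rfl
    intro c _
    ring
  rw [h2, h]
  have h3 : ((-1 : R) ^ (q + k)) * (-1) ^ (q + k) = 1 := by
    rw [← mul_pow]
    simp
  have h4 : (-1 : R) ^ (q + k) * ((-1) ^ q * ((-1) ^ k * mn (Ub U (k + 1)) J) *
      mn (Ub U q) J') = ((-1 : R) ^ (q + k)) * (-1) ^ (q + k) *
        (mn (Ub U (k + 1)) J * mn (Ub U q) J') := by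
    ring
  rw [h4, h3, one_mul]

/-- exchange for a relation on the larger side, `a < k` -/
theorem ex2 (hU : ∀ s i, sh s (U i) = U (i + s)) (Y : ℕ → R) {k q : ℕ} (hq : q ≤ k)
    (J : Fin (k + 2) → ℕ) (J' : Fin q → ℕ) :
    ∑ c : Fin (k + 2), (-1) ^ (c : ℕ) *
      mn (Fin.cons Y (Ub U k) : Fin (k + 1) → ℕ → R) (fun j => J (c.succAbove j)) *
      (if k - q ≤ J c then mn (Ub U (q + 1)) (Fin.cons (J c - (k - q)) J' : Fin (q + 1) → ℕ)
        else 0) =
    (-1) ^ (q + k + 1) * (mn (Fin.cons Y (Ub U (k + 1)) : Fin (k + 2) → ℕ → R) J *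
      mn (Ub U q) J') := by
  rw [exU hU _ (hW_cons Y k) hq J J', rotYU]
  ring

/-- exchange for a relation on the larger side, the last relation -/
theorem ex3 (hU : ∀ s i, sh s (U i) = U (i + s)) (Y : ℕ → R) {k q : ℕ} (hq : q ≤ k)
    (J : Fin (k + 2) → ℕ) (J' : Fin q → ℕ) :
    ∑ c : Fin (k + 2), (-1) ^ (c : ℕ) * (if k - q ≤ J c then
      ∑ c' : Fin (k + 1), (-1) ^ (c' : ℕ) *
        mn (Ub U k) (fun j => J (c.succAbove (c'.succAbove j))) *
        (if k - q ≤ J (c.succAbove c') then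
          mn (Fin.cons Y (Ub U (q + 1)) : Fin (q + 2) → ℕ → R)
            (Fin.cons (J (c.succAbove c') - (k - q))
              (Fin.cons (J c - (k - q)) J' : Fin (q + 1) → ℕ) : Fin (q + 2) → ℕ) else 0)
      else 0) =
    2 * (-1) ^ (q + k + 1) *
      (mn (Fin.cons (sh (k - q) Y) (Ub U (k + 1)) : Fin (k + 2) → ℕ → R) J *
        mn (Ub U q) J') := by
  have h1 := ex2 hU (sh (k - q) Y) hq J J'
  have h3 := exY hU Y (Ub U (k + 1)) (fun i hi => hW_Ub (k + 1) i (Nat.lt_succ_of_lt hi)) hq J J'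
  have h2 : ∀ c : Fin (k + 2), (-1) ^ (c : ℕ) * (if k - q ≤ J c then
      ∑ c' : Fin (k + 1), (-1) ^ (c' : ℕ) *
        mn (Ub U k) (fun j => J (c.succAbove (c'.succAbove j))) *
        (if k - q ≤ J (c.succAbove c') then
          mn (Fin.cons Y (Ub U (q + 1)) : Fin (q + 2) → ℕ → R)
            (Fin.cons (J (c.succAbove c') - (k - q))
              (Fin.cons (J c - (k - q)) J' : Fin (q + 1) → ℕ) : Fin (q + 2) → ℕ) else 0)
      else 0) =
      ((-1) ^ (c : ℕ) * mn (Fin.cons (sh (k - q) Y) (Ub U k) : Fin (k + 1) → ℕ → R)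
        (fun j => J (c.succAbove j)) *
      (if k - q ≤ J c then mn (Ub U (q + 1)) (Fin.cons (J c - (k - q)) J' : Fin (q + 1) → ℕ)
        else 0)) + (-1) ^ (q + k + 1) *
      ((-1) ^ (c : ℕ) * mn (Ub U (k + 1)) (fun j => J (c.succAbove j)) *
      (if k - q ≤ J c then mn (Fin.cons Y (Ub U q) : Fin (q + 1) → ℕ → R)
        (Fin.cons (J c - (k - q)) J' : Fin (q + 1) → ℕ) else 0)) := by
    intro c
    by_cases h : k - q ≤ J c
    · rw [if_pos h, if_pos h, if_pos h]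
      have h4 := exYU hU Y (Ub U k) (hW_Ub k) hq (fun j => J (c.succAbove j))
        (Fin.cons (J c - (k - q)) J' : Fin (q + 1) → ℕ)
      rw [rotU] at h4
      rw [h4]
      ring
    · rw [if_neg h, if_neg h, if_neg h]
      ring
  rw [Finset.sum_congr rfl (fun c _ => h2 c), Finset.sum_add_distrib, h1, ← Finset.mul_sum, h3]
  ring

/-- exchange for a relation on the smaller side -/
theorem ex4 (hU : ∀ s i, sh s (U i) = U (i + s)) (Y : ℕ → R) {k q : ℕ} (hq : q ≤ k)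
    (J : Fin (k + 1) → ℕ) (J' : Fin (q + 1) → ℕ) :
    ∑ c : Fin (k + 1), (-1) ^ (c : ℕ) * mn (Ub U k) (fun j => J (c.succAbove j)) *
      (if k - q ≤ J c then mn (Fin.cons Y (Ub U (q + 1)) : Fin (q + 2) → ℕ → R)
        (Fin.cons (J c - (k - q)) J' : Fin (q + 2) → ℕ) else 0) =
    mn (Fin.cons (sh (k - q) Y) (Ub U k) : Fin (k + 1) → ℕ → R) J * mn (Ub U (q + 1)) J' +
      (-1) ^ (q + k + 1) * (mn (Ub U (k + 1)) J *
        mn (Fin.cons Y (Ub U q) : Fin (q + 1) → ℕ → R) J') := by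
  rw [exYU hU Y (Ub U k) (hW_Ub k) hq J J', rotU]
  ring

end

end H48.Hk
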