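import Pool.Agent.H48.Hk.Sizes

/-! The presentation of the Rees algebra, in the coordinates `e`. -/

namespace H48.Hk

open MvPolynomial

/-- bihomogeneous polynomials: degree `b` in the outer variables, coefficients homogeneous of
degree `a`. -/
def BiH {K : Type*} [CommRing K] {τ σ : Type*} (a b : ℕ)
    (F : MvPolynomial τ (MvPolynomial σ K)) : Prop :=
  F.IsHomogeneous b ∧ ∀ d, (coeff d F).IsHomogeneous a

section BiH

variable {K : Type*} [CommRing K] {τ σ : Type*}

theorem BiH.mul {a b a' b' : ℕ} {F G : MvPolynomial τ (MvPolynomial σ K)} (hF : BiH a b F)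
    (hG : BiH a' b' G) : BiH (a + a') (b + b') (F * G) := by
  refine ⟨hF.1.mul hG.1, fun d => ?_⟩
  classical
  rw [coeff_mul]
  apply IsHomogeneous.sum
  intro x _
  exact (hF.2 _).mul (hG.2 _)

theorem BiH.C {a : ℕ} {s : MvPolynomial σ K} (hs : s.IsHomogeneous a) :
    BiH a 0 (MvPolynomial.C s : MvPolynomial τ (MvPolynomial σ K)) := by
  classical
  refine ⟨isHomogeneous_C _ _, fun d => ?_⟩
  rw [coeff_C]
  split_ifs
  · exact hs
  · exact isHomogeneous_zero _ _ _

theorem BiH.X (i : τ) : BiH 0 1 (MvPolynomial.X i : MvPolynomial τ (MvPolynomial σ K)) := by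
  classical
  refine ⟨isHomogeneous_X _ _, fun d => ?_⟩
  rw [coeff_X]
  split_ifs
  · exact isHomogeneous_one _ _
  · exact isHomogeneous_zero _ _ _

theorem BiH.sum {ι : Type*} {a b : ℕ} (s : Finset ι)
    (F : ι → MvPolynomial τ (MvPolynomial σ K)) (h : ∀ i ∈ s, BiH a b (F i)) :
    BiH a b (∑ i ∈ s, F i) := by
  refine ⟨IsHomogeneous.sum _ _ _ (fun i hi => (h i hi).1), fun d => ?_⟩
  rw [coeff_sum]
  exact IsHomogeneous.sum _ _ _ (fun i hi => (h i hi).2 d)

end BiH

theorem homog_ent {A : Type*} [CommRing A] (M c i : ℕ) : (ent A M c i).IsHomogeneous 1 := by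
  unfold ent ev
  split_ifs
  · exact isHomogeneous_X _ _
  · exact isHomogeneous_zero _ _ _
  · exact isHomogeneous_zero _ _ _

section

variable {K : Type*} [Field K] {n : ℕ}

/-- the minor belonging to an increasing choice of columns -/
noncomputable def Dm (K : Type*) [Field K] (n : ℕ) (f : Fin n ↪o Fin (n + 2)) :
    MvPolynomial (Fin (n + 2)) K :=
  mnr K (n + 2) (fun j => n + 1 - (f j : ℕ))

theorem mnr_perm {M k : ℕ} (J : Fin k → ℕ) (π : Equiv.Perm (Fin k)) :
    mnr K M (fun j => J (π j)) = C ((Equiv.Perm.sign π : ℤ) : K) * mnr K M J := by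
  unfold mnr mn
  have h := Matrix.det_permute' π (Matrix.of fun i j : Fin k => ent K M (J j) i)
  have h2 : (Matrix.of fun i j : Fin k => ent K M (J (π j)) i) =
      (Matrix.of fun i j : Fin k => ent K M (J j) i).submatrix id π := rfl
  rw [h2, h]
  simp

theorem exists_choice (J : Fin n → ℕ) (hJ : ∀ j, J j < n + 2) :
    ∃ (c : K) (f : Fin n ↪o Fin (n + 2)), mnr K (n + 2) J = C c * Dm K n f := by
  classical
  by_cases hinj : Function.Injective J
  · let g : Fin n → Fin (n + 2) := fun j => ⟨n + 1 - J j, by omega⟩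
    have hg : Function.Injective g := by
      intro i j hij
      have h1 : n + 1 - J i = n + 1 - J j := congrArg Fin.val hij
      have h2 := hJ i
      have h3 := hJ j
      exact hinj (by omega)
    let s : Finset (Fin (n + 2)) := Finset.univ.image g
    have hs : s.card = n := by
      rw [Finset.card_image_of_injective _ hg]
      simp
    let f := s.orderEmbOfFin hs
    have hex : ∀ j, ∃ i, f i = g j := by
      intro j
      have h1 : g j ∈ Set.range (s.orderEmbOfFin hs) := by
        rw [Finset.range_orderEmbOfFin]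
        simp [s]
      exact h1
    choose π hπ using hex
    have hπi : Function.Injective π := by
      intro i j hij
      apply hg
      rw [← hπ i, ← hπ j, hij]
    let σ : Equiv.Perm (Fin n) := Equiv.ofBijective π (Finite.injective_iff_bijective.mp hπi)
    refine ⟨((Equiv.Perm.sign σ : ℤ) : K), f, ?_⟩
    unfold Dm
    rw [← mnr_perm]
    congr 1
    funext j
    have h1 : (f (σ j) : ℕ) = n + 1 - J j := by
      change ((f (π j)) : ℕ) = _
      rw [hπ j]
    rw [h1]
    have := hJ j
    omega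
  · refine ⟨0, Fin.castLEOrderEmb (by omega), ?_⟩
    rw [C_0, zero_mul]
    rw [Function.not_injective_iff] at hinj
    obtain ⟨i, j, hij, hne⟩ := hinj
    unfold mnr mn
    apply Matrix.det_zero_of_column_eq hne
    intro a
    simp only [Matrix.of_apply, hij]

/-- the ring of the presentation -/
abbrev Pr (K : Type*) [Field K] (n : ℕ) : Type _ :=
  MvPolynomial (Fin n ↪o Fin (n + 2)) (MvPolynomial (Fin (n + 2)) K)

/-- coefficients to outer variables -/
noncomputable def iota (K : Type*) [Field K] (M : ℕ) : MvPolynomial (Fin M) K →+* Py K M :=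
  map C

/-- the map to `Py` -/
noncomputable def Psi (K : Type*) [Field K] (n : ℕ) : Pr K n →+* Py K (n + 2) :=
  eval₂Hom (iota K (n + 2)) (fun f => C (Dm K n f))

theorem Psi_C (s : MvPolynomial (Fin (n + 2)) K) :
    Psi K n (C s) = iota K (n + 2) s := by
  unfold Psi
  rw [eval₂Hom_C]

theorem Psi_X (f : Fin n ↪o Fin (n + 2)) : Psi K n (X f) = C (Dm K n f) := by
  unfold Psi
  rw [eval₂Hom_X']

theorem iota_C {M : ℕ} (c : K) : iota K M (C c) = C (C c) := by
  unfold iota
  rw [map_C]

theorem iota_ent {M : ℕ} (j a : ℕ) :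
    iota K M (ent K M j a) = ent (MvPolynomial (Fin M) K) M j a := by
  unfold iota
  rw [map_ent]

theorem eval_iota {M : ℕ} (s : MvPolynomial (Fin M) K) :
    eval (fun j : Fin M => (X j : MvPolynomial (Fin M) K)) (iota K M s) = s := by
  unfold iota
  rw [eval_map]
  exact eval₂_eta _

theorem eval_Psi (F : Pr K n) :
    eval (fun j : Fin (n + 2) => (X j : MvPolynomial (Fin (n + 2)) K)) (Psi K n F) =
      aeval (Dm K n) F := by
  have h : (eval (fun j : Fin (n + 2) => (X j : MvPolynomial (Fin (n + 2)) K))).comp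
      (Psi K n) = (aeval (Dm K n) : Pr K n →ₐ[_] MvPolynomial (Fin (n + 2)) K).toRingHom := by
    apply MvPolynomial.ringHom_ext
    · intro a
      rw [RingHom.comp_apply, Psi_C, eval_iota]
      change a = aeval (Dm K n) (C a)
      rw [aeval_C]
      rfl
    · intro i
      rw [RingHom.comp_apply, Psi_X, eval_C]
      change _ = aeval (Dm K n) (X i)
      rw [aeval_X]
  exact congrArg (fun φ => φ F) h

theorem lift_mnr (J : Fin n → ℕ) (hJ : ∀ j, J j < n + 2) :
    ∃ t : Pr K n, BiH 0 1 t ∧ Psi K n t = C (mnr K (n + 2) J) := by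
  obtain ⟨c, f, h⟩ := exists_choice (K := K) J hJ
  refine ⟨C (C c) * X f, ?_, ?_⟩
  · have := (BiH.C (τ := Fin n ↪o Fin (n + 2)) (isHomogeneous_C (Fin (n + 2)) c)).mul
      (BiH.X (σ := Fin (n + 2)) (K := K) f)
    simpa using this
  · rw [map_mul, Psi_C, Psi_X, iota_C, ← C_mul, ← h]

theorem lift_prod {b : ℕ} : ∀ {p : MvPolynomial (Fin (n + 2)) K},
    ProdK K (n + 2) (n + 2) (List.replicate b n) p →
    ∃ G : Pr K n, BiH 0 b G ∧ Psi K n G = C p := by
  induction b with
  | zero =>
    intro p h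
    cases h
    refine ⟨1, ?_, by rw [map_one, C_1]⟩
    have := (BiH.C (K := K) (τ := Fin n ↪o Fin (n + 2)) (isHomogeneous_one (Fin (n + 2)) K))
    rwa [C_1] at this
  | succ b ih =>
    intro p h
    rw [List.replicate_succ] at h
    cases h with
    | @cons _ _ p' J hJ h' =>
      obtain ⟨G, hG1, hG2⟩ := ih h'
      obtain ⟨t, ht1, ht2⟩ := lift_mnr (K := K) J hJ
      refine ⟨t * G, ?_, ?_⟩
      · have := ht1.mul hG1
        rw [add_comm 1 b] at this
        simpa using this
      · rw [map_mul, ht2, hG2, C_mul]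

/-- the ideal of the linear relations -/
noncomputable def I1 (K : Type*) [Field K] (n : ℕ) : Ideal (Pr K n) :=
  Ideal.span {G | aeval (Dm K n) G = 0 ∧ BiH 1 1 G}

/-- the ideal of the relations of the fiber -/
noncomputable def I2 (K : Type*) [Field K] (n : ℕ) : Ideal (Pr K n) :=
  Ideal.span {G | aeval (Dm K n) G = 0 ∧ ∃ b, BiH 0 b G}

theorem lift_rel {a : ℕ} (ha : a < n) (J : Fin (n + 1) → ℕ) (hJ : ∀ j, J j < n + 2) :
    ∃ t : Pr K n, (aeval (Dm K n) t = 0 ∧ BiH 1 1 t) ∧ Psi K n t = rel K (n + 2) a J := by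
  have h1 : ∀ c : Fin (n + 1), ∃ t : Pr K n, BiH 0 1 t ∧
      Psi K n t = C (mnr K (n + 2) (fun j => J (c.succAbove j))) :=
    fun c => lift_mnr _ (fun j => hJ _)
  choose t ht1 ht2 using h1
  have h2 : Psi K n (∑ c : Fin (n + 1), (-1) ^ (c : ℕ) * (C (ent K (n + 2) (J c) a) * t c)) =
      rel K (n + 2) a J := by
    rw [map_sum, rel_eq_sum]
    apply Finset.sum_congr rfl
    intro c _
    rw [map_mul, map_mul, map_pow, map_neg, map_one, Psi_C, iota_ent, ht2, mul_assoc]
  refine ⟨∑ c : Fin (n + 1), (-1) ^ (c : ℕ) * (C (ent K (n + 2) (J c) a) * t c), ⟨?_, ?_⟩, h2⟩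
  · rw [← eval_Psi, h2, eval_rel ha]
  · apply BiH.sum
    intro c _
    have h3 : BiH 0 0 ((-1) ^ (c : ℕ) : Pr K n) := by
      have h4 := (BiH.C (K := K) (τ := Fin n ↪o Fin (n + 2))
        (isHomogeneous_C (Fin (n + 2)) ((-1 : K) ^ (c : ℕ))))
      have h5 : (C (C ((-1 : K) ^ (c : ℕ))) : Pr K n) = (-1) ^ (c : ℕ) := by
        rw [map_pow, map_pow, map_neg, map_neg, C_1, C_1]
      rw [h5] at h4
      exact h4
    have h6 := h3.mul ((BiH.C (K := K) (τ := Fin n ↪o Fin (n + 2))
      (homog_ent (A := K) (n + 2) (J c) a)).mul (ht1 c))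
    simpa using h6

theorem lift_relK {b : ℕ} : ∀ {H : Py K (n + 2)},
    RelK K (n + 2) (n + 2) (List.replicate b n) H →
    ∃ G ∈ I1 K n, G.IsHomogeneous b ∧ Psi K n G = H := by
  induction b with
  | zero =>
    intro H h
    cases h
  | succ b ih =>
    intro H h
    rw [List.replicate_succ] at h
    cases h with
    | @head _ _ p a ha J hJ h' =>
      obtain ⟨G, hG1, hG2⟩ := lift_prod h'
      obtain ⟨t, ht1, ht2⟩ := lift_rel (K := K) ha J hJ
      refine ⟨t * G, ?_, ?_, ?_⟩
      · exact Ideal.mul_mem_right _ _ (Ideal.subset_span ht1)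
      · have := ht1.2.1.mul hG1.1
        rwa [add_comm 1 b] at this
      · rw [map_mul, ht2, hG2]
    | @tail _ _ H' J hJ h' =>
      obtain ⟨G, hG1, hG2, hG3⟩ := ih h'
      obtain ⟨t, ht1, ht2⟩ := lift_mnr (K := K) J hJ
      refine ⟨t * G, ?_, ?_, ?_⟩
      · exact Ideal.mul_mem_left _ _ hG1
      · have := ht1.1.mul hG2
        rwa [add_comm 1 b] at this
      · rw [map_mul, ht2, hG3]

theorem lift_Wr {b : ℕ} {z : Py K (n + 2)}
    (hz : z ∈ Wr K (n + 2) (n + 2) (List.replicate b n)) :
    ∃ G ∈ I1 K n, G.IsHomogeneous b ∧ Psi K n G = z := by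
  unfold Wr at hz
  induction hz using Submodule.span_induction with
  | mem x hx =>
    obtain ⟨γ, H, hH, rfl⟩ := hx
    obtain ⟨G, hG1, hG2, hG3⟩ := lift_relK hH
    refine ⟨C (monomial γ 1) * G, Ideal.mul_mem_left _ _ hG1, ?_, ?_⟩
    · have := (isHomogeneous_C (Fin n ↪o Fin (n + 2))
        (monomial γ 1 : MvPolynomial (Fin (n + 2)) K)).mul hG2
      rwa [zero_add] at this
    · rw [map_mul, hG3, Psi_C]
      congr 1
      unfold iota
      rw [map_monomial, C_1]
  | zero => exact ⟨0, Ideal.zero_mem _, isHomogeneous_zero _ _ _, map_zero _⟩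
  | add x y _ _ hx hy =>
    obtain ⟨G1, h1, h1', h1''⟩ := hx
    obtain ⟨G2, h2, h2', h2''⟩ := hy
    exact ⟨G1 + G2, Ideal.add_mem _ h1 h2, h1'.add h2', by rw [map_add, h1'', h2'']⟩
  | smul c x _ hx =>
    obtain ⟨G1, h1, h1', h1''⟩ := hx
    refine ⟨C (C c) * G1, Ideal.mul_mem_left _ _ h1, ?_, ?_⟩
    · have := (isHomogeneous_C (Fin n ↪o Fin (n + 2))
        (C c : MvPolynomial (Fin (n + 2)) K)).mul h1'
      rwa [zero_add] at this
    · rw [map_mul, h1'', Psi_C, iota_C,
        ← algebraMap_smul (MvPolynomial (Fin (n + 2)) K) c x,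
        MvPolynomial.smul_eq_C_mul, MvPolynomial.algebraMap_eq]

theorem Psi_eq_sum (F : Pr K n) : Psi K n F =
    ∑ d ∈ F.support, iota K (n + 2) (coeff d F) *
      C (d.prod fun f m => Dm K n f ^ m) := by
  unfold Psi
  rw [coe_eval₂Hom, eval₂_eq']
  apply Finset.sum_congr rfl
  intro d _
  congr 1
  rw [Finsupp.prod_fintype _ _ (fun f => pow_zero _), map_prod]
  apply Finset.prod_congr rfl
  intro f _
  rw [map_pow]

theorem coeff_iota_mul (s p : MvPolynomial (Fin (n + 2)) K) (γ : Fin (n + 2) →₀ ℕ) :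
    coeff γ (iota K (n + 2) s * C p) = C (coeff γ s) * p := by
  rw [mul_comm, coeff_C_mul]
  unfold iota
  rw [coeff_map, mul_comm]

theorem mem_I2 {b : ℕ} {E : Pr K n} (hE : E.IsHomogeneous b) (h0 : Psi K n E = 0) :
    E ∈ I2 K n := by
  classical
  -- the part of `E` with the coefficients of `x^m`
  let Em : (Fin (n + 2) →₀ ℕ) → Pr K n := fun m =>
    ∑ d ∈ E.support, monomial d (C (coeff m (coeff d E)))
  have hEm : ∀ m, Em m ∈ I2 K n := by
    intro m
    apply Ideal.subset_span
    refine ⟨?_, b, ?_⟩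
    · have h1 : aeval (Dm K n) (Em m) = ∑ d ∈ E.support,
          C (coeff m (coeff d E)) * (d.prod fun f m => Dm K n f ^ m) := by
        simp only [Em]
        rw [map_sum]
        apply Finset.sum_congr rfl
        intro d _
        rw [aeval_monomial]
        rfl
      rw [h1]
      have h2 := congrArg (coeff m) h0
      rw [Psi_eq_sum, coeff_sum, coeff_zero] at h2
      rw [← h2]
      apply Finset.sum_congr rfl
      intro d _
      rw [coeff_iota_mul]
    · apply BiH.sum
      intro d hd
      refine ⟨?_, fun d' => ?_⟩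
      · apply isHomogeneous_monomial
        rw [mem_support_iff] at hd
        rw [Finsupp.degree_eq_weight_one]
        exact hE hd
      · rw [coeff_monomial]
        split_ifs
        · exact isHomogeneous_C _ _
        · exact isHomogeneous_zero _ _ _
  have hsum : E = ∑ m ∈ E.support.biUnion (fun d => (coeff d E).support),
      C (monomial m 1) * Em m := by
    simp only [Em]
    simp_rw [Finset.mul_sum]
    rw [Finset.sum_comm]
    conv_lhs => rw [E.as_sum]
    apply Finset.sum_congr rfl
    intro d hd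
    simp_rw [C_mul_monomial]
    rw [← map_sum]
    congr 1
    conv_lhs => rw [(coeff d E).as_sum]
    have h3 : ∀ m, monomial m 1 * C (coeff m (coeff d E)) = monomial m (coeff m (coeff d E)) := by
      intro m
      rw [mul_comm, C_mul_monomial, mul_one]
    simp_rw [h3]
    apply Finset.sum_subset
    · intro m hm
      rw [Finset.mem_biUnion]
      exact ⟨d, hd, hm⟩
    · intro m _ hm
      rw [notMem_support_iff.mp hm, monomial_zero]
  rw [hsum]
  apply Ideal.sum_mem
  intro m _
  exact Ideal.mul_mem_left _ _ (hEm m)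

theorem Dm_prod_mem (b : ℕ) : ∀ d : (Fin n ↪o Fin (n + 2)) →₀ ℕ, d.degree = b →
    (d.prod fun f m => Dm K n f ^ m) ∈ V K (n + 2) (List.replicate b (n + 2)) (n * b) := by
  classical
  induction b with
  | zero =>
    intro d hd
    rw [Finsupp.degree_eq_zero_iff] at hd
    subst hd
    rw [Finsupp.prod_zero_index, mul_zero, List.replicate_zero]
    exact Submodule.subset_span IsProd.nil
  | succ b ih =>
    intro d hd
    have hne : d ≠ 0 := by
      intro h
      subst h
      simp at hd
    obtain ⟨f, hf⟩ := Finsupp.ne_iff.mp hne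
    rw [Finsupp.zero_apply] at hf
    have h1 : Finsupp.single f 1 + (d - Finsupp.single f 1) = d := by
      ext g
      rw [Finsupp.add_apply, Finsupp.tsub_apply]
      by_cases hg : g = f
      · rw [hg, Finsupp.single_eq_same]
        omega
      · rw [Finsupp.single_eq_of_ne hg]
        omega
    have h2 : (d - Finsupp.single f 1).degree = b := by
      have h3 := congrArg Finsupp.degree h1
      rw [map_add, Finsupp.degree_single, hd] at h3
      omega
    have h4 := ih _ h2
    have h5 : (d.prod fun f m => Dm K n f ^ m) =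
        Dm K n f * ((d - Finsupp.single f 1).prod fun f m => Dm K n f ^ m) := by
      conv_lhs => rw [← h1]
      rw [Finsupp.prod_add_index' (fun _ => pow_zero _) (fun _ _ _ => pow_add _ _ _),
        Finsupp.prod_single_index (h := fun f m => Dm K n f ^ m) (pow_zero _), pow_one]
    rw [h5, List.replicate_succ]
    have h6 := V_mul_mnr (K := K) (M := n + 2) (N := n + 2) (fun j => n + 1 - (f j : ℕ))
      (fun j => by omega) h4
    have h7 : n + n * b = n * (b + 1) := by ring
    rw [h7] at h6
    exact h6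

theorem iota_mul_CW {M : ℕ} {W : Submodule K (MvPolynomial (Fin M) K)} {H : Py K M}
    (hH : H ∈ CW W) (s : MvPolynomial (Fin M) K) : iota K M s * H ∈ CW W := by
  unfold iota
  rw [s.as_sum, map_sum, Finset.sum_mul]
  apply Submodule.sum_mem
  intro m _
  rw [map_monomial]
  have h1 : monomial m (C (coeff m s) : MvPolynomial (Fin M) K) * H =
      coeff m s • (monomial m 1 * H) := by
    rw [← algebraMap_smul (MvPolynomial (Fin M) K) (coeff m s) (monomial m 1 * H),
      MvPolynomial.smul_eq_C_mul, MvPolynomial.algebraMap_eq, ← mul_assoc, C_mul_monomial,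
      mul_one]
  rw [h1]
  apply Submodule.smul_mem
  exact monomial_mul_CW hH m

end

/-- the presentation in the coordinates `e` -/
theorem core {K : Type*} [Field K] [CharZero K] {n b : ℕ} {F : Pr K n}
    (hF : F.IsHomogeneous b) (h0 : aeval (Dm K n) F = 0) : F ∈ I1 K n ⊔ I2 K n := by
  have h1 : Psi K n F ∈ CW (V K (n + 2) (List.replicate b (n + 2)) (n * b)) := by
    rw [Psi_eq_sum]
    apply Submodule.sum_mem
    intro d hd
    apply iota_mul_CW
    apply C_mem_CW
    apply Dm_prod_mem
    rw [mem_support_iff] at hd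
    rw [Finsupp.degree_eq_weight_one]
    exact hF hd
  have h2 : Psi K n F ∈ Mrel K (n + 2) (List.replicate b (n + 2)) (n * b) := by
    apply pres _ _ _ _ _ h1
    · rw [eval_Psi, h0]
    · intro N hN
      rw [List.eq_of_mem_replicate hN]
  obtain ⟨G, hG1, hG2, hG3⟩ := lift_Wr (Mrel_le_Wr n b h2)
  have h3 : F - G ∈ I2 K n := by
    apply mem_I2 (b := b)
    · exact hF.sub hG2
    · rw [map_sub, hG3, sub_self]
  have h4 : F = G + (F - G) := by ring
  rw [h4]
  exact Ideal.add_mem _ (Ideal.mem_sup_left hG1) (Ideal.mem_sup_right h3)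

end H48.Hk
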