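import Mathlib

/-! Linear resolutions: an inductive criterion. -/

namespace H48.Hk

open MvPolynomial

section

variable {K : Type*} [Field K] {σ : Type*}

/-- `LR n δ ι Z`: the submodule `Z` of the free module on `ι` has generators whose entries are
homogeneous of degree `δ`, with a resolution with linear maps and of length at most `n`. -/
def LR (K : Type*) [Field K] (σ : Type*) : ℕ → ∀ (_ : ℕ) (ι : Type),
    Submodule (MvPolynomial σ K) (ι → MvPolynomial σ K) → Prop
  | 0 => fun _ _ Z => Z = ⊥
  | n + 1 => fun δ ι Z => ∃ (κ : Type) (_ : Fintype κ) (g : κ → ι → MvPolynomial σ K),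
      (∀ k i, (g k i).IsHomogeneous δ) ∧ Submodule.span (MvPolynomial σ K) (Set.range g) = Z ∧
      LR K σ n 1 κ (LinearMap.ker (Fintype.linearCombination (MvPolynomial σ K) g))

theorem LR_mono_succ (n : ℕ) : ∀ (δ : ℕ) (ι : Type)
    (Z : Submodule (MvPolynomial σ K) (ι → MvPolynomial σ K)), LR K σ n δ ι Z →
    LR K σ (n + 1) δ ι Z := by
  induction n with
  | zero =>
    intro δ ι Z h
    refine ⟨PEmpty, inferInstance, fun k => k.elim, fun k => k.elim, ?_, ?_⟩
    · have h' : Z = ⊥ := h
      rw [h']
      simp
    · change _ = ⊥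
      rw [eq_bot_iff]
      intro v _
      rw [Submodule.mem_bot]
      funext k
      exact k.elim
  | succ n ih =>
    intro δ ι Z h
    obtain ⟨κ, hκ, g, h1, h2, h3⟩ := h
    exact ⟨κ, hκ, g, h1, h2, ih _ _ _ h3⟩

theorem LR_mono {n m : ℕ} (h : n ≤ m) {δ : ℕ} {ι : Type}
    {Z : Submodule (MvPolynomial σ K) (ι → MvPolynomial σ K)} (hZ : LR K σ n δ ι Z) :
    LR K σ m δ ι Z := by
  induction h with
  | refl => exact hZ
  | step _ ih => exact LR_mono_succ _ _ _ _ ih

/-- graded submodules -/
def Grd {ι : Type} (Z : Submodule (MvPolynomial σ K) (ι → MvPolynomial σ K)) : Prop :=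
  ∀ z ∈ Z, ∀ i : ℕ, (fun x => homogeneousComponent i (z x)) ∈ Z

theorem comp_mul {i δ : ℕ} (v : MvPolynomial σ K) {h : MvPolynomial σ K}
    (hh : h.IsHomogeneous δ) :
    homogeneousComponent (i + δ) (v * h) = homogeneousComponent i v * h := by
  classical
  have hv : v = ∑ j ∈ Finset.range (max (v.totalDegree + 1) (i + 1)),
      homogeneousComponent j v := by
    conv_lhs => rw [← sum_homogeneousComponent v]
    apply Finset.sum_subset
    · intro j hj
      rw [Finset.mem_range] at hj ⊢
      exact lt_of_lt_of_le hj (le_max_left _ _)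
    · intro j _ hj
      rw [Finset.mem_range, not_lt] at hj
      exact homogeneousComponent_eq_zero _ _ (by omega)
  conv_lhs => rw [hv]
  rw [Finset.sum_mul, map_sum, Finset.sum_eq_single i]
  · have h1 := (homogeneousComponent_isHomogeneous i v).mul hh
    rw [homogeneousComponent_of_mem (m := i + δ) (n := i + δ)
      ((mem_homogeneousSubmodule _ _).mpr h1), if_pos rfl]
  · intro j _ hj
    have h1 := (homogeneousComponent_isHomogeneous j v).mul hh
    rw [homogeneousComponent_of_mem (m := i + δ) (n := j + δ)
      ((mem_homogeneousSubmodule _ _).mpr h1), if_neg (by omega)]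
  · intro h1
    rw [Finset.mem_range, not_lt] at h1
    have := le_max_right (v.totalDegree + 1) (i + 1)
    omega

theorem lc_apply {ι κ : Type} [Fintype κ] (g : κ → ι → MvPolynomial σ K)
    (v : κ → MvPolynomial σ K) (y : ι) :
    Fintype.linearCombination (MvPolynomial σ K) g v y = ∑ k, v k * g k y := by
  rw [Fintype.linearCombination_apply, Finset.sum_apply]
  rfl

theorem grd_ker {ι κ : Type} [Fintype κ] (g : κ → ι → MvPolynomial σ K) {δ : ℕ}
    (hg : ∀ k i, (g k i).IsHomogeneous δ) :
    Grd (LinearMap.ker (Fintype.linearCombination (MvPolynomial σ K) g)) := by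
  intro v hv i
  rw [LinearMap.mem_ker] at hv ⊢
  funext y
  rw [lc_apply, Pi.zero_apply]
  have h1 := congrFun hv y
  rw [lc_apply, Pi.zero_apply] at h1
  have h2 := congrArg (homogeneousComponent (i + δ)) h1
  rw [map_sum, map_zero] at h2
  rw [← h2]
  apply Finset.sum_congr rfl
  intro k _
  rw [comp_mul _ (hg k y)]

theorem LR_ext (n : ℕ) : ∀ (δ : ℕ) (ι κ : Type)
    (Zp : Submodule (MvPolynomial σ K) (ι ⊕ κ → MvPolynomial σ K))
    (Z : Submodule (MvPolynomial σ K) (ι → MvPolynomial σ K))
    (Q : Submodule (MvPolynomial σ K) (κ → MvPolynomial σ K)), Grd Zp →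
    (∀ z, z ∈ Z ↔ (Sum.elim z 0 : ι ⊕ κ → MvPolynomial σ K) ∈ Zp) →
    (∀ q, q ∈ Q ↔ ∃ z, (Sum.elim z q : ι ⊕ κ → MvPolynomial σ K) ∈ Zp) →
    LR K σ n δ ι Z → LR K σ n δ κ Q → LR K σ n δ (ι ⊕ κ) Zp := by
  induction n with
  | zero =>
    intro δ ι κ Zp Z Q _ hZ hQ h1 h2
    have h1' : Z = ⊥ := h1
    have h2' : Q = ⊥ := h2
    change Zp = ⊥
    rw [eq_bot_iff]
    intro z hz
    have e : z = Sum.elim (z ∘ Sum.inl) (z ∘ Sum.inr) := (Sum.elim_comp_inl_inr z).symm
    have h3 : z ∘ Sum.inr ∈ Q := by
      rw [hQ]
      exact ⟨z ∘ Sum.inl, by rw [← e]; exact hz⟩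
    rw [h2', Submodule.mem_bot] at h3
    rw [h3] at e
    have h4 : z ∘ Sum.inl ∈ Z := by
      rw [hZ, ← e]
      exact hz
    rw [h1', Submodule.mem_bot] at h4
    rw [h4] at e
    rw [Submodule.mem_bot, e]
    funext x
    cases x <;> rfl
  | succ n ih =>
    intro δ ι κ Zp Z Q hgr hZ hQ h1 h2
    obtain ⟨A, hA, zA, a1, a2, a3⟩ := h1
    obtain ⟨B, hB, qB, b1, b2, b3⟩ := h2
    have hlift : ∀ b : B, ∃ z : ι → MvPolynomial σ K, (∀ i, (z i).IsHomogeneous δ) ∧
        (Sum.elim z (qB b) : ι ⊕ κ → MvPolynomial σ K) ∈ Zp := by
      intro b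
      have h3 : qB b ∈ Q := by
        rw [← b2]
        exact Submodule.subset_span ⟨b, rfl⟩
      rw [hQ] at h3
      obtain ⟨z, hz⟩ := h3
      refine ⟨fun x => homogeneousComponent δ (z x),
        fun i => homogeneousComponent_isHomogeneous _ _, ?_⟩
      have h4 := hgr _ hz δ
      have h5 : (fun x => homogeneousComponent δ
          ((Sum.elim z (qB b) : ι ⊕ κ → MvPolynomial σ K) x)) =
          Sum.elim (fun x => homogeneousComponent δ (z x)) (qB b) := by
        funext x
        cases x with
        | inl x => rfl
        | inr x =>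
          simp only [Sum.elim_inr]
          rw [homogeneousComponent_of_mem (m := δ) (n := δ)
            ((mem_homogeneousSubmodule _ _).mpr (b1 b x)), if_pos rfl]
      rw [h5] at h4
      exact h4
    choose zB hzB1 hzB2 using hlift
    let g : A ⊕ B → ι ⊕ κ → MvPolynomial σ K := Sum.elim
      (fun a => Sum.elim (zA a) 0) (fun b => Sum.elim (zB b) (qB b))
    have hlc : ∀ (v : A → MvPolynomial σ K) (w : B → MvPolynomial σ K),
        Fintype.linearCombination (MvPolynomial σ K) g (Sum.elim v w) =
        Sum.elim (Fintype.linearCombination (MvPolynomial σ K) zA v +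
          Fintype.linearCombination (MvPolynomial σ K) zB w)
          (Fintype.linearCombination (MvPolynomial σ K) qB w) := by
      intro v w
      funext y
      rw [lc_apply, Fintype.sum_sum_type]
      cases y with
      | inl y =>
        simp only [Sum.elim_inl, Sum.elim_inr, Pi.add_apply, g]
        rw [lc_apply, lc_apply]
      | inr y =>
        simp only [Sum.elim_inl, Sum.elim_inr, g, Pi.zero_apply, mul_zero,
          Finset.sum_const_zero, zero_add]
        rw [lc_apply]
    have hgm : ∀ x, g x ∈ Zp := by
      intro x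
      cases x with
      | inl a =>
        change (Sum.elim (zA a) 0 : ι ⊕ κ → MvPolynomial σ K) ∈ Zp
        rw [← hZ, ← a2]
        exact Submodule.subset_span ⟨a, rfl⟩
      | inr b => exact hzB2 b
    have hmemA : ∀ z ∈ Z, ∃ v : A → MvPolynomial σ K,
        Fintype.linearCombination (MvPolynomial σ K) zA v = z := by
      intro z hz
      rw [← a2, ← Fintype.range_linearCombination] at hz
      exact hz
    have hmemB : ∀ q ∈ Q, ∃ v : B → MvPolynomial σ K,
        Fintype.linearCombination (MvPolynomial σ K) qB v = q := by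
      intro z hz
      rw [← b2, ← Fintype.range_linearCombination] at hz
      exact hz
    have hlcmem : ∀ v, Fintype.linearCombination (MvPolynomial σ K) g v ∈ Zp := by
      intro v
      rw [Fintype.linearCombination_apply]
      exact Submodule.sum_mem _ (fun x _ => Submodule.smul_mem _ _ (hgm x))
    refine ⟨A ⊕ B, inferInstance, g, ?_, ?_, ?_⟩
    · intro x y
      cases x with
      | inl a =>
        cases y with
        | inl y => exact a1 a y
        | inr y => exact isHomogeneous_zero _ _ _
      | inr b =>
        cases y with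
        | inl y => exact hzB1 b y
        | inr y => exact b1 b y
    · apply le_antisymm
      · rw [Submodule.span_le]
        rintro _ ⟨x, rfl⟩
        exact hgm x
      · intro z hz
        rw [← Fintype.range_linearCombination]
        have e : z = Sum.elim (z ∘ Sum.inl) (z ∘ Sum.inr) := (Sum.elim_comp_inl_inr z).symm
        have h3 : z ∘ Sum.inr ∈ Q := by
          rw [hQ]
          exact ⟨z ∘ Sum.inl, by rw [← e]; exact hz⟩
        obtain ⟨w, hw⟩ := hmemB _ h3
        have h4 : z ∘ Sum.inl - Fintype.linearCombination (MvPolynomial σ K) zB w ∈ Z := by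
          rw [hZ]
          have h5 := Submodule.sub_mem _ hz (hlcmem (Sum.elim 0 w))
          rw [hlc, map_zero, zero_add, hw] at h5
          have h6 : z - Sum.elim (Fintype.linearCombination (MvPolynomial σ K) zB w)
              (z ∘ Sum.inr) = Sum.elim (z ∘ Sum.inl -
                Fintype.linearCombination (MvPolynomial σ K) zB w) 0 := by
            funext x
            cases x with
            | inl x => rfl
            | inr x => simp
          rw [h6] at h5
          exact h5
        obtain ⟨v, hv⟩ := hmemA _ h4
        refine ⟨Sum.elim v w, ?_⟩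
        rw [hlc, hv, hw, sub_add_cancel, ← e]
    · refine ih 1 A B _ (LinearMap.ker (Fintype.linearCombination (MvPolynomial σ K) zA))
        (LinearMap.ker (Fintype.linearCombination (MvPolynomial σ K) qB)) ?_ ?_ ?_ a3 b3
      · apply grd_ker g (δ := δ)
        intro x y
        cases x with
        | inl a =>
          cases y with
          | inl y => exact a1 a y
          | inr y => exact isHomogeneous_zero _ _ _
        | inr b =>
          cases y with
          | inl y => exact hzB1 b y
          | inr y => exact b1 b y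
      · intro v
        rw [LinearMap.mem_ker, LinearMap.mem_ker, hlc, map_zero, map_zero, add_zero]
        constructor
        · intro h
          rw [h]
          funext x
          cases x <;> rfl
        · intro h
          funext x
          exact congrFun h (Sum.inl x)
      · intro w
        rw [LinearMap.mem_ker]
        constructor
        · intro h
          have h4 : -Fintype.linearCombination (MvPolynomial σ K) zB w ∈ Z := by
            rw [Submodule.neg_mem_iff, hZ]
            have h5 := hlcmem (Sum.elim 0 w)
            rw [hlc, map_zero, zero_add, h] at h5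
            exact h5
          obtain ⟨v, hv⟩ := hmemA _ h4
          refine ⟨v, ?_⟩
          rw [LinearMap.mem_ker, hlc, hv, h, neg_add_cancel]
          funext x
          cases x <;> rfl
        · rintro ⟨v, hv⟩
          rw [LinearMap.mem_ker, hlc] at hv
          funext x
          exact congrFun hv (Sum.inr x)

/-- an ideal as a submodule of the free module of rank one -/
def QI (I : Ideal (MvPolynomial σ K)) :
    Submodule (MvPolynomial σ K) (Unit → MvPolynomial σ K) where
  carrier := {v | v () ∈ I}
  add_mem' := by
    intro a b ha hb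
    exact I.add_mem ha hb
  zero_mem' := I.zero_mem
  smul_mem' := by
    intro c x hx
    exact I.mul_mem_left c hx

theorem mem_QI {I : Ideal (MvPolynomial σ K)} {v : Unit → MvPolynomial σ K} :
    v ∈ QI I ↔ v () ∈ I := Iff.rfl

theorem LR_add {n d : ℕ} {I C : Ideal (MvPolynomial σ K)} {g₀ : MvPolynomial σ K}
    (hI : LR K σ (n + 1) d Unit (QI I)) (hg : g₀.IsHomogeneous d)
    (hC : ∀ s, s * g₀ ∈ I ↔ s ∈ C) (hL : LR K σ n 1 Unit (QI C)) :
    LR K σ (n + 1) d Unit (QI (I ⊔ Ideal.span {g₀})) := by
  obtain ⟨A, hA, g, h1, h2, h3⟩ := hI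
  let gp : A ⊕ Unit → Unit → MvPolynomial σ K := Sum.elim g (fun _ _ => g₀)
  have hlc : ∀ (v : A → MvPolynomial σ K) (w : Unit → MvPolynomial σ K),
      Fintype.linearCombination (MvPolynomial σ K) gp (Sum.elim v w) () =
      Fintype.linearCombination (MvPolynomial σ K) g v () + w () * g₀ := by
    intro v w
    rw [lc_apply, Fintype.sum_sum_type, lc_apply]
    simp [gp]
  have hmem : ∀ f : MvPolynomial σ K, f ∈ I ↔ ∃ v : A → MvPolynomial σ K,
      Fintype.linearCombination (MvPolynomial σ K) g v () = f := by
    intro f
    have h4 : f ∈ I ↔ (fun _ => f : Unit → MvPolynomial σ K) ∈ QI I := Iff.rfl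
    rw [h4, ← h2, ← Fintype.range_linearCombination]
    constructor
    · rintro ⟨v, hv⟩
      exact ⟨v, congrFun hv ()⟩
    · rintro ⟨v, hv⟩
      exact ⟨v, funext (fun _ => hv)⟩
  refine ⟨A ⊕ Unit, inferInstance, gp, ?_, ?_, ?_⟩
  · intro x y
    cases x with
    | inl a => exact h1 a y
    | inr b => exact hg
  · rw [← Fintype.range_linearCombination]
    ext v
    rw [mem_QI, Submodule.mem_sup]
    constructor
    · rintro ⟨w, rfl⟩
      refine ⟨Fintype.linearCombination (MvPolynomial σ K) g (w ∘ Sum.inl) (),
        (hmem _).mpr ⟨_, rfl⟩, w (Sum.inr ()) * g₀, ?_, ?_⟩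
      · exact Ideal.mul_mem_left _ _ (Ideal.subset_span rfl)
      · have e : w = Sum.elim (w ∘ Sum.inl) (w ∘ Sum.inr) := (Sum.elim_comp_inl_inr w).symm
        conv_rhs => rw [e]
        rw [hlc]
        rfl
    · rintro ⟨f, hf, f', hf', hff⟩
      obtain ⟨v', hv'⟩ := (hmem f).mp hf
      obtain ⟨s, hs⟩ := Ideal.mem_span_singleton'.mp hf'
      refine ⟨Sum.elim v' (fun _ => s), ?_⟩
      funext y
      rw [hlc, hv', hs]
      exact hff
  · refine LR_ext n 1 A Unit _ (LinearMap.ker (Fintype.linearCombination (MvPolynomial σ K) g))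
      (QI C) ?_ ?_ ?_ h3 hL
    · apply grd_ker gp (δ := d)
      intro x y
      cases x with
      | inl a => exact h1 a y
      | inr b => exact hg
    · intro v
      rw [LinearMap.mem_ker, LinearMap.mem_ker]
      constructor
      · intro h
        funext y
        rw [hlc, h]
        simp
      · intro h
        funext y
        have := congrFun h ()
        rw [hlc] at this
        simpa using this
    · intro w
      rw [mem_QI, ← hC, hmem]
      constructor
      · rintro ⟨v, hv⟩
        refine ⟨-v, ?_⟩
        rw [LinearMap.mem_ker]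
        funext y
        rw [hlc, map_neg, Pi.neg_apply, hv, neg_add_cancel]
        rfl
      · rintro ⟨v, hv⟩
        rw [LinearMap.mem_ker] at hv
        refine ⟨-v, ?_⟩
        have := congrFun hv ()
        rw [hlc] at this
        rw [map_neg, Pi.neg_apply]
        exact neg_eq_of_add_eq_zero_right this

theorem LR_equiv (n : ℕ) {δ : ℕ} {ι ι' : Type} (e : ι ≃ ι')
    {Z : Submodule (MvPolynomial σ K) (ι → MvPolynomial σ K)}
    {Z' : Submodule (MvPolynomial σ K) (ι' → MvPolynomial σ K)}
    (hZ : ∀ z, z ∈ Z' ↔ (fun x => z (e x)) ∈ Z) (h : LR K σ n δ ι Z) : LR K σ n δ ι' Z' := by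
  cases n with
  | zero =>
    change Z' = ⊥
    have h' : Z = ⊥ := h
    rw [eq_bot_iff]
    intro z hz
    rw [hZ, h', Submodule.mem_bot] at hz
    rw [Submodule.mem_bot]
    funext x
    have := congrFun hz (e.symm x)
    simpa using this
  | succ n =>
    obtain ⟨κ, hκ, g, h1, h2, h3⟩ := h
    refine ⟨κ, hκ, fun k x => g k (e.symm x), fun k x => h1 k _, ?_, ?_⟩
    · rw [← Fintype.range_linearCombination]
      rw [← Fintype.range_linearCombination] at h2
      ext z
      rw [hZ, ← h2]
      constructor
      · rintro ⟨v, rfl⟩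
        refine ⟨v, ?_⟩
        funext x
        rw [lc_apply, lc_apply]
        simp
      · rintro ⟨v, hv⟩
        refine ⟨v, ?_⟩
        funext x
        have := congrFun hv (e.symm x)
        rw [lc_apply] at this ⊢
        simpa using this
    · have : LinearMap.ker (Fintype.linearCombination (MvPolynomial σ K)
          (fun k x => g k (e.symm x))) =
          LinearMap.ker (Fintype.linearCombination (MvPolynomial σ K) g) := by
        ext v
        rw [LinearMap.mem_ker, LinearMap.mem_ker]
        constructor
        · intro h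
          funext x
          have := congrFun h (e x)
          rw [lc_apply] at this ⊢
          simpa using this
        · intro h
          funext x
          have := congrFun h (e.symm x)
          rw [lc_apply] at this ⊢
          simpa using this
      rw [this]
      exact h3

/-- put `b` in front of a sequence of ranks -/
def shiftB (b : ℕ) (β : ℕ → ℕ) : ℕ → ℕ
  | 0 => b
  | i + 1 => β i

/-- put a matrix in front of a sequence of matrices -/
def shiftA {R : Type*} {b : ℕ} {β : ℕ → ℕ} (A₀ : Matrix (Fin b) (Fin (β 0)) R)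
    (A : ∀ i, Matrix (Fin (β i)) (Fin (β (i + 1))) R) :
    ∀ i, Matrix (Fin (shiftB b β i)) (Fin (shiftB b β (i + 1))) R
  | 0 => A₀
  | i + 1 => A i

/-- extraction of the matrices -/
theorem LR_extract (n : ℕ) : ∀ (b : ℕ)
    (Z : Submodule (MvPolynomial σ K) (Fin b → MvPolynomial σ K)), LR K σ n 1 (Fin b) Z →
    ∃ (β : ℕ → ℕ) (_ : β 0 = b)
      (A : ∀ i, Matrix (Fin (β i)) (Fin (β (i + 1))) (MvPolynomial σ K)),
      (∀ i k l, (A i k l).IsHomogeneous 1) ∧
      (∀ v : Fin b → MvPolynomial σ K, v ∈ Z ↔
        ∃ w : Fin (β 1) → MvPolynomial σ K, ∀ k : Fin (β 0), ∀ k' : Fin b,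
          (k : ℕ) = k' → v k' = (A 0).mulVec w k) ∧
      (∀ i (v : Fin (β (i + 1)) → MvPolynomial σ K), (A i).mulVec v = 0 ↔
        ∃ w, v = (A (i + 1)).mulVec w) ∧
      (∀ i, n < i → β i = 0) := by
  induction n with
  | zero =>
    intro b Z h
    have h' : Z = ⊥ := h
    refine ⟨fun i => Nat.casesOn i b (fun _ => 0), rfl, fun i => 0, ?_, ?_, ?_, ?_⟩
    · intro i k l
      exact isHomogeneous_zero _ _ _
    · intro v
      rw [h', Submodule.mem_bot]
      constructor
      · intro hv
        refine ⟨0, ?_⟩
        intro k k' _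
        rw [hv]
        simp
      · rintro ⟨w, hw⟩
        funext k
        have := hw k k rfl
        rw [this]
        simp
    · intro i v
      constructor
      · intro _
        refine ⟨0, ?_⟩
        funext k
        exact k.elim0
      · intro _
        have : v = 0 := by
          funext k
          exact k.elim0
        rw [this, Matrix.mulVec_zero]
    · intro i hi
      cases i with
      | zero => exact absurd hi (lt_irrefl 0)
      | succ i => rfl
  | succ n ih =>
    intro b Z h
    obtain ⟨κ, hκ, g, h1, h2, h3⟩ := h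
    obtain ⟨c, ⟨e⟩⟩ : ∃ c, Nonempty (κ ≃ Fin c) := ⟨_, ⟨Fintype.equivFin κ⟩⟩
    have hlc : ∀ v : Fin c → MvPolynomial σ K,
        Fintype.linearCombination (MvPolynomial σ K) (fun k => g (e.symm k)) v =
        Fintype.linearCombination (MvPolynomial σ K) g (fun x => v (e x)) := by
      intro v
      funext y
      rw [lc_apply, lc_apply]
      exact Fintype.sum_equiv e.symm _ _ (fun x => by simp)
    have h3' : LR K σ n 1 (Fin c) (LinearMap.ker
        (Fintype.linearCombination (MvPolynomial σ K) (fun k => g (e.symm k)))) := by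
      refine LR_equiv n e ?_ h3
      intro z
      rw [LinearMap.mem_ker, LinearMap.mem_ker, hlc]
    have hmem : ∀ z, z ∈ Z ↔ ∃ v : Fin c → MvPolynomial σ K,
        Fintype.linearCombination (MvPolynomial σ K) (fun k => g (e.symm k)) v = z := by
      intro z
      rw [← h2, ← Fintype.range_linearCombination]
      constructor
      · rintro ⟨v, rfl⟩
        refine ⟨fun k => v (e.symm k), ?_⟩
        rw [hlc]
        simp
      · rintro ⟨v, rfl⟩
        exact ⟨_, (hlc v).symm⟩
    obtain ⟨β, hβ, A, c1, c2, c3, c4⟩ := ih _ _ h3'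
    subst hβ
    let A₀ : Matrix (Fin b) (Fin (β 0)) (MvPolynomial σ K) :=
      Matrix.of fun k l => g (e.symm l) k
    have hA₀ : ∀ w, A₀.mulVec w =
        Fintype.linearCombination (MvPolynomial σ K) (fun k => g (e.symm k)) w := by
      intro w
      funext k
      rw [lc_apply]
      unfold Matrix.mulVec dotProduct
      apply Finset.sum_congr rfl
      intro l _
      exact mul_comm _ _
    refine ⟨shiftB b β, rfl, shiftA A₀ A, ?_, ?_, ?_, ?_⟩
    · intro i k l
      cases i with
      | zero => exact h1 _ _
      | succ i => exact c1 i k l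
    · intro v
      rw [hmem]
      constructor
      · rintro ⟨w, hw⟩
        refine ⟨w, ?_⟩
        intro k k' hk
        have hk' : k = k' := Fin.ext hk
        subst hk'
        rw [← hw, ← hA₀]
        rfl
      · have key : ∀ w' : Fin (β 0) → MvPolynomial σ K,
            (∀ k : Fin b, v k = A₀.mulVec w' k) → ∃ w : Fin (β 0) → MvPolynomial σ K,
              Fintype.linearCombination (MvPolynomial σ K) (fun k => g (e.symm k)) w = v := by
          intro w' hw'
          refine ⟨w', ?_⟩
          funext k
          rw [← hA₀, hw' k]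
        rintro ⟨w, hw⟩
        exact key w (fun k => hw k k rfl)
    · intro i v
      cases i with
      | zero =>
        have h5 : ∀ v : Fin (β 0) → MvPolynomial σ K, A₀.mulVec v = 0 ↔
            ∃ w, v = (A 0).mulVec w := by
          intro v
          have h6 : A₀.mulVec v = 0 ↔ v ∈ LinearMap.ker
              (Fintype.linearCombination (MvPolynomial σ K) (fun k => g (e.symm k))) := by
            rw [hA₀]
            exact LinearMap.mem_ker.symm
          rw [h6, c2]
          constructor
          · rintro ⟨w, hw⟩
            exact ⟨w, funext (fun k => hw k k rfl)⟩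
          · rintro ⟨w, hw⟩
            refine ⟨w, ?_⟩
            intro k k' hk
            have hk' : k = k' := Fin.ext hk
            subst hk'
            rw [hw]
        exact h5 v
      | succ i => exact c3 i v
    · intro i hi
      cases i with
      | zero => exact absurd hi (Nat.not_lt_zero _)
      | succ i => exact c4 i (by omega)

end

end H48.Hk
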