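import Pool.Agent.H48.Hk.Fiber
import Pool.Agent.H48.Hk.LR

/-! Linear quotients for the ideals generated by the products of minors. -/

namespace H48.Hk

open MvPolynomial

/-- the ideal generated by the products -/
noncomputable def IW (K : Type*) [CommRing K] (M : ℕ) (β : List ℕ) (d : ℕ) :
    Ideal (MvPolynomial (Fin M) K) :=
  Ideal.span {p | IsProd K M β d p}

/-- the ideal of the first `k` variables -/
noncomputable def Ck (K : Type*) [CommRing K] (M k : ℕ) : Ideal (MvPolynomial (Fin M) K) :=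
  Ideal.span {x | ∃ i : Fin M, (i : ℕ) < k ∧ x = X i}

/-- ideals with linear quotients of the special kind -/
inductive LQ (K : Type*) [Field K] (M d : ℕ) : Ideal (MvPolynomial (Fin M) K) → Prop
  | bot : LQ K M d ⊥
  | add {I : Ideal (MvPolynomial (Fin M) K)} {g : MvPolynomial (Fin M) K} {k : ℕ} (hk : k ≤ M)
      (hI : LQ K M d I) (hg : g.IsHomogeneous d) (hc : ∀ s, s * g ∈ I ↔ s ∈ Ck K M k) :
      LQ K M d (I ⊔ Ideal.span {g})

section

variable {K : Type*} [CommRing K] {M : ℕ}

theorem homog_mn {A : Type*} [CommRing A] (M : ℕ) {k : ℕ} (J : Fin k → ℕ) :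
    (mnr A M J).IsHomogeneous k := by
  unfold mnr mn
  rw [Matrix.det_apply]
  apply IsHomogeneous.sum
  intro π _
  have h1 : (∏ i : Fin k, (Matrix.of fun i j : Fin k => ent A M (J j) i) (π i) i).IsHomogeneous
      (∑ _i : Fin k, 1) := by
    apply IsHomogeneous.prod
    intro i _
    exact homog_ent M _ _
  have h2 : ∑ _i : Fin k, 1 = k := by simp
  rw [h2] at h1
  rcases Int.units_eq_one_or (Equiv.Perm.sign π) with h | h
  · rw [h, one_smul]
    exact h1
  · rw [h, Units.neg_smul, one_smul]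
    exact h1.neg

theorem IsProd.homog {β : List ℕ} {d : ℕ} {p : MvPolynomial (Fin M) K}
    (h : IsProd K M β d p) : p.IsHomogeneous d := by
  induction h with
  | nil => exact isHomogeneous_one _ _
  | cons J hJ h ih => exact (homog_mn M J).mul ih

theorem homog_rho {A : Type*} [CommRing A] {f : MvPolynomial (Fin (M + 1)) A} {j : ℕ}
    (hf : f.IsHomogeneous j) : (rho A M f).IsHomogeneous j := by
  unfold rho
  have h := hf.aeval (fun i : Fin (M + 1) =>
    (Fin.cases 0 (fun j => X j) i : MvPolynomial (Fin M) A)) (n := 1) (by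
      intro i
      refine Fin.cases ?_ (fun i => ?_) i
      · exact isHomogeneous_zero _ _ _
      · exact isHomogeneous_X _ _)
  rwa [one_mul] at h

theorem IW_perm {β β' : List ℕ} (h : β.Perm β') (d : ℕ) : IW K M β d = IW K M β' d := by
  unfold IW
  congr 1
  ext p
  exact ⟨fun hp => hp.perm h, fun hp => hp.perm h.symm⟩

theorem IW_drop (β : List ℕ) (d : ℕ) : IW K M (0 :: β) d = IW K M β d := by
  unfold IW
  congr 1
  ext p
  exact IsProd.zero_cons

theorem rho_IW {β : List ℕ} {d : ℕ} {f : MvPolynomial (Fin (M + 1)) K}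
    (hf : f ∈ IW K (M + 1) β d) : rho K M f ∈ IW K M (β.map Nat.pred) d := by
  have h : IW K (M + 1) β d ≤ (IW K M (β.map Nat.pred) d).comap (rho K M) := by
    unfold IW
    rw [Ideal.span_le]
    intro p hp
    rw [SetLike.mem_coe, Ideal.mem_comap]
    rcases IsProd.rho hp with h | h
    · rw [h]
      exact Ideal.zero_mem _
    · exact Ideal.subset_span h
  exact h hf

theorem IW_lift {β : List ℕ} {d : ℕ} {f : MvPolynomial (Fin M) K}
    (hf : f ∈ IW K M (β.map Nat.pred) d) :
    ∃ g ∈ IW K (M + 1) β d, rho K M g = f := by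
  unfold IW at hf
  induction hf using Submodule.span_induction with
  | mem x hx =>
    obtain ⟨q, hq, hq'⟩ := IsProd.lift hx
    exact ⟨q, Ideal.subset_span hq, hq'⟩
  | zero => exact ⟨0, Ideal.zero_mem _, map_zero _⟩
  | add x y _ _ hx hy =>
    obtain ⟨g1, h1, h1'⟩ := hx
    obtain ⟨g2, h2, h2'⟩ := hy
    exact ⟨g1 + g2, Ideal.add_mem _ h1 h2, by rw [map_add, h1', h2']⟩
  | smul c x _ hx =>
    obtain ⟨g1, h1, h1'⟩ := hx
    refine ⟨rename Fin.succ c * g1, Ideal.mul_mem_left _ _ h1, ?_⟩
    rw [map_mul, h1', rho_rename, smul_eq_mul]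

attribute [local instance] MvPolynomial.gradedAlgebra in
theorem homogComp_mem {β : List ℕ} {d : ℕ} {f : MvPolynomial (Fin M) K}
    (hf : f ∈ IW K M β d) (j : ℕ) : homogeneousComponent j f ∈ IW K M β d := by
  classical
  have h : (IW K M β d).IsHomogeneous (homogeneousSubmodule (Fin M) K) := by
    apply Ideal.homogeneous_span
    intro p hp
    exact ⟨d, hp.homog⟩
  exact homogeneousComponent_mem_of_mem h hf j

theorem rho_homogComp (f : MvPolynomial (Fin (M + 1)) K) (j : ℕ) :
    rho K M (homogeneousComponent j f) = homogeneousComponent j (rho K M f) := by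
  classical
  have hv : f = ∑ i ∈ Finset.range (max (f.totalDegree + 1) (j + 1)),
      homogeneousComponent i f := by
    conv_lhs => rw [← sum_homogeneousComponent f]
    apply Finset.sum_subset
    · intro i hi
      rw [Finset.mem_range] at hi ⊢
      exact lt_of_lt_of_le hi (le_max_left _ _)
    · intro i _ hi
      rw [Finset.mem_range, not_lt] at hi
      exact homogeneousComponent_eq_zero _ _ (by omega)
  conv_rhs => rw [hv]
  rw [map_sum, map_sum, Finset.sum_eq_single j]
  · have h1 := homog_rho (homogeneousComponent_isHomogeneous j f)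
    rw [homogeneousComponent_of_mem (m := j) (n := j)
      ((mem_homogeneousSubmodule _ _).mpr h1), if_pos rfl]
  · intro i _ hi
    have h1 := homog_rho (homogeneousComponent_isHomogeneous i f)
    rw [homogeneousComponent_of_mem (m := j) (n := i)
      ((mem_homogeneousSubmodule _ _).mpr h1), if_neg (fun h => hi h.symm)]
  · intro h1
    rw [Finset.mem_range, not_lt] at h1
    have := le_max_right (f.totalDegree + 1) (j + 1)
    omega

theorem rho_mem_Ck {k : ℕ} {s : MvPolynomial (Fin (M + 1)) K} :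
    rho K M s ∈ Ck K M k ↔ s ∈ Ck K (M + 1) (k + 1) := by
  constructor
  · intro h
    obtain ⟨g, hg⟩ := sub_rename_rho s
    have h1 : s = rename Fin.succ (rho K M s) + X 0 * g := by
      rw [← hg]
      ring
    rw [h1]
    apply Ideal.add_mem
    · have h2 : Ck K M k ≤ (Ck K (M + 1) (k + 1)).comap
          (rename Fin.succ : MvPolynomial (Fin M) K →ₐ[K] _) := by
        unfold Ck
        rw [Ideal.span_le]
        rintro x ⟨i, hi, rfl⟩
        rw [SetLike.mem_coe, Ideal.mem_comap, rename_X]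
        apply Ideal.subset_span
        exact ⟨i.succ, by rw [Fin.val_succ]; omega, rfl⟩
      exact h2 h
    · apply Ideal.mul_mem_right
      apply Ideal.subset_span
      exact ⟨0, by rw [Fin.val_zero]; omega, rfl⟩
  · intro h
    have h2 : Ck K (M + 1) (k + 1) ≤ (Ck K M k).comap (rho K M) := by
      unfold Ck
      rw [Ideal.span_le]
      rintro x ⟨i, hi, rfl⟩
      rw [SetLike.mem_coe, Ideal.mem_comap]
      revert hi
      refine Fin.cases ?_ (fun i => ?_) i
      · intro _
        rw [rho_X_zero]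
        exact Ideal.zero_mem _
      · intro hi
        rw [Fin.val_succ] at hi
        rw [rho_X_succ]
        apply Ideal.subset_span
        exact ⟨i, by omega, rfl⟩
    exact h2 h

end

section

variable {K : Type*} [Field K]

theorem LQ.mulX {M d : ℕ} {I : Ideal (MvPolynomial (Fin (M + 1)) K)}
    (h : LQ K (M + 1) d I) : LQ K (M + 1) (d + 1) (Ideal.span {X 0} * I) := by
  induction h with
  | bot =>
    rw [Ideal.mul_bot]
    exact LQ.bot
  | @add I g k hk hI hg hc ih =>
    rw [Ideal.mul_sup, Ideal.span_singleton_mul_span_singleton]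
    refine LQ.add hk ih ?_ ?_
    · have := (isHomogeneous_X K (0 : Fin (M + 1))).mul hg
      rwa [add_comm 1 d] at this
    · intro s
      rw [← hc, Ideal.mem_span_singleton_mul]
      constructor
      · rintro ⟨z, hz, hz'⟩
        have : X 0 * z = X 0 * (s * g) := by
          rw [hz']
          ring
        rw [← mul_left_cancel₀ (X_ne_zero 0) this]
        exact hz
      · intro h
        exact ⟨s * g, h, by ring⟩

theorem mem_IW_of_CW {M : ℕ} {β : List ℕ} {d : ℕ} {H : Py K M} (hH : H ∈ CW (V K M β d)) :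
    eval (fun j : Fin M => (X j : MvPolynomial (Fin M) K)) H ∈ IW K M β d := by
  rw [eval_eq]
  apply Ideal.sum_mem
  intro γ _
  apply Ideal.mul_mem_right
  have h1 : ∀ q ∈ V K M β d, q ∈ IW K M β d := by
    intro q hq
    unfold V at hq
    induction hq using Submodule.span_induction with
    | mem x hx => exact Ideal.subset_span hx
    | zero => exact Ideal.zero_mem _
    | add x y _ _ hx hy => exact Ideal.add_mem _ hx hy
    | smul c x _ hx =>
      rw [MvPolynomial.smul_eq_C_mul]
      exact Ideal.mul_mem_left _ _ hx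
  exact h1 _ (hH γ)

theorem exists_CW {M : ℕ} {β : List ℕ} {d : ℕ} {f : MvPolynomial (Fin M) K}
    (hf : f ∈ IW K M β d) : ∃ H ∈ CW (V K M β d),
      eval (fun j : Fin M => (X j : MvPolynomial (Fin M) K)) H = f := by
  unfold IW at hf
  induction hf using Submodule.span_induction with
  | mem x hx => exact ⟨C x, C_mem_CW (Submodule.subset_span hx), eval_C _⟩
  | zero => exact ⟨0, Submodule.zero_mem _, map_zero _⟩
  | add x y _ _ hx hy =>
    obtain ⟨g1, h1, h1'⟩ := hx
    obtain ⟨g2, h2, h2'⟩ := hy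
    exact ⟨g1 + g2, Submodule.add_mem _ h1 h2, by rw [map_add, h1', h2']⟩
  | smul c x _ hx =>
    obtain ⟨g1, h1, h1'⟩ := hx
    refine ⟨iota K M c * g1, iota_mul_CW h1 c, ?_⟩
    rw [map_mul, h1', eval_iota, smul_eq_mul]

theorem X_mul_IW {M N : ℕ} {β : List ℕ} {d : ℕ} {f : MvPolynomial (Fin (M + 1)) K}
    (hf : f ∈ IW K (M + 1) (N :: β) d) : X 0 * f ∈ IW K (M + 1) ((N + 1) :: β) (d + 1) := by
  unfold IW at hf
  induction hf using Submodule.span_induction with
  | mem x hx =>
    have := IsProd.ev_mul hx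
    rw [ev_zero_eq] at this
    exact Ideal.subset_span this
  | zero => rw [mul_zero]; exact Ideal.zero_mem _
  | add x y _ _ hx hy => rw [mul_add]; exact Ideal.add_mem _ hx hy
  | smul c x _ hx =>
    rw [smul_eq_mul, mul_left_comm]
    exact Ideal.mul_mem_left _ _ hx

variable [CharZero K]

theorem exactI {M N : ℕ} {β : List ℕ} {d : ℕ} (h1 : ∀ N' ∈ β, N + 1 ≤ N')
    (h2 : ∀ N' ∈ β, N' ≤ M + 1) (hN : N ≤ M) {f : MvPolynomial (Fin (M + 1)) K}
    (hf : f ∈ IW K (M + 1) ((N + 1) :: β) (d + 1)) (hr : rho K M f = 0) :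
    ∃ g ∈ IW K (M + 1) (N :: β) d, f = X 0 * g := by
  obtain ⟨H, hH, hHf⟩ := exists_CW hf
  have hβ : ∀ N' ∈ ((N + 1) :: β).map Nat.pred, N' ≤ M := by
    intro N' h'
    simp only [List.mem_map] at h'
    obtain ⟨N'', h'', rfl⟩ := h'
    have h3 : Nat.pred N'' = N'' - 1 := rfl
    rcases List.mem_cons.mp h'' with rfl | h4
    · omega
    · have := h2 _ h4
      omega
  have h3 : restY K M H ∈ Mrel K M (((N + 1) :: β).map Nat.pred) (d + 1) := by
    apply pres _ _ _ hβ
    · intro γ
      rw [coeff_restY, ← map_rho_V]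
      exact Submodule.mem_map_of_mem (hH _)
    · rw [eval_restY, hHf, hr]
  obtain ⟨H', hH', h4⟩ := descend h1 h2 hN hH h3
  refine ⟨_, mem_IW_of_CW hH', ?_⟩
  have h5 := eval_Mrel h4
  rw [map_sub, hHf, map_mul, eval_C, sub_eq_zero] at h5
  exact h5

theorem sharp_bot {M N : ℕ} {β : List ℕ} {d : ℕ} (h1 : ∀ N' ∈ β, N + 1 ≤ N')
    (h2 : ∀ N' ∈ β, N' ≤ M + 1) (hN : N ≤ M) :
    IW K (M + 1) ((N + 1) :: β) (d + 1) ⊓ (⊥ : Ideal _).comap (rho K M) =
      Ideal.span {X 0} * IW K (M + 1) (N :: β) d := by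
  ext f
  rw [Ideal.mem_inf, Ideal.mem_comap, Ideal.mem_bot, Ideal.mem_span_singleton_mul]
  constructor
  · rintro ⟨hf, hr⟩
    obtain ⟨g, hg, hg'⟩ := exactI h1 h2 hN hf hr
    exact ⟨g, hg, hg'.symm⟩
  · rintro ⟨g, hg, rfl⟩
    refine ⟨X_mul_IW hg, ?_⟩
    rw [map_mul, rho_X_zero, zero_mul]

theorem LQ_sharp {M N : ℕ} {β : List ℕ} {d : ℕ} (h1 : ∀ N' ∈ β, N + 1 ≤ N')
    (h2 : ∀ N' ∈ β, N' ≤ M + 1) (hN : N ≤ M) (hbase : LQ K (M + 1) d (IW K (M + 1) (N :: β) d))
    {I : Ideal (MvPolynomial (Fin M) K)} (hI : LQ K M (d + 1) I) :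
    I ≤ IW K M (((N + 1) :: β).map Nat.pred) (d + 1) →
    LQ K (M + 1) (d + 1) (IW K (M + 1) ((N + 1) :: β) (d + 1) ⊓ I.comap (rho K M)) := by
  induction hI with
  | bot =>
    intro _
    rw [sharp_bot h1 h2 hN]
    exact hbase.mulX
  | @add I g' k hk hI hg hc ih =>
    intro hle
    have hg' : g' ∈ IW K M (((N + 1) :: β).map Nat.pred) (d + 1) :=
      hle (Ideal.mem_sup_right (Ideal.subset_span rfl))
    obtain ⟨f, hf, hf'⟩ := IW_lift hg'
    -- the homogeneous lift
    have hgm : homogeneousComponent (d + 1) f ∈ IW K (M + 1) ((N + 1) :: β) (d + 1) :=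
      homogComp_mem hf _
    have hgr : rho K M (homogeneousComponent (d + 1) f) = g' := by
      rw [rho_homogComp, hf', homogeneousComponent_of_mem (m := d + 1) (n := d + 1)
        ((mem_homogeneousSubmodule _ _).mpr hg), if_pos rfl]
    have hgh := homogeneousComponent_isHomogeneous (d + 1) f
    generalize homogeneousComponent (d + 1) f = g at hgm hgr hgh
    have e : IW K (M + 1) ((N + 1) :: β) (d + 1) ⊓ (I ⊔ Ideal.span {g'}).comap (rho K M) =
        (IW K (M + 1) ((N + 1) :: β) (d + 1) ⊓ I.comap (rho K M)) ⊔ Ideal.span {g} := by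
      apply le_antisymm
      · rintro x ⟨hx, hx'⟩
        rw [SetLike.mem_coe, Ideal.mem_comap, Submodule.mem_sup] at hx'
        obtain ⟨i, hi, y, hy, hiy⟩ := hx'
        obtain ⟨s, hs⟩ := Ideal.mem_span_singleton'.mp hy
        rw [Submodule.mem_sup]
        refine ⟨x - rename Fin.succ s * g, ⟨?_, ?_⟩, rename Fin.succ s * g, ?_, ?_⟩
        · exact Ideal.sub_mem _ hx (Ideal.mul_mem_left _ _ hgm)
        · rw [SetLike.mem_coe, Ideal.mem_comap, map_sub, map_mul, rho_rename, hgr, hs, ← hiy,
            add_sub_cancel_right]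
          exact hi
        · exact Ideal.mul_mem_left _ _ (Ideal.subset_span rfl)
        · rw [sub_add_cancel]
      · apply sup_le
        · apply inf_le_inf_left
          exact Ideal.comap_mono le_sup_left
        · rw [Ideal.span_singleton_le_iff_mem]
          refine ⟨hgm, ?_⟩
          rw [SetLike.mem_coe, Ideal.mem_comap, hgr]
          exact Ideal.mem_sup_right (Ideal.subset_span rfl)
    rw [e]
    refine LQ.add (k := k + 1) (by omega) (ih (le_sup_left.trans hle)) hgh ?_
    intro s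
    rw [Ideal.mem_inf, Ideal.mem_comap, map_mul, hgr, hc, rho_mem_Ck]
    constructor
    · exact fun h => h.2
    · exact fun h => ⟨Ideal.mul_mem_left _ _ hgm, h⟩

theorem LQ_IW : ∀ (M : ℕ) (β : List ℕ) (d : ℕ), (∀ N ∈ β, N ≤ M) →
    LQ K M d (IW K M β d) := by
  apply win_induction
  · intro M β β' d h hP
    rw [← IW_perm h]
    exact hP
  · intro M β
    have e : IW K M β 0 = ⊥ ⊔ Ideal.span {1} := by
      rw [bot_sup_eq]
      unfold IW
      congr 1
      ext p
      constructor
      · intro hp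
        exact hp.eq_one
      · intro hp
        rw [Set.mem_singleton_iff] at hp
        subst hp
        exact IsProd.zero_deg
    rw [e]
    refine LQ.add (k := 0) (Nat.zero_le _) LQ.bot (isHomogeneous_one _ _) ?_
    intro s
    have : Ck K M 0 = ⊥ := by
      unfold Ck
      rw [Ideal.span_eq_bot]
      rintro x ⟨i, hi, _⟩
      exact absurd hi (Nat.not_lt_zero _)
    rw [this, mul_one]
  · intro M d
    have e : IW K M [] (d + 1) = ⊥ := by
      unfold IW
      rw [Ideal.span_eq_bot]
      intro p hp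
      exact absurd (IsProd.nil_pos hp) (Nat.succ_ne_zero d)
    rw [e]
    exact LQ.bot
  · intro M β d hP
    rw [IW_drop]
    exact hP
  · intro M N β d h1 h2 hN ih1 ih2
    have h3 := LQ_sharp h1 h2 hN ih2 ih1 le_rfl
    have e : IW K (M + 1) ((N + 1) :: β) (d + 1) ⊓
        (IW K M (((N + 1) :: β).map Nat.pred) (d + 1)).comap (rho K M) =
        IW K (M + 1) ((N + 1) :: β) (d + 1) := by
      apply inf_eq_left.mpr
      intro f hf
      rw [Ideal.mem_comap]
      exact rho_IW hf
    rw [e] at h3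
    exact h3

end

section

variable {K : Type*} [Field K] {M : ℕ}

theorem Ck_succ {k : ℕ} (hk : k < M) :
    Ck K M (k + 1) = Ck K M k ⊔ Ideal.span {X ⟨k, hk⟩} := by
  apply le_antisymm
  · unfold Ck
    rw [Ideal.span_le]
    rintro x ⟨i, hi, rfl⟩
    rcases Nat.lt_or_ge i k with h | h
    · exact Ideal.mem_sup_left (Ideal.subset_span ⟨i, h, rfl⟩)
    · have : i = ⟨k, hk⟩ := by
        apply Fin.ext
        change (i : ℕ) = k
        omega
      rw [this]
      exact Ideal.mem_sup_right (Ideal.subset_span rfl)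
  · apply sup_le
    · unfold Ck
      apply Ideal.span_mono
      rintro x ⟨i, hi, rfl⟩
      exact ⟨i, by omega, rfl⟩
    · rw [Ideal.span_singleton_le_iff_mem]
      apply Ideal.subset_span
      exact ⟨⟨k, hk⟩, Nat.lt_succ_self k, rfl⟩

theorem Ck_colon {k : ℕ} (hk : k < M) (s : MvPolynomial (Fin M) K) :
    s * X ⟨k, hk⟩ ∈ Ck K M k ↔ s ∈ Ck K M k := by
  have hset : {x : MvPolynomial (Fin M) K | ∃ i : Fin M, (i : ℕ) < k ∧ x = X i} =
      X '' {i : Fin M | (i : ℕ) < k} := by
    ext x
    constructor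
    · rintro ⟨i, hi, rfl⟩
      exact ⟨i, hi, rfl⟩
    · rintro ⟨i, hi, rfl⟩
      exact ⟨i, hi, rfl⟩
  unfold Ck
  rw [hset, mem_ideal_span_X_image, mem_ideal_span_X_image]
  constructor
  · intro h m hm
    have h1 : m + Finsupp.single (⟨k, hk⟩ : Fin M) 1 ∈ (s * X (⟨k, hk⟩ : Fin M)).support := by
      rw [mem_support_iff, coeff_mul_X]
      exact mem_support_iff.mp hm
    obtain ⟨i, hi, hi'⟩ := h _ h1
    refine ⟨i, hi, ?_⟩
    intro h0
    apply hi'
    rw [Finsupp.add_apply, h0, Finsupp.single_eq_of_ne, add_zero]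
    intro h2
    have hi2 : (i : ℕ) < k := hi
    rw [h2] at hi2
    exact lt_irrefl k hi2
  · intro h m hm
    rw [support_mul_X, Finset.mem_map] at hm
    obtain ⟨m', hm', rfl⟩ := hm
    obtain ⟨i, hi, hi'⟩ := h _ hm'
    refine ⟨i, hi, ?_⟩
    simp only [addRightEmbedding_apply, Finsupp.add_apply]
    omega

theorem LR_Ck : ∀ k : ℕ, k ≤ M → LR K (Fin M) k 1 Unit (QI (Ck K M k)) := by
  intro k
  induction k with
  | zero =>
    intro _
    change QI (Ck K M 0) = ⊥
    rw [eq_bot_iff]
    intro v hv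
    rw [mem_QI] at hv
    have : Ck K M 0 = ⊥ := by
      unfold Ck
      rw [Ideal.span_eq_bot]
      rintro x ⟨i, hi, _⟩
      exact absurd hi (Nat.not_lt_zero _)
    rw [this, Ideal.mem_bot] at hv
    rw [Submodule.mem_bot]
    funext x
    exact hv
  | succ k ih =>
    intro hk
    rw [Ck_succ (Nat.lt_of_succ_le hk)]
    exact LR_add (LR_mono_succ _ _ _ _ (ih (by omega))) (isHomogeneous_X _ _)
      (Ck_colon (Nat.lt_of_succ_le hk)) (ih (by omega))

theorem LQ.toLR {d : ℕ} {I : Ideal (MvPolynomial (Fin M) K)} (h : LQ K M d I) :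
    LR K (Fin M) (M + 1) d Unit (QI I) := by
  induction h with
  | bot =>
    refine LR_mono (Nat.zero_le _) ?_
    change QI ⊥ = ⊥
    rw [eq_bot_iff]
    intro v hv
    rw [mem_QI, Ideal.mem_bot] at hv
    rw [Submodule.mem_bot]
    funext x
    exact hv
  | @add I g k hk hI hg hc ih =>
    exact LR_add ih hg hc (LR_mono hk (LR_Ck k hk))

end

end H48.Hk
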