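import Pool.Agent.H48.Hk.LQ

/-! The powers of the ideal of maximal minors, in the coordinates `e`. -/

namespace H48.Hk

open MvPolynomial

section

variable {K : Type*} [Field K] [CharZero K] {n : ℕ}

/-- the ideal of maximal minors -/
noncomputable def Im (K : Type*) [Field K] (n : ℕ) : Ideal (MvPolynomial (Fin (n + 2)) K) :=
  Ideal.span (Set.range (Dm K n))

omit [CharZero K] in
theorem prodK_mem {b : ℕ} : ∀ {p : MvPolynomial (Fin (n + 2)) K},
    ProdK K (n + 2) (n + 2) (List.replicate b n) p → p ∈ Im K n ^ b := by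
  induction b with
  | zero =>
    intro p _
    rw [pow_zero, Ideal.one_eq_top]
    exact Submodule.mem_top
  | succ b ih =>
    intro p h
    rw [List.replicate_succ] at h
    cases h with
    | @cons _ _ p' J hJ h' =>
      rw [pow_succ']
      apply Ideal.mul_mem_mul _ (ih h')
      obtain ⟨c, f, h⟩ := exists_choice (K := K) J hJ
      rw [h]
      exact Ideal.mul_mem_left _ _ (Ideal.subset_span ⟨f, rfl⟩)

omit [CharZero K] in
theorem pow_le_IW (b : ℕ) :
    Im K n ^ b ≤ IW K (n + 2) (List.replicate b (n + 2)) (n * b) := by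
  induction b with
  | zero =>
    intro p _
    rw [List.replicate_zero, mul_zero]
    have h1 : (1 : MvPolynomial (Fin (n + 2)) K) ∈ IW K (n + 2) [] 0 :=
      Ideal.subset_span IsProd.nil
    have := Ideal.mul_mem_left _ p h1
    rwa [mul_one] at this
  | succ b ih =>
    rw [pow_succ']
    refine (Ideal.mul_mono_right ih).trans ?_
    unfold Im IW
    rw [Ideal.span_mul_span', Ideal.span_le]
    rintro _ ⟨_, ⟨f, rfl⟩, p, hp, rfl⟩
    apply Ideal.subset_span
    have := IsProd.cons (N := n + 2) (fun j => n + 1 - (f j : ℕ)) (fun j => by omega) hp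
    rw [List.replicate_succ]
    have e : n + n * b = n * (b + 1) := by ring
    rw [e] at this
    exact this

theorem IW_eq_pow (b : ℕ) : IW K (n + 2) (List.replicate b (n + 2)) (n * b) = Im K n ^ b := by
  apply le_antisymm
  · unfold IW
    rw [Ideal.span_le]
    intro p hp
    have h1 : p ∈ V K (n + 2) (List.replicate b (n + 2)) (n * b) := Submodule.subset_span hp
    have h2 := V_le_Wp (K := K) (M := n + 2) (N := n + 2) n b h1
    unfold Wp at h2
    rw [SetLike.mem_coe]
    clear hp h1
    induction h2 using Submodule.span_induction with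
    | mem x hx => exact prodK_mem hx
    | zero => exact Ideal.zero_mem _
    | add x y _ _ hx hy => exact Ideal.add_mem _ hx hy
    | smul c x _ hx =>
      rw [MvPolynomial.smul_eq_C_mul]
      exact Ideal.mul_mem_left _ _ hx
  · exact pow_le_IW b

theorem LR_pow (b : ℕ) : LR K (Fin (n + 2)) (n + 3) (n * b) Unit (QI (Im K n ^ b)) := by
  rw [← IW_eq_pow]
  apply LQ.toLR
  apply LQ_IW
  intro N hN
  rw [List.eq_of_mem_replicate hN]

end

end H48.Hk
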