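import Pool.Agent.H48.Hk.Exact

/-! The linear relations between the products: every relation is a combination of the
determinantal ones. -/

namespace H48.Hk

open MvPolynomial

/-- polynomials in outer variables `y` over the polynomial ring in the `e` -/
abbrev Py (K : Type*) [CommRing K] (M : ℕ) : Type _ :=
  MvPolynomial (Fin M) (MvPolynomial (Fin M) K)

/-- the determinantal relation: first row `y_{j-a}`, then the rows `e_{j-i}`, `i < k`. -/
noncomputable def rel (K : Type*) [CommRing K] (M a : ℕ) {k : ℕ} (J : Fin (k + 1) → ℕ) :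
    Py K M :=
  mn (Fin.cons (fun j => ent (MvPolynomial (Fin M) K) M j a)
    (fun (i : Fin k) (j : ℕ) => (C (ent K M j i) : Py K M)) : Fin (k + 1) → ℕ → Py K M) J

/-- products of one relation and minors -/
inductive IsRel (K : Type*) [CommRing K] (M : ℕ) : List ℕ → ℕ → Py K M → Prop
  | head {N k d : ℕ} {β : List ℕ} {p : MvPolynomial (Fin M) K} (a : ℕ) (ha : a < k)
      (J : Fin (k + 1) → ℕ) (hJ : ∀ j, J j < N) (h : IsProd K M β d p) :
      IsRel K M (N :: β) (k + d) (rel K M a J * C p)
  | tail {N k d : ℕ} {β : List ℕ} {H : Py K M} (J : Fin k → ℕ) (hJ : ∀ j, J j < N)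
      (h : IsRel K M β d H) : IsRel K M (N :: β) (k + d) (C (mnr K M J) * H)

/-- the span of the relations times monomials in `y` -/
noncomputable def Mrel (K : Type*) [CommRing K] (M : ℕ) (β : List ℕ) (d : ℕ) :
    Submodule K (Py K M) :=
  Submodule.span K {z | ∃ (γ : Fin M →₀ ℕ) (H : Py K M), IsRel K M β d H ∧
    z = monomial γ 1 * H}

/-- polynomials in `y` with coefficients in `W` -/
noncomputable def CW {K : Type*} [CommRing K] {M : ℕ} (W : Submodule K (MvPolynomial (Fin M) K)) :
    Submodule K (Py K M) where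
  carrier := {H | ∀ γ, coeff γ H ∈ W}
  add_mem' := by
    intro a b ha hb γ
    rw [coeff_add]
    exact W.add_mem (ha γ) (hb γ)
  zero_mem' := by
    intro γ
    rw [coeff_zero]
    exact W.zero_mem
  smul_mem' := by
    intro c x hx γ
    rw [coeff_smul]
    exact W.smul_mem c (hx γ)

section

variable {K : Type*} [CommRing K] {M : ℕ}

theorem mem_CW {W : Submodule K (MvPolynomial (Fin M) K)} {H : Py K M} :
    H ∈ CW W ↔ ∀ γ, coeff γ H ∈ W := Iff.rfl

theorem C_mem_CW {W : Submodule K (MvPolynomial (Fin M) K)} {q : MvPolynomial (Fin M) K}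
    (hq : q ∈ W) : (C q : Py K M) ∈ CW W := by
  intro γ
  rw [coeff_C]
  split_ifs
  · exact hq
  · exact W.zero_mem

theorem monomial_mul_CW {W : Submodule K (MvPolynomial (Fin M) K)} {H : Py K M}
    (hH : H ∈ CW W) (γ : Fin M →₀ ℕ) : monomial γ 1 * H ∈ CW W := by
  intro m
  rw [coeff_monomial_mul']
  split_ifs
  · rw [one_mul]; exact hH _
  · exact W.zero_mem

theorem X_mul_CW {W : Submodule K (MvPolynomial (Fin M) K)} {H : Py K M}
    (hH : H ∈ CW W) (i : Fin M) : X i * H ∈ CW W := monomial_mul_CW hH _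

theorem ent_mul_CW {W : Submodule K (MvPolynomial (Fin M) K)} {H : Py K M}
    (hH : H ∈ CW W) (j a : ℕ) : ent (MvPolynomial (Fin M) K) M j a * H ∈ CW W := by
  unfold ent ev
  split_ifs
  · exact X_mul_CW hH _
  · rw [zero_mul]; exact Submodule.zero_mem _
  · rw [zero_mul]; exact Submodule.zero_mem _

theorem Mrel_monomial_mul {β : List ℕ} {d : ℕ} {H : Py K M} (hH : H ∈ Mrel K M β d)
    (γ : Fin M →₀ ℕ) : monomial γ 1 * H ∈ Mrel K M β d := by
  unfold Mrel at hH ⊢
  induction hH using Submodule.span_induction with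
  | mem x hx =>
    obtain ⟨γ', H', hH', rfl⟩ := hx
    apply Submodule.subset_span
    refine ⟨γ + γ', H', hH', ?_⟩
    rw [← mul_assoc, monomial_mul, one_mul]
  | zero => rw [mul_zero]; exact Submodule.zero_mem _
  | add x y _ _ hx hy => rw [mul_add]; exact Submodule.add_mem _ hx hy
  | smul c x _ hx => rw [mul_smul_comm]; exact Submodule.smul_mem _ _ hx

theorem Mrel_X_mul {β : List ℕ} {d : ℕ} {H : Py K M} (hH : H ∈ Mrel K M β d)
    (i : Fin M) : X i * H ∈ Mrel K M β d := Mrel_monomial_mul hH _

theorem IsRel.mem {β : List ℕ} {d : ℕ} {H : Py K M} (h : IsRel K M β d H) :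
    H ∈ Mrel K M β d := by
  apply Submodule.subset_span
  refine ⟨0, H, h, ?_⟩
  change H = 1 * H
  rw [one_mul]

theorem map_ent {A B : Type*} [CommRing A] [CommRing B] (φ : A →+* B) (M c i : ℕ) :
    map φ (ent A M c i) = ent B M c i := by
  unfold ent
  split_ifs
  · exact map_ev φ M _
  · exact map_zero _

theorem eval_ent (M c i : ℕ) :
    eval (fun j : Fin M => (X j : MvPolynomial (Fin M) K))
      (ent (MvPolynomial (Fin M) K) M c i) = ent K M c i := by
  unfold ent ev
  split_ifs
  · simp
  · exact map_zero _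
  · exact map_zero _

theorem rel_eq_sum (a : ℕ) {k : ℕ} (J : Fin (k + 1) → ℕ) :
    rel K M a J = ∑ c : Fin (k + 1), (-1) ^ (c : ℕ) *
      ent (MvPolynomial (Fin M) K) M (J c) a *
        C (mnr K M (fun j => J (c.succAbove j))) := by
  unfold rel
  rw [mn_row]
  apply Finset.sum_congr rfl
  intro c _
  congr 1
  unfold mnr
  rw [mn_map]

theorem eval_rel {a k : ℕ} (ha : a < k) (J : Fin (k + 1) → ℕ) :
    eval (fun j : Fin M => (X j : MvPolynomial (Fin M) K)) (rel K M a J) = 0 := by
  unfold rel
  rw [mn_map]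
  unfold mn
  apply Matrix.det_zero_of_row_eq (i := 0) (j := (⟨a, ha⟩ : Fin k).succ)
  · exact (Fin.succ_ne_zero _).symm
  · funext j
    simp only [Matrix.of_apply, Fin.cons_zero, Fin.cons_succ, eval_C]
    rw [eval_ent]

theorem IsRel.eval_eq_zero {β : List ℕ} {d : ℕ} {H : Py K M} (h : IsRel K M β d H) :
    eval (fun j : Fin M => (X j : MvPolynomial (Fin M) K)) H = 0 := by
  induction h with
  | head a ha J hJ h => rw [map_mul, eval_rel ha, zero_mul]
  | tail J hJ h ih => rw [map_mul, ih, mul_zero]

theorem eval_Mrel {β : List ℕ} {d : ℕ} {H : Py K M} (h : H ∈ Mrel K M β d) :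
    eval (fun j : Fin M => (X j : MvPolynomial (Fin M) K)) H = 0 := by
  unfold Mrel at h
  induction h using Submodule.span_induction with
  | mem x hx =>
    obtain ⟨γ', H', hH', rfl⟩ := hx
    rw [map_mul, hH'.eval_eq_zero, mul_zero]
  | zero => exact map_zero _
  | add x y _ _ hx hy => rw [map_add, hx, hy, add_zero]
  | smul c x _ hx =>
    rw [← algebraMap_smul (MvPolynomial (Fin M) K) c x, smul_eval, hx, mul_zero]

theorem V_mul_mnr {N k d : ℕ} {β : List ℕ} (J : Fin k → ℕ) (hJ : ∀ j, J j < N)
    {p : MvPolynomial (Fin M) K} (hp : p ∈ V K M β d) :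
    mnr K M J * p ∈ V K M (N :: β) (k + d) := by
  unfold V at hp ⊢
  induction hp using Submodule.span_induction with
  | mem x hx => exact Submodule.subset_span (IsProd.cons J hJ hx)
  | zero => rw [mul_zero]; exact Submodule.zero_mem _
  | add x y _ _ hx hy => rw [mul_add]; exact Submodule.add_mem _ hx hy
  | smul c x _ hx => rw [mul_smul_comm]; exact Submodule.smul_mem _ _ hx

theorem IsRel.mem_CW {β : List ℕ} {d : ℕ} {H : Py K M} (h : IsRel K M β d H) :
    H ∈ CW (V K M β d) := by
  induction h with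
  | @head N k d β p a ha J hJ h =>
    rw [rel_eq_sum, Finset.sum_mul]
    apply Submodule.sum_mem
    intro c _
    have h1 : (-1 : Py K M) ^ (c : ℕ) * ent (MvPolynomial (Fin M) K) M (J c) a *
        C (mnr K M (fun j => J (c.succAbove j))) * C p =
        ent (MvPolynomial (Fin M) K) M (J c) a *
          C ((-1 : K) ^ (c : ℕ) • (mnr K M (fun j => J (c.succAbove j)) * p)) := by
      rw [MvPolynomial.smul_eq_C_mul, C_mul, C_mul, map_pow, map_pow, map_neg, map_neg, C_1, C_1]
      ring
    rw [h1]
    apply ent_mul_CW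
    apply C_mem_CW
    apply Submodule.smul_mem
    exact Submodule.subset_span (IsProd.cons _ (fun j => hJ _) h)
  | @tail N k d β H J hJ h ih =>
    intro γ
    rw [coeff_C_mul]
    exact V_mul_mnr J hJ (ih γ)

theorem Mrel_le_CW (β : List ℕ) (d : ℕ) : Mrel K M β d ≤ CW (V K M β d) := by
  unfold Mrel
  rw [Submodule.span_le]
  rintro _ ⟨γ, H, hH, rfl⟩
  exact monomial_mul_CW hH.mem_CW γ

theorem IsRel.perm {β β' : List ℕ} (h : β.Perm β') :
    ∀ {d : ℕ} {p : Py K M}, IsRel K M β d p → IsRel K M β' d p := by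
  induction h with
  | nil => intro d p hp; exact hp
  | cons x hl ih =>
    intro d p hp
    cases hp with
    | head a ha J hJ h' => exact IsRel.head a ha J hJ (h'.perm hl)
    | tail J hJ h' => exact IsRel.tail J hJ (ih h')
  | swap x y l =>
    intro d p hp
    cases hp with
    | @head _ k _ _ _ a ha J hJ h' =>
      cases h' with
      | @cons _ k' d' _ p' J' hJ' h'' =>
        have := IsRel.tail J' hJ' (IsRel.head a ha J hJ h'')
        have e1 : k' + (k + d') = k + (k' + d') := by ring
        rw [e1] at this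
        have e2 : C (mnr K M J') * (rel K M a J * C p') =
          rel K M a J * C (mnr K M J' * p') := by rw [C_mul]; ring
        rw [e2] at this
        exact this
    | @tail _ k _ _ H J hJ h' =>
      cases h' with
      | @head _ k' d' _ p' a ha J' hJ' h'' =>
        have := IsRel.head a ha J' hJ' (IsProd.cons J hJ h'')
        have e1 : k' + (k + d') = k + (k' + d') := by ring
        rw [e1] at this
        have e2 : rel K M a J' * C (mnr K M J * p') =
          C (mnr K M J) * (rel K M a J' * C p') := by rw [C_mul]; ring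
        rw [e2] at this
        exact this
      | @tail _ k' d' _ H' J' hJ' h'' =>
        have := IsRel.tail J' hJ' (IsRel.tail J hJ h'')
        have e1 : k' + (k + d') = k + (k' + d') := by ring
        rw [e1] at this
        have e2 : C (mnr K M J') * (C (mnr K M J) * H') =
          (C (mnr K M J) * (C (mnr K M J') * H') : Py K M) := by ring
        rw [e2] at this
        exact this
  | trans _ _ ih1 ih2 =>
    intro d p hp
    exact ih2 (ih1 hp)

theorem Mrel_perm {β β' : List ℕ} (h : β.Perm β') (d : ℕ) : Mrel K M β d = Mrel K M β' d := by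
  unfold Mrel
  congr 1
  ext z
  constructor
  · rintro ⟨γ, H, hH, rfl⟩
    exact ⟨γ, H, hH.perm h, rfl⟩
  · rintro ⟨γ, H, hH, rfl⟩
    exact ⟨γ, H, hH.perm h.symm, rfl⟩

theorem IsRel.zero_cons {β : List ℕ} {d : ℕ} {H : Py K M} :
    IsRel K M (0 :: β) d H ↔ IsRel K M β d H := by
  constructor
  · intro h
    cases h with
    | head a ha J hJ h' => exact absurd (hJ 0) (Nat.not_lt_zero _)
    | @tail _ k d' _ H' J hJ h' =>
      have hk : k = 0 := by
        rcases Nat.eq_zero_or_pos k with hk | hk
        · exact hk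
        · exact absurd (hJ ⟨0, hk⟩) (by simp)
      subst hk
      rw [mnr_zero, C_1, one_mul, zero_add]
      exact h'
  · intro h
    have := IsRel.tail (N := 0) (k := 0) (fun j : Fin 0 => (0 : ℕ)) (fun j => j.elim0) h
    rw [mnr_zero, C_1, one_mul, zero_add] at this
    exact this

theorem Mrel_drop (β : List ℕ) (d : ℕ) : Mrel K M (0 :: β) d = Mrel K M β d := by
  unfold Mrel
  congr 1
  ext z
  constructor
  · rintro ⟨γ, H, hH, rfl⟩
    exact ⟨γ, H, IsRel.zero_cons.mp hH, rfl⟩
  · rintro ⟨γ, H, hH, rfl⟩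
    exact ⟨γ, H, IsRel.zero_cons.mpr hH, rfl⟩

/-- multiplication of a relation by `e_0` -/
theorem ev_mul_rel (a : ℕ) {k : ℕ} (J : Fin (k + 1) → ℕ) :
    rel K M (a + 1) (Fin.cons 0 (fun j => J j + 1) : Fin (k + 2) → ℕ) =
      - (C (ev K M 0) * rel K M a J) := by
  unfold rel
  rw [mn_col, Fin.sum_univ_succ, Fin.sum_univ_succ]
  have h1 : ∀ i : Fin k, (-1 : Py K M) ^ ((i.succ.succ : Fin (k + 2)) : ℕ) *
      ((Fin.cons (fun j => ent (MvPolynomial (Fin M) K) M j (a + 1))
        (fun (i : Fin (k + 1)) (j : ℕ) => (C (ent K M j i) : Py K M)) :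
          Fin (k + 2) → ℕ → Py K M) i.succ.succ 0) *
      mn (fun b => (Fin.cons (fun j => ent (MvPolynomial (Fin M) K) M j (a + 1))
        (fun (i : Fin (k + 1)) (j : ℕ) => (C (ent K M j i) : Py K M)) :
          Fin (k + 2) → ℕ → Py K M) (i.succ.succ.succAbove b)) (fun j => J j + 1) = 0 := by
    intro i
    have h2 : ((Fin.cons (fun j => ent (MvPolynomial (Fin M) K) M j (a + 1))
        (fun (i : Fin (k + 1)) (j : ℕ) => (C (ent K M j i) : Py K M)) :
          Fin (k + 2) → ℕ → Py K M) i.succ.succ 0) = 0 := by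
      simp [ent]
    rw [h2]
    ring
  rw [Finset.sum_eq_zero (fun i _ => h1 i), add_zero]
  have h3 : ((Fin.cons (fun j => ent (MvPolynomial (Fin M) K) M j (a + 1))
        (fun (i : Fin (k + 1)) (j : ℕ) => (C (ent K M j i) : Py K M)) :
          Fin (k + 2) → ℕ → Py K M) 0 0) = 0 := by
    simp [ent]
  rw [h3]
  have h4 : ((Fin.cons (fun j => ent (MvPolynomial (Fin M) K) M j (a + 1))
        (fun (i : Fin (k + 1)) (j : ℕ) => (C (ent K M j i) : Py K M)) :
          Fin (k + 2) → ℕ → Py K M) (Fin.succ 0) 0) = C (ev K M 0) := by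
    simp [ent]
  rw [h4]
  have h5 : mn (fun b => (Fin.cons (fun j => ent (MvPolynomial (Fin M) K) M j (a + 1))
        (fun (i : Fin (k + 1)) (j : ℕ) => (C (ent K M j i) : Py K M)) :
          Fin (k + 2) → ℕ → Py K M) ((Fin.succ 0).succAbove b)) (fun j => J j + 1) =
      mn (Fin.cons (fun j => ent (MvPolynomial (Fin M) K) M j a)
        (fun (i : Fin k) (j : ℕ) => (C (ent K M j i) : Py K M)) :
          Fin (k + 1) → ℕ → Py K M) J := by
    unfold mn
    congr 1
    ext1 b j
    simp only [Matrix.of_apply]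
    refine Fin.cases ?_ (fun b => ?_) b
    · have h6 : (Fin.succ (0 : Fin (k + 1))).succAbove 0 = 0 := by
        rw [Fin.succ_succAbove_zero]
      rw [h6, Fin.cons_zero, Fin.cons_zero]
      unfold ent
      by_cases h : a ≤ J j
      · rw [if_pos h, if_pos (by omega)]
        congr 1
        omega
      · rw [if_neg h, if_neg (by omega)]
    · have h6 : (Fin.succ (0 : Fin (k + 1))).succAbove b.succ = b.succ.succ := by
        rw [Fin.succ_succAbove_succ, Fin.zero_succAbove]
      rw [h6, Fin.cons_succ, Fin.cons_succ]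
      congr 1
      unfold ent
      by_cases h : (b : ℕ) ≤ J j
      · rw [if_pos h, if_pos (by rw [Fin.val_succ]; omega)]
        congr 1
        rw [Fin.val_succ]
        omega
      · rw [if_neg h, if_neg (by rw [Fin.val_succ]; omega)]
  rw [h5]
  simp only [mul_zero, zero_mul, zero_add, Fin.val_succ, Fin.val_zero, pow_one]
  ring

theorem IsRel.ev_mul {N : ℕ} {β : List ℕ} {d : ℕ} {H : Py K M}
    (h : IsRel K M (N :: β) d H) :
    C (ev K M 0) * H ∈ Mrel K M ((N + 1) :: β) (d + 1) := by
  cases h with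
  | @head _ k d' _ p a ha J hJ h' =>
    have h1 := (IsRel.head (N := N + 1) (a + 1) (Nat.succ_lt_succ ha)
      (Fin.cons 0 (fun j => J j + 1) : Fin (k + 2) → ℕ)
      (by
        intro j
        refine Fin.cases ?_ (fun i => ?_) j
        · simp
        · simpa using hJ i) h').mem
    rw [ev_mul_rel] at h1
    have e1 : k + 1 + d' = k + d' + 1 := by ring
    rw [e1] at h1
    have h2 := Submodule.neg_mem _ h1
    have e2 : -(-(C (ev K M 0) * rel K M a J) * C p) = C (ev K M 0) * (rel K M a J * C p) := by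
      ring
    rw [e2] at h2
    exact h2
  | @tail _ k d' _ H' J hJ h' =>
    have h1 := (IsRel.tail (N := N + 1) (Fin.cons 0 (fun j => J j + 1) : Fin (k + 1) → ℕ)
      (by
        intro j
        refine Fin.cases ?_ (fun i => ?_) j
        · simp
        · simpa using hJ i) h').mem
    rw [← ev_zero_mul_mnr, C_mul, mul_assoc] at h1
    have e1 : k + 1 + d' = k + d' + 1 := by ring
    rw [e1] at h1
    exact h1

theorem Mrel_ev_mul {N : ℕ} {β : List ℕ} {d : ℕ} {H : Py K M}
    (h : H ∈ Mrel K M (N :: β) d) :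
    C (ev K M 0) * H ∈ Mrel K M ((N + 1) :: β) (d + 1) := by
  unfold Mrel at h
  induction h using Submodule.span_induction with
  | mem x hx =>
    obtain ⟨γ, H', hH', rfl⟩ := hx
    have := Mrel_monomial_mul hH'.ev_mul γ
    have e : monomial γ 1 * (C (ev K M 0) * H') =
      C (ev K M 0) * (monomial γ 1 * H') := by ring
    rw [e] at this
    exact this
  | zero => rw [mul_zero]; exact Submodule.zero_mem _
  | add x y _ _ hx hy => rw [mul_add]; exact Submodule.add_mem _ hx hy
  | smul c x _ hx => rw [mul_smul_comm]; exact Submodule.smul_mem _ _ hx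

theorem Mrel_mnr_mul {N k d : ℕ} {β : List ℕ} (J : Fin k → ℕ) (hJ : ∀ j, J j < N)
    {H : Py K M} (h : H ∈ Mrel K M β d) :
    C (mnr K M J) * H ∈ Mrel K M (N :: β) (k + d) := by
  unfold Mrel at h
  induction h using Submodule.span_induction with
  | mem x hx =>
    obtain ⟨γ, H', hH', rfl⟩ := hx
    have := Mrel_monomial_mul (IsRel.tail J hJ hH').mem γ
    have e : monomial γ 1 * (C (mnr K M J) * H') =
      C (mnr K M J) * (monomial γ 1 * H') := by ring
    rw [e] at this
    exact this
  | zero => rw [mul_zero]; exact Submodule.zero_mem _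
  | add x y _ _ hx hy => rw [mul_add]; exact Submodule.add_mem _ hx hy
  | smul c x _ hx => rw [mul_smul_comm]; exact Submodule.smul_mem _ _ hx

/-- restriction on polynomials in `y` -/
noncomputable def restY (K : Type*) [CommRing K] (M : ℕ) : Py K (M + 1) →+* Py K M :=
  (rho (MvPolynomial (Fin M) K) M).toRingHom.comp (map (rho K M).toRingHom)

theorem restY_apply (f : Py K (M + 1)) :
    restY K M f = rho (MvPolynomial (Fin M) K) M (map (rho K M).toRingHom f) := rfl

theorem restY_C (f : MvPolynomial (Fin (M + 1)) K) :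
    restY K M (C f) = C (rho K M f) := by
  rw [restY_apply, map_C, rho_C]
  rfl

theorem restY_X_zero : restY K M (X 0) = 0 := by
  rw [restY_apply, map_X, rho_X_zero]

theorem restY_X_succ (i : Fin M) : restY K M (X i.succ) = X i := by
  rw [restY_apply, map_X, rho_X_succ]

theorem restY_ent_zero (i : ℕ) :
    restY K M (ent (MvPolynomial (Fin (M + 1)) K) (M + 1) 0 i) = 0 := by
  rw [restY_apply, map_ent]
  exact rho_ent_zero i

theorem restY_ent_succ (c i : ℕ) :
    restY K M (ent (MvPolynomial (Fin (M + 1)) K) (M + 1) (c + 1) i) =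
      ent (MvPolynomial (Fin M) K) M c i := by
  rw [restY_apply, map_ent]
  exact rho_ent_succ c i

theorem restY_smul (c : K) (x : Py K (M + 1)) : restY K M (c • x) = c • restY K M x := by
  rw [← algebraMap_smul (MvPolynomial (Fin (M + 1)) K) c x, MvPolynomial.smul_eq_C_mul, map_mul,
    restY_C, ← algebraMap_smul (MvPolynomial (Fin M) K) c (restY K M x),
    MvPolynomial.smul_eq_C_mul, MvPolynomial.algebraMap_eq, MvPolynomial.algebraMap_eq, rho_C]

theorem restY_rel (a : ℕ) {k : ℕ} (J : Fin (k + 1) → ℕ) :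
    restY K M (rel K (M + 1) a (fun j => J j + 1)) = rel K M a J := by
  unfold rel
  rw [mn_map]
  unfold mn
  congr 1
  ext1 i j
  simp only [Matrix.of_apply]
  refine Fin.cases ?_ (fun i => ?_) i
  · simp only [Fin.cons_zero]
    rw [restY_ent_succ]
  · simp only [Fin.cons_succ]
    rw [restY_C, rho_ent_succ]

theorem IsRel.lift {β : List ℕ} : ∀ {d : ℕ} {H : Py K M},
    IsRel K M (β.map Nat.pred) d H → ∃ G, IsRel K (M + 1) β d G ∧ restY K M G = H := by
  induction β with
  | nil =>
    intro d H h
    cases h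
  | cons N β ih =>
    intro d H h
    simp only [List.map_cons] at h
    have hN : Nat.pred N = N - 1 := rfl
    cases h with
    | @head _ k d' _ p a ha J hJ h' =>
      obtain ⟨q, hq, hq'⟩ := h'.lift
      refine ⟨rel K (M + 1) a (fun j => J j + 1) * C q, IsRel.head a ha _ ?_ hq, ?_⟩
      · intro j
        have := hJ j
        omega
      · rw [map_mul, restY_rel, restY_C, hq']
    | @tail _ k d' _ H' J hJ h' =>
      obtain ⟨G, hG, hG'⟩ := ih h'
      refine ⟨C (mnr K (M + 1) (fun j => J j + 1)) * G, IsRel.tail _ ?_ hG, ?_⟩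
      · intro j
        have := hJ j
        omega
      · rw [map_mul, restY_C, rho_mnr_succ, hG']

theorem restY_monomial_succ (γ : Fin M →₀ ℕ) :
    restY K M (monomial (γ.mapDomain Fin.succ) 1) = monomial γ 1 := by
  rw [← rename_monomial, restY_apply, map_rename, map_monomial, map_one]
  exact rho_rename _

theorem Mrel_lift {β : List ℕ} {d : ℕ} {H : Py K M} (h : H ∈ Mrel K M (β.map Nat.pred) d) :
    ∃ G ∈ Mrel K (M + 1) β d, restY K M G = H := by
  unfold Mrel at h
  induction h using Submodule.span_induction with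
  | mem x hx =>
    obtain ⟨γ, H', hH', rfl⟩ := hx
    obtain ⟨G, hG, hG'⟩ := hH'.lift
    refine ⟨monomial (γ.mapDomain Fin.succ) 1 * G, Mrel_monomial_mul hG.mem _, ?_⟩
    rw [map_mul, restY_monomial_succ, hG']
  | zero => exact ⟨0, Submodule.zero_mem _, map_zero _⟩
  | add x y _ _ hx hy =>
    obtain ⟨G1, h1, h1'⟩ := hx
    obtain ⟨G2, h2, h2'⟩ := hy
    exact ⟨G1 + G2, Submodule.add_mem _ h1 h2, by rw [map_add, h1', h2']⟩
  | smul c x _ hx =>
    obtain ⟨G1, h1, h1'⟩ := hx
    exact ⟨c • G1, Submodule.smul_mem _ _ h1, by rw [restY_smul, h1']⟩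

theorem coeff_rho {A : Type*} [CommRing A] (f : MvPolynomial (Fin (M + 1)) A)
    (m : Fin M →₀ ℕ) : coeff m (rho A M f) = coeff (m.cons 0) f := by
  have h : (rho A M).toRingHom =
      (Polynomial.constantCoeff).comp
        ((MvPolynomial.finSuccEquiv A M).toAlgHom.toRingHom) := by
    apply MvPolynomial.ringHom_ext
    · intro a
      change rho A M (C a) = Polynomial.constantCoeff (MvPolynomial.finSuccEquiv A M (C a))
      rw [rho_C, finSuccEquiv_apply]
      simp
    · intro i
      change rho A M (X i) = Polynomial.constantCoeff (MvPolynomial.finSuccEquiv A M (X i))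
      refine Fin.cases ?_ (fun j => ?_) i
      · rw [rho_X_zero, finSuccEquiv_X_zero]
        simp
      · rw [rho_X_succ, finSuccEquiv_X_succ]
        simp
  have h2 : rho A M f = Polynomial.coeff (MvPolynomial.finSuccEquiv A M f) 0 :=
    congrArg (fun φ => φ f) h
  rw [h2, finSuccEquiv_coeff_coeff]

theorem coeff_restY (H : Py K (M + 1)) (m : Fin M →₀ ℕ) :
    coeff m (restY K M H) = rho K M (coeff (m.cons 0) H) := by
  rw [restY_apply, coeff_rho, coeff_map]
  rfl

theorem eval_restY (H : Py K (M + 1)) :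
    eval (fun j : Fin M => (X j : MvPolynomial (Fin M) K)) (restY K M H) =
      rho K M (eval (fun j : Fin (M + 1) => (X j : MvPolynomial (Fin (M + 1)) K)) H) := by
  have h : (eval (fun j : Fin M => (X j : MvPolynomial (Fin M) K))).comp (restY K M) =
      ((rho K M).toRingHom).comp
        (eval (fun j : Fin (M + 1) => (X j : MvPolynomial (Fin (M + 1)) K))) := by
    apply MvPolynomial.ringHom_ext
    · intro a
      rw [RingHom.comp_apply, RingHom.comp_apply, restY_C, eval_C, eval_C]
      rfl
    · intro i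
      rw [RingHom.comp_apply, RingHom.comp_apply, eval_X]
      refine Fin.cases ?_ (fun j => ?_) i
      · rw [restY_X_zero, map_zero]
        exact rho_X_zero.symm
      · rw [restY_X_succ, eval_X]
        exact (rho_X_succ j).symm
  exact congrArg (fun φ => φ H) h

end

section

variable {K : Type*} [Field K]

/-- the elements of the span killed by the restriction -/
noncomputable def Z0 (K : Type*) [Field K] (M : ℕ) (β : List ℕ) (d : ℕ) :
    Submodule K (MvPolynomial (Fin (M + 1)) K) :=
  V K (M + 1) β d ⊓ LinearMap.ker (rho K M).toLinearMap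

theorem mem_Z0 {M : ℕ} {β : List ℕ} {d : ℕ} {q : MvPolynomial (Fin (M + 1)) K} :
    q ∈ Z0 K M β d ↔ q ∈ V K (M + 1) β d ∧ rho K M q = 0 := Iff.rfl

theorem laplace {M : ℕ} {β : List ℕ} {d : ℕ} {p : MvPolynomial (Fin (M + 1)) K}
    (h : IsProd K (M + 1) β d p) : 0 < d →
    (X 0 * C p : Py K (M + 1)) ∈ Mrel K (M + 1) β d ⊔ CW (Z0 K M β d) := by
  induction h with
  | nil => intro h; exact absurd h (lt_irrefl 0)
  | @cons N k d β p J hJ h ih =>
    intro hd
    cases k with
    | zero =>
      have hd' : 0 < d := by omega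
      have h1 := ih hd'
      rw [Submodule.mem_sup] at h1 ⊢
      obtain ⟨a, ha, b, hb, hab⟩ := h1
      refine ⟨C (mnr K (M + 1) J) * a, Mrel_mnr_mul J hJ ha, C (mnr K (M + 1) J) * b, ?_, ?_⟩
      · intro γ
        rw [coeff_C_mul]
        have h2 := hb γ
        rw [mem_Z0] at h2 ⊢
        refine ⟨V_mul_mnr J hJ h2.1, ?_⟩
        rw [map_mul, h2.2, mul_zero]
      · rw [← mul_add, hab, C_mul]
        ring
    | succ k =>
      have hN : 0 < N := lt_of_le_of_lt (Nat.zero_le _) (hJ 0)
      have hJ' : ∀ j, (Fin.cons 0 J : Fin (k + 2) → ℕ) j < N := by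
        intro j
        refine Fin.cases ?_ (fun i => ?_) j
        · simpa using hN
        · simpa using hJ i
      have h1 := (IsRel.head (N := N) 0 (Nat.succ_pos k) (Fin.cons 0 J : Fin (k + 2) → ℕ)
        hJ' h).mem
      have h2 := rel_eq_sum (K := K) (M := M + 1) 0 (Fin.cons 0 J : Fin (k + 2) → ℕ)
      rw [Fin.sum_univ_succ] at h2
      have h3 : ent (MvPolynomial (Fin (M + 1)) K) (M + 1)
          ((Fin.cons 0 J : Fin (k + 2) → ℕ) 0) 0 = X 0 := by
        simp only [Fin.cons_zero]
        unfold ent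
        rw [if_pos le_rfl]
        exact ev_of_lt (Nat.succ_pos M)
      have h4 : (fun j => (Fin.cons 0 J : Fin (k + 2) → ℕ) ((0 : Fin (k + 2)).succAbove j)) =
          J := by
        funext j
        rw [Fin.zero_succAbove, Fin.cons_succ]
      rw [h3, h4, Fin.val_zero, pow_zero, one_mul] at h2
      rw [Submodule.mem_sup]
      refine ⟨_, h1, -((∑ i : Fin (k + 1), (-1) ^ ((i.succ : Fin (k + 2)) : ℕ) *
        ent (MvPolynomial (Fin (M + 1)) K) (M + 1)
          ((Fin.cons 0 J : Fin (k + 2) → ℕ) i.succ) 0 *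
        C (mnr K (M + 1) (fun j => (Fin.cons 0 J : Fin (k + 2) → ℕ)
          (i.succ.succAbove j)))) * C p), ?_, ?_⟩
      · apply Submodule.neg_mem
        rw [Finset.sum_mul]
        apply Submodule.sum_mem
        intro i _
        have h5 : (-1 : Py K (M + 1)) ^ ((i.succ : Fin (k + 2)) : ℕ) *
            ent (MvPolynomial (Fin (M + 1)) K) (M + 1)
              ((Fin.cons 0 J : Fin (k + 2) → ℕ) i.succ) 0 *
            C (mnr K (M + 1) (fun j => (Fin.cons 0 J : Fin (k + 2) → ℕ)
              (i.succ.succAbove j))) * C p =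
            ent (MvPolynomial (Fin (M + 1)) K) (M + 1)
              ((Fin.cons 0 J : Fin (k + 2) → ℕ) i.succ) 0 *
              C ((-1 : K) ^ ((i.succ : Fin (k + 2)) : ℕ) •
                (mnr K (M + 1) (fun j => (Fin.cons 0 J : Fin (k + 2) → ℕ)
                  (i.succ.succAbove j)) * p)) := by
          rw [MvPolynomial.smul_eq_C_mul, C_mul, C_mul, map_pow, map_pow, map_neg, map_neg,
            C_1, C_1]
          ring
        rw [h5]
        apply ent_mul_CW
        apply C_mem_CW
        apply Submodule.smul_mem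
        rw [mem_Z0]
        refine ⟨Submodule.subset_span (IsProd.cons _ (fun j => hJ' _) h), ?_⟩
        rw [map_mul, rho_mnr_of_zero _ (0 : Fin (k + 1)) (by simp), zero_mul]
      · rw [h2, C_mul]
        ring

theorem mem_sup_of_restY {M : ℕ} {β : List ℕ} {d : ℕ} (hd : 0 < d) {H : Py K (M + 1)}
    (hH : H ∈ CW (V K (M + 1) β d)) (hr : restY K M H = 0) :
    H ∈ Mrel K (M + 1) β d ⊔ CW (Z0 K M β d) := by
  rw [H.as_sum]
  apply Submodule.sum_mem
  intro γ _
  by_cases h0 : γ 0 = 0
  · apply Submodule.mem_sup_right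
    have h1 : coeff γ H ∈ Z0 K M β d := by
      rw [mem_Z0]
      refine ⟨hH γ, ?_⟩
      have h2 := coeff_restY H γ.tail
      rw [hr, coeff_zero] at h2
      have h3 : Finsupp.cons 0 γ.tail = γ := by
        rw [← h0]
        exact Finsupp.cons_tail γ
      rw [h3] at h2
      exact h2.symm
    have h4 : monomial γ (coeff γ H) = monomial γ 1 * (C (coeff γ H) : Py K (M + 1)) := by
      rw [mul_comm, C_mul_monomial, mul_one]
    rw [h4]
    exact monomial_mul_CW (C_mem_CW h1) γ
  · have h0' : ∀ q ∈ V K (M + 1) β d, (X 0 * C q : Py K (M + 1)) ∈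
        Mrel K (M + 1) β d ⊔ CW (Z0 K M β d) := by
      intro q h2
      unfold V at h2
      induction h2 using Submodule.span_induction with
      | mem x hx => exact laplace hx hd
      | zero => rw [C_0, mul_zero]; exact Submodule.zero_mem _
      | add x y _ _ hx hy => rw [C_add, mul_add]; exact Submodule.add_mem _ hx hy
      | smul c x _ hx =>
        have h3 : (X 0 * C (c • x) : Py K (M + 1)) = c • (X 0 * C x) := by
          rw [← mul_smul_comm]
          congr 1
          rw [MvPolynomial.smul_eq_C_mul, C_mul,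
            ← algebraMap_smul (MvPolynomial (Fin (M + 1)) K) c (C x : Py K (M + 1)),
            MvPolynomial.smul_eq_C_mul, MvPolynomial.algebraMap_eq]
        rw [h3]
        exact Submodule.smul_mem _ _ hx
    have h1 := h0' _ (hH γ)
    have hγ : (γ - Finsupp.single 0 1) + Finsupp.single 0 1 = γ := by
      ext i
      rw [Finsupp.add_apply, Finsupp.tsub_apply]
      by_cases hi : i = 0
      · rw [hi, Finsupp.single_eq_same]
        omega
      · rw [Finsupp.single_eq_of_ne hi]
        omega
    have h5 : monomial γ (coeff γ H) =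
        monomial (γ - Finsupp.single 0 1) 1 * (X 0 * C (coeff γ H) : Py K (M + 1)) := by
      rw [X, ← mul_assoc, monomial_mul, hγ, mul_comm, C_mul_monomial, mul_one, mul_one]
    rw [h5]
    rw [Submodule.mem_sup] at h1 ⊢
    obtain ⟨a, ha, b, hb, hab⟩ := h1
    refine ⟨monomial (γ - Finsupp.single 0 1) 1 * a, Mrel_monomial_mul ha _,
      monomial (γ - Finsupp.single 0 1) 1 * b, monomial_mul_CW hb _, ?_⟩
    rw [← mul_add, hab]

end

section

variable {K : Type*} [Field K] [CharZero K]

theorem descend {M N : ℕ} {β : List ℕ} {d : ℕ} (h1 : ∀ N' ∈ β, N + 1 ≤ N')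
    (h2 : ∀ N' ∈ β, N' ≤ M + 1) (hN : N ≤ M) {H : Py K (M + 1)}
    (hH : H ∈ CW (V K (M + 1) ((N + 1) :: β) (d + 1)))
    (hr : restY K M H ∈ Mrel K M (((N + 1) :: β).map Nat.pred) (d + 1)) :
    ∃ H' ∈ CW (V K (M + 1) (N :: β) d),
      H - C (X 0) * H' ∈ Mrel K (M + 1) ((N + 1) :: β) (d + 1) := by
  obtain ⟨G, hG, hG'⟩ := Mrel_lift hr
  have h3 := mem_sup_of_restY (Nat.succ_pos d)
    (Submodule.sub_mem _ hH (Mrel_le_CW _ _ hG)) (by rw [map_sub, hG', sub_self])
  rw [Submodule.mem_sup] at h3
  obtain ⟨A, hA, B, hB, hAB⟩ := h3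
  -- divide `B` by `e_0`
  have h4 : ∀ γ, ∃ g ∈ V K (M + 1) (N :: β) d, coeff γ B = X 0 * g := by
    intro γ
    have h5 := hB γ
    rw [mem_Z0] at h5
    exact exactV h1 h2 hN h5.1 h5.2
  choose g hg hg' using h4
  refine ⟨∑ γ ∈ B.support, monomial γ (g γ), ?_, ?_⟩
  · apply Submodule.sum_mem
    intro γ _
    have h6 : monomial γ (g γ) = monomial γ 1 * (C (g γ) : Py K (M + 1)) := by
      rw [mul_comm, C_mul_monomial, mul_one]
    rw [h6]
    exact monomial_mul_CW (C_mem_CW (hg γ)) γ
  · have h7 : C (X 0) * ∑ γ ∈ B.support, monomial γ (g γ) = (B : Py K (M + 1)) := by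
      rw [Finset.mul_sum]
      conv_rhs => rw [B.as_sum]
      apply Finset.sum_congr rfl
      intro γ _
      rw [C_mul_monomial, ← hg' γ]
    rw [h7]
    have h8 : H - B = G + A := by
      have : H - G = A + B := hAB.symm
      rw [sub_eq_iff_eq_add] at this ⊢
      rw [this]
      ring
    rw [h8]
    exact Submodule.add_mem _ hG hA

/-- every relation is a combination of the determinantal ones -/
theorem pres : ∀ (M : ℕ) (β : List ℕ) (d : ℕ), (∀ N ∈ β, N ≤ M) →
    ∀ H : Py K M, H ∈ CW (V K M β d) →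
      eval (fun j : Fin M => (X j : MvPolynomial (Fin M) K)) H = 0 → H ∈ Mrel K M β d := by
  apply win_induction
  · intro M β β' d h hP H hH h0
    rw [← Mrel_perm h]
    rw [← V_perm h] at hH
    exact hP H hH h0
  · intro M β H hH h0
    have h1 : ∀ γ, ∃ c : K, coeff γ H = C c := by
      intro γ
      have h2 := hH γ
      rw [V_zero, Submodule.mem_span_singleton] at h2
      obtain ⟨c, hc⟩ := h2
      refine ⟨c, ?_⟩
      rw [← hc, MvPolynomial.smul_eq_C_mul, mul_one]
    choose c hc using h1
    have h3 : H = map C (∑ γ ∈ H.support, monomial γ (c γ)) := by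
      rw [map_sum]
      conv_lhs => rw [H.as_sum]
      apply Finset.sum_congr rfl
      intro γ _
      rw [map_monomial, hc γ]
    have h4 : eval (fun j : Fin M => (X j : MvPolynomial (Fin M) K))
        (map C (∑ γ ∈ H.support, monomial γ (c γ))) = ∑ γ ∈ H.support, monomial γ (c γ) := by
      rw [eval_map]
      exact eval₂_eta _
    rw [h3, h4] at h0
    rw [h3, h0, map_zero]
    exact Submodule.zero_mem _
  · intro M d H hH h0
    have : H = 0 := by
      ext1 γ
      have h2 := hH γ
      rw [V_nil, Submodule.mem_bot] at h2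
      rw [h2, coeff_zero]
    rw [this]
    exact Submodule.zero_mem _
  · intro M β d hP H hH h0
    rw [Mrel_drop]
    rw [V_drop] at hH
    exact hP H hH h0
  · intro M N β d h1 h2 hN ih1 ih2 H hH h0
    have hr : restY K M H ∈ Mrel K M (((N + 1) :: β).map Nat.pred) (d + 1) := by
      apply ih1
      · intro γ
        rw [coeff_restY, ← map_rho_V]
        exact Submodule.mem_map_of_mem (hH _)
      · rw [eval_restY, h0, map_zero]
    obtain ⟨H', hH', h3⟩ := descend h1 h2 hN hH hr
    have h4 := eval_Mrel h3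
    rw [map_sub, h0, map_mul, eval_C, zero_sub, neg_eq_zero] at h4
    rcases mul_eq_zero.mp h4 with h5 | h5
    · exact absurd h5 (X_ne_zero 0)
    · have h6 := ih2 H' hH' h5
      have h7 := Mrel_ev_mul h6
      rw [ev_zero_eq] at h7
      have h8 := Submodule.add_mem _ h3 h7
      rw [sub_add_cancel] at h8
      exact h8

end

end H48.Hk
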