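import Pool.Agent.H48.Hk.Exch

/-! Reduction to products of minors of one size. -/

namespace H48.Hk

open MvPolynomial

/-- products of minors with the given sizes, columns less than `N` -/
inductive ProdK (K : Type*) [CommRing K] (M N : ℕ) : List ℕ → MvPolynomial (Fin M) K → Prop
  | nil : ProdK K M N [] 1
  | cons {k : ℕ} {κ : List ℕ} {p : MvPolynomial (Fin M) K} (J : Fin k → ℕ)
      (hJ : ∀ j, J j < N) (h : ProdK K M N κ p) : ProdK K M N (k :: κ) (mnr K M J * p)

/-- products of one relation and minors with the given sizes, columns less than `N` -/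
inductive RelK (K : Type*) [CommRing K] (M N : ℕ) : List ℕ → Py K M → Prop
  | head {k : ℕ} {κ : List ℕ} {p : MvPolynomial (Fin M) K} (a : ℕ) (ha : a < k)
      (J : Fin (k + 1) → ℕ) (hJ : ∀ j, J j < N) (h : ProdK K M N κ p) :
      RelK K M N (k :: κ) (rel K M a J * C p)
  | tail {k : ℕ} {κ : List ℕ} {H : Py K M} (J : Fin k → ℕ) (hJ : ∀ j, J j < N)
      (h : RelK K M N κ H) : RelK K M N (k :: κ) (C (mnr K M J) * H)

/-- span of products -/
noncomputable def Wp (K : Type*) [CommRing K] (M N : ℕ) (κ : List ℕ) :
    Submodule K (MvPolynomial (Fin M) K) :=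
  Submodule.span K {p | ProdK K M N κ p}

/-- span of relations -/
noncomputable def Wr (K : Type*) [CommRing K] (M N : ℕ) (κ : List ℕ) : Submodule K (Py K M) :=
  Submodule.span K {z | ∃ (γ : Fin M →₀ ℕ) (H : Py K M), RelK K M N κ H ∧ z = monomial γ 1 * H}

section

variable {K : Type*} [CommRing K] {M N : ℕ}

theorem ProdK.perm {κ κ' : List ℕ} (h : κ.Perm κ') :
    ∀ {p : MvPolynomial (Fin M) K}, ProdK K M N κ p → ProdK K M N κ' p := by
  induction h with
  | nil => intro p hp; exact hp
  | cons x _ ih =>
    intro p hp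
    cases hp with
    | cons J hJ h' => exact ProdK.cons J hJ (ih h')
  | swap x y l =>
    intro p hp
    cases hp with
    | @cons _ _ _ J hJ h' =>
      cases h' with
      | @cons _ _ p' J' hJ' h'' =>
        have := ProdK.cons J' hJ' (ProdK.cons J hJ h'')
        have e2 : mnr K M J' * (mnr K M J * p') = mnr K M J * (mnr K M J' * p') := by ring
        rw [e2] at this
        exact this
  | trans _ _ ih1 ih2 =>
    intro p hp
    exact ih2 (ih1 hp)

theorem RelK.perm {κ κ' : List ℕ} (h : κ.Perm κ') :
    ∀ {p : Py K M}, RelK K M N κ p → RelK K M N κ' p := by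
  induction h with
  | nil => intro p hp; exact hp
  | cons x hl ih =>
    intro p hp
    cases hp with
    | head a ha J hJ h' => exact RelK.head a ha J hJ (h'.perm hl)
    | tail J hJ h' => exact RelK.tail J hJ (ih h')
  | swap x y l =>
    intro p hp
    cases hp with
    | @head _ _ _ a ha J hJ h' =>
      cases h' with
      | @cons _ _ p' J' hJ' h'' =>
        have := RelK.tail J' hJ' (RelK.head a ha J hJ h'')
        have e2 : C (mnr K M J') * (rel K M a J * C p') =
          rel K M a J * C (mnr K M J' * p') := by rw [C_mul]; ring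
        rw [e2] at this
        exact this
    | @tail _ _ H J hJ h' =>
      cases h' with
      | @head _ _ p' a ha J' hJ' h'' =>
        have := RelK.head a ha J' hJ' (ProdK.cons J hJ h'')
        have e2 : rel K M a J' * C (mnr K M J * p') =
          C (mnr K M J) * (rel K M a J' * C p') := by rw [C_mul]; ring
        rw [e2] at this
        exact this
      | @tail _ _ H' J' hJ' h'' =>
        have := RelK.tail J' hJ' (RelK.tail J hJ h'')
        have e2 : C (mnr K M J') * (C (mnr K M J) * H') =
          (C (mnr K M J) * (C (mnr K M J') * H') : Py K M) := by ring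
        rw [e2] at this
        exact this
  | trans _ _ ih1 ih2 =>
    intro p hp
    exact ih2 (ih1 hp)

theorem Wp_perm {κ κ' : List ℕ} (h : κ.Perm κ') : Wp K M N κ = Wp K M N κ' := by
  unfold Wp
  congr 1
  ext z
  exact ⟨fun hz => hz.perm h, fun hz => hz.perm h.symm⟩

theorem Wr_perm {κ κ' : List ℕ} (h : κ.Perm κ') : Wr K M N κ = Wr K M N κ' := by
  unfold Wr
  congr 1
  ext z
  constructor
  · rintro ⟨γ, H, hH, rfl⟩
    exact ⟨γ, H, hH.perm h, rfl⟩
  · rintro ⟨γ, H, hH, rfl⟩
    exact ⟨γ, H, hH.perm h.symm, rfl⟩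

theorem RelK.mem {κ : List ℕ} {H : Py K M} (h : RelK K M N κ H) : H ∈ Wr K M N κ := by
  apply Submodule.subset_span
  refine ⟨0, H, h, ?_⟩
  change H = 1 * H
  rw [one_mul]

theorem Wr_monomial_mul {κ : List ℕ} {H : Py K M} (hH : H ∈ Wr K M N κ)
    (γ : Fin M →₀ ℕ) : monomial γ 1 * H ∈ Wr K M N κ := by
  unfold Wr at hH ⊢
  induction hH using Submodule.span_induction with
  | mem x hx =>
    obtain ⟨γ', H', hH', rfl⟩ := hx
    apply Submodule.subset_span
    refine ⟨γ + γ', H', hH', ?_⟩
    rw [← mul_assoc, monomial_mul, one_mul]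
  | zero => rw [mul_zero]; exact Submodule.zero_mem _
  | add x y _ _ hx hy => rw [mul_add]; exact Submodule.add_mem _ hx hy
  | smul c x _ hx => rw [mul_smul_comm]; exact Submodule.smul_mem _ _ hx

theorem Wp_mul {k : ℕ} {κ : List ℕ} (J : Fin k → ℕ) (hJ : ∀ j, J j < N)
    {p : MvPolynomial (Fin M) K} (hp : p ∈ Wp K M N κ) : mnr K M J * p ∈ Wp K M N (k :: κ) := by
  unfold Wp at hp ⊢
  induction hp using Submodule.span_induction with
  | mem x hx => exact Submodule.subset_span (ProdK.cons J hJ hx)
  | zero => rw [mul_zero]; exact Submodule.zero_mem _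
  | add x y _ _ hx hy => rw [mul_add]; exact Submodule.add_mem _ hx hy
  | smul c x _ hx => rw [mul_smul_comm]; exact Submodule.smul_mem _ _ hx

theorem Wr_mul {k : ℕ} {κ : List ℕ} (J : Fin k → ℕ) (hJ : ∀ j, J j < N)
    {H : Py K M} (hH : H ∈ Wr K M N κ) : C (mnr K M J) * H ∈ Wr K M N (k :: κ) := by
  unfold Wr at hH ⊢
  induction hH using Submodule.span_induction with
  | mem x hx =>
    obtain ⟨γ', H', hH', rfl⟩ := hx
    apply Submodule.subset_span
    refine ⟨γ', _, RelK.tail J hJ hH', ?_⟩
    ring
  | zero => rw [mul_zero]; exact Submodule.zero_mem _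
  | add x y _ _ hx hy => rw [mul_add]; exact Submodule.add_mem _ hx hy
  | smul c x _ hx => rw [mul_smul_comm]; exact Submodule.smul_mem _ _ hx

theorem neg_pow_mem {R : Type*} [CommRing R] [Module K R] (W : Submodule K R) (m : ℕ) {x : R} :
    (-1) ^ m * x ∈ W ↔ x ∈ W := by
  rcases neg_one_pow_eq_or R m with h | h
  · rw [h, one_mul]
  · rw [h, neg_one_mul, W.neg_mem_iff]

/-- the rows in the ring of the `e` -/
noncomputable def Us (K : Type*) [CommRing K] (M : ℕ) (i j : ℕ) : MvPolynomial (Fin M) K :=
  ent K M j i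

/-- the rows in `Py` -/
noncomputable def Uy (K : Type*) [CommRing K] (M : ℕ) (i j : ℕ) : Py K M := C (ent K M j i)

/-- the row of the `y` -/
noncomputable def Yr (K : Type*) [CommRing K] (M : ℕ) (a j : ℕ) : Py K M :=
  ent (MvPolynomial (Fin M) K) M j a

theorem sh_ent {A : Type*} [CommRing A] (s i j : ℕ) :
    (if s ≤ j then ent A M (j - s) i else 0) = ent A M j (i + s) := by
  unfold ent
  by_cases h : s ≤ j
  · rw [if_pos h]
    by_cases h2 : i ≤ j - s
    · rw [if_pos h2, if_pos (by omega)]
      congr 1
      omega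
    · rw [if_neg h2, if_neg (by omega)]
  · rw [if_neg h, if_neg (by omega)]

theorem hUs : ∀ s i, sh s (Us K M i) = Us K M (i + s) := by
  intro s i
  funext j
  exact sh_ent s i j

theorem hYr : ∀ s i, sh s (Yr K M i) = Yr K M (i + s) := by
  intro s i
  funext j
  exact sh_ent s i j

theorem hUy : ∀ s i, sh s (Uy K M i) = Uy K M (i + s) := by
  intro s i
  funext j
  unfold sh Uy
  rw [← sh_ent s i j]
  split_ifs
  · rfl
  · exact C_0.symm

theorem mn_Us {k : ℕ} (J : Fin k → ℕ) : mn (Ub (Us K M) k) J = mnr K M J := rfl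

theorem mn_Uy {k : ℕ} (J : Fin k → ℕ) : mn (Ub (Uy K M) k) J = C (mnr K M J) := by
  unfold mnr
  rw [mn_map]
  rfl

theorem mn_YrUy {a k : ℕ} (J : Fin (k + 1) → ℕ) :
    mn (Fin.cons (Yr K M a) (Ub (Uy K M) k) : Fin (k + 1) → ℕ → Py K M) J = rel K M a J := rfl

theorem cons_lt {q : ℕ} {J : Fin q → ℕ} (hJ : ∀ j, J j < N) {j₀ : ℕ} (h : j₀ < N) :
    ∀ j, (Fin.cons j₀ J : Fin (q + 1) → ℕ) j < N := by
  intro j
  refine Fin.cases ?_ (fun i => ?_) j
  · rw [Fin.cons_zero]; exact h
  · rw [Fin.cons_succ]; exact hJ i

theorem Wp_exchange {k q : ℕ} (hq : q ≤ k) (κ : List ℕ) :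
    Wp K M N ((k + 1) :: q :: κ) ≤ Wp K M N (k :: (q + 1) :: κ) := by
  unfold Wp
  rw [Submodule.span_le]
  intro p hp
  rw [SetLike.mem_coe]
  change _ ∈ Wp K M N _
  cases hp with
  | @cons _ _ _ J hJ h' =>
    cases h' with
    | @cons _ _ p' J' hJ' h'' =>
      rw [← mul_assoc, ← mn_Us J, ← mn_Us J', ex1 hUs hq, Finset.sum_mul]
      apply Submodule.sum_mem
      intro c _
      by_cases hc : k - q ≤ J c
      · rw [if_pos hc, mn_Us, mn_Us, mul_assoc, mul_assoc, mul_assoc, neg_pow_mem, neg_pow_mem]
        apply Wp_mul _ (fun j => hJ _)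
        apply Wp_mul _ (cons_lt hJ' (by have := hJ c; omega))
        exact Submodule.subset_span h''
      · rw [if_neg hc, mul_zero, zero_mul]
        exact Submodule.zero_mem _

end

section

variable {K : Type*} [Field K] [CharZero K] {M N : ℕ}

theorem Wr_exchange {k q : ℕ} (hq : q ≤ k) (κ : List ℕ) :
    Wr K M N ((k + 1) :: q :: κ) ≤ Wr K M N (k :: (q + 1) :: κ) := by
  unfold Wr
  rw [Submodule.span_le]
  rintro _ ⟨γ, H, hH, rfl⟩
  rw [SetLike.mem_coe]
  apply Wr_monomial_mul
  cases hH with
  | @head _ _ p a ha J hJ h =>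
    cases h with
    | @cons _ _ p' J' hJ' h'' =>
      rcases Nat.lt_or_ge a k with hak | hak
      · -- `a < k`
        have h1 := congrArg (fun z => z * (C p' : Py K M)) (ex2 hUy (Yr K M a) hq J J')
        simp only [mn_Uy, mn_YrUy] at h1
        have h2 : (∑ c : Fin (k + 2), (-1) ^ (c : ℕ) * rel K M a (fun j => J (c.succAbove j)) *
            (if k - q ≤ J c then
              (C (mnr K M (Fin.cons (J c - (k - q)) J' : Fin (q + 1) → ℕ)) : Py K M)
              else 0)) * C p' ∈ Wr K M N (k :: (q + 1) :: κ) := by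
          rw [Finset.sum_mul]
          apply Submodule.sum_mem
          intro c _
          by_cases hc : k - q ≤ J c
          · rw [if_pos hc, mul_assoc, mul_assoc, neg_pow_mem, ← C_mul]
            exact (RelK.head a hak _ (fun j => hJ _)
              (ProdK.cons _ (cons_lt hJ' (by have := hJ c; omega)) h'')).mem
          · rw [if_neg hc, mul_zero, zero_mul]
            exact Submodule.zero_mem _
        rw [h1, mul_assoc, neg_pow_mem, mul_assoc, ← C_mul] at h2
        exact h2
      · -- `a = k`
        have hak' : a = k := by omega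
        subst hak'
        have h1 := congrArg (fun z => z * (C p' : Py K M)) (ex3 hUy (Yr K M q) hq J J')
        rw [hYr, (by omega : q + (a - q) = a)] at h1
        simp only [mn_Uy, mn_YrUy] at h1
        have h2 : (∑ c : Fin (a + 2), (-1) ^ (c : ℕ) * (if a - q ≤ J c then
            ∑ c' : Fin (a + 1), (-1) ^ (c' : ℕ) *
            (C (mnr K M (fun j => J (c.succAbove (c'.succAbove j)))) : Py K M) *
            (if a - q ≤ J (c.succAbove c') then
              rel K M q (Fin.cons (J (c.succAbove c') - (a - q))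
              (Fin.cons (J c - (a - q)) J' : Fin (q + 1) → ℕ) : Fin (q + 2) → ℕ) else 0)
            else 0)) * C p' ∈ Wr K M N (a :: (q + 1) :: κ) := by
          rw [Finset.sum_mul]
          apply Submodule.sum_mem
          intro c _
          by_cases hc : a - q ≤ J c
          · rw [if_pos hc, mul_assoc, neg_pow_mem, Finset.sum_mul]
            apply Submodule.sum_mem
            intro c' _
            by_cases hc' : a - q ≤ J (c.succAbove c')
            · rw [if_pos hc', mul_assoc, mul_assoc, neg_pow_mem]
              apply Wr_mul _ (fun j => hJ _)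
              exact (RelK.head q (Nat.lt_succ_self q) _
                (cons_lt (cons_lt hJ' (by have := hJ c; omega))
                  (by have := hJ (c.succAbove c'); omega)) h'').mem
            · rw [if_neg hc', mul_zero, zero_mul]
              exact Submodule.zero_mem _
          · rw [if_neg hc, mul_zero, zero_mul]
            exact Submodule.zero_mem _
        rw [h1] at h2
        have h3 : (2 * (-1) ^ (q + a + 1) * (rel K M a J * C (mnr K M J')) * C p' : Py K M) =
            (-1) ^ (q + a + 1) * ((2 : K) • (rel K M a J * C (mnr K M J' * p'))) := by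
          rw [C_mul, two_smul]
          ring
        rw [h3, neg_pow_mem] at h2
        exact (Submodule.smul_mem_iff _ (two_ne_zero)).mp h2
  | @tail _ _ H J hJ h =>
    cases h with
    | @head _ _ p' a ha J' hJ' h'' =>
      have h1 := congrArg (fun z => z * (C p' : Py K M)) (ex4 hUy (Yr K M a) hq J J')
      rw [hYr] at h1
      simp only [mn_Uy, mn_YrUy] at h1
      have h2 : (∑ c : Fin (k + 1), (-1) ^ (c : ℕ) *
            (C (mnr K M (fun j => J (c.succAbove j))) : Py K M) *
            (if k - q ≤ J c then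
              rel K M a (Fin.cons (J c - (k - q)) J' : Fin (q + 2) → ℕ)
              else 0)) * C p' ∈ Wr K M N (k :: (q + 1) :: κ) := by
        rw [Finset.sum_mul]
        apply Submodule.sum_mem
        intro c _
        by_cases hc : k - q ≤ J c
        · rw [if_pos hc, mul_assoc, mul_assoc, neg_pow_mem]
          apply Wr_mul _ (fun j => hJ _)
          exact (RelK.head a (Nat.lt_succ_of_lt ha) _
            (cons_lt hJ' (by have := hJ c; omega)) h'').mem
        · rw [if_neg hc, mul_zero, zero_mul]
          exact Submodule.zero_mem _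
      have h3 : rel K M (a + (k - q)) J * C (mnr K M J') * C p' ∈
          Wr K M N (k :: (q + 1) :: κ) := by
        rw [mul_assoc, ← C_mul]
        exact (RelK.head (a + (k - q)) (by omega) J hJ (ProdK.cons J' hJ' h'')).mem
      rw [h1, add_mul] at h2
      have h4 := Submodule.sub_mem _ h2 h3
      rw [add_sub_cancel_left, mul_assoc, neg_pow_mem, mul_assoc] at h4
      exact h4
    | @tail _ _ H' J' hJ' h'' =>
      rw [← mul_assoc, ← mn_Uy J, ← mn_Uy J', ex1 hUy hq, Finset.sum_mul]
      apply Submodule.sum_mem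
      intro c _
      by_cases hc : k - q ≤ J c
      · rw [if_pos hc, mn_Uy, mn_Uy, mul_assoc, mul_assoc, mul_assoc, neg_pow_mem, neg_pow_mem]
        apply Wr_mul _ (fun j => hJ _)
        apply Wr_mul _ (cons_lt hJ' (by have := hJ c; omega))
        exact h''.mem
      · rw [if_neg hc, mul_zero, zero_mul]
        exact Submodule.zero_mem _

end

theorem all_eq_of_le {n : ℕ} : ∀ κ : List ℕ, (∀ x ∈ κ, x ≤ n) → κ.sum = n * κ.length →
    ∀ x ∈ κ, x = n := by
  have key : ∀ κ : List ℕ, (∀ x ∈ κ, x ≤ n) → κ.sum ≤ n * κ.length := by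
    intro κ
    induction κ with
    | nil => intro _; simp
    | cons x κ ih =>
      intro h
      have h1 := ih (fun y hy => h y (List.mem_cons_of_mem _ hy))
      have h2 := h x (by simp)
      simp only [List.sum_cons, List.length_cons, mul_add, mul_one]
      omega
  intro κ
  induction κ with
  | nil => intro _ _ x hx; simp at hx
  | cons y κ ih =>
    intro h hs x hx
    have h1 := key κ (fun z hz => h z (List.mem_cons_of_mem _ hz))
    have h2 := h y (by simp)
    simp only [List.sum_cons, List.length_cons, mul_add, mul_one] at hs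
    rcases List.mem_cons.mp hx with rfl | hx
    · omega
    · exact ih (fun z hz => h z (List.mem_cons_of_mem _ hz)) (by omega) x hx

theorem all_eq_of_ge {n : ℕ} : ∀ κ : List ℕ, (∀ x ∈ κ, n ≤ x) → κ.sum = n * κ.length →
    ∀ x ∈ κ, x = n := by
  have key : ∀ κ : List ℕ, (∀ x ∈ κ, n ≤ x) → n * κ.length ≤ κ.sum := by
    intro κ
    induction κ with
    | nil => intro _; simp
    | cons x κ ih =>
      intro h
      have h1 := ih (fun y hy => h y (List.mem_cons_of_mem _ hy))
      have h2 := h x (by simp)
      simp only [List.sum_cons, List.length_cons, mul_add, mul_one]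
      omega
  intro κ
  induction κ with
  | nil => intro _ _ x hx; simp at hx
  | cons y κ ih =>
    intro h hs x hx
    have h1 := key κ (fun z hz => h z (List.mem_cons_of_mem _ hz))
    have h2 := h y (by simp)
    simp only [List.sum_cons, List.length_cons, mul_add, mul_one] at hs
    rcases List.mem_cons.mp hx with rfl | hx
    · omega
    · exact ih (fun z hz => h z (List.mem_cons_of_mem _ hz)) (by omega) x hx

theorem balance {P : List ℕ → Prop} (n : ℕ)
    (hperm : ∀ κ κ', κ.Perm κ' → P κ → P κ')
    (hex : ∀ k q κ, q < k → P (k :: (q + 1) :: κ) → P ((k + 1) :: q :: κ))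
    (hbase : ∀ b, P (List.replicate b n)) :
    ∀ κ : List ℕ, κ.sum = n * κ.length → P κ := by
  have key : ∀ s : ℕ, ∀ κ : List ℕ, (κ.map (fun x => x ^ 2)).sum = s →
      κ.sum = n * κ.length → P κ := by
    intro s
    induction s using Nat.strong_induction_on with
    | _ s ih =>
      intro κ hs hκ
      by_cases hall : ∀ x ∈ κ, x = n
      · have : κ = List.replicate κ.length n := List.eq_replicate_iff.mpr ⟨rfl, hall⟩
        rw [this]
        exact hbase _
      · have h1 : ∃ a ∈ κ, n < a := by
          by_contra hcon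
          push Not at hcon
          exact hall (all_eq_of_le κ hcon hκ)
        have h2 : ∃ b ∈ κ, b < n := by
          by_contra hcon
          push Not at hcon
          exact hall (all_eq_of_ge κ hcon hκ)
        obtain ⟨a, ha, han⟩ := h1
        obtain ⟨b, hb, hbn⟩ := h2
        have hp1 : κ.Perm (a :: κ.erase a) := List.perm_cons_erase ha
        have hb' : b ∈ κ.erase a := by
          rw [List.mem_erase_of_ne (by omega)]
          exact hb
        have hp2 : (κ.erase a).Perm (b :: (κ.erase a).erase b) := List.perm_cons_erase hb'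
        have hp : κ.Perm (a :: b :: (κ.erase a).erase b) := hp1.trans (hp2.cons a)
        obtain ⟨k, rfl⟩ : ∃ k, a = k + 1 := ⟨a - 1, by omega⟩
        apply hperm _ _ hp.symm
        apply hex k b _ (by omega)
        refine ih _ ?_ _ rfl ?_
        · rw [← hs, (hp.map (fun x => x ^ 2)).sum_eq]
          simp only [List.map_cons, List.sum_cons]
          nlinarith
        · have e1 := hp.sum_eq
          have e2 := hp.length_eq
          simp only [List.sum_cons, List.length_cons] at e1 e2 ⊢
          rw [hκ, e2] at e1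
          omega
  intro κ hκ
  exact key _ κ rfl hκ

section

variable {K : Type*} [Field K] [CharZero K] {M N : ℕ}

theorem Wp_balance (n : ℕ) (κ : List ℕ) (h : κ.sum = n * κ.length) :
    Wp K M N κ ≤ Wp K M N (List.replicate κ.length n) := by
  refine balance (P := fun κ => Wp K M N κ ≤ Wp K M N (List.replicate κ.length n)) n
    ?_ ?_ ?_ κ h
  · intro κ κ' hp hP
    rw [← Wp_perm hp, ← hp.length_eq]
    exact hP
  · intro k q κ hq hP
    refine (Wp_exchange hq.le κ).trans ?_
    simpa using hP
  · intro b
    rw [List.length_replicate]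

theorem Wr_balance (n : ℕ) (κ : List ℕ) (h : κ.sum = n * κ.length) :
    Wr K M N κ ≤ Wr K M N (List.replicate κ.length n) := by
  refine balance (P := fun κ => Wr K M N κ ≤ Wr K M N (List.replicate κ.length n)) n
    ?_ ?_ ?_ κ h
  · intro κ κ' hp hP
    rw [← Wr_perm hp, ← hp.length_eq]
    exact hP
  · intro k q κ hq hP
    refine (Wr_exchange hq.le κ).trans ?_
    simpa using hP
  · intro b
    rw [List.length_replicate]

omit [CharZero K] in
theorem IsProd.toProdK {β : List ℕ} {d : ℕ} {p : MvPolynomial (Fin M) K}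
    (h : IsProd K M β d p) : ∀ b, β = List.replicate b N →
    ∃ κ : List ℕ, κ.length = b ∧ κ.sum = d ∧ ProdK K M N κ p := by
  induction h with
  | nil =>
    intro b hb
    refine ⟨[], ?_, rfl, ProdK.nil⟩
    have := congrArg List.length hb
    simpa using this
  | @cons N' k d β p J hJ h ih =>
    intro b hb
    cases b with
    | zero => simp at hb
    | succ b =>
      rw [List.replicate_succ, List.cons.injEq] at hb
      obtain ⟨hN, hb⟩ := hb
      subst hN
      obtain ⟨κ, h1, h2, h3⟩ := ih b hb
      exact ⟨k :: κ, by simp [h1], by simp [h2], ProdK.cons J hJ h3⟩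

omit [CharZero K] in
theorem IsRel.toRelK {β : List ℕ} {d : ℕ} {H : Py K M}
    (h : IsRel K M β d H) : ∀ b, β = List.replicate b N →
    ∃ κ : List ℕ, κ.length = b ∧ κ.sum = d ∧ RelK K M N κ H := by
  induction h with
  | @head N' k d β p a ha J hJ h =>
    intro b hb
    cases b with
    | zero => simp at hb
    | succ b =>
      rw [List.replicate_succ, List.cons.injEq] at hb
      obtain ⟨hN, hb⟩ := hb
      subst hN
      obtain ⟨κ, h1, h2, h3⟩ := h.toProdK b hb
      exact ⟨k :: κ, by simp [h1], by simp [h2], RelK.head a ha J hJ h3⟩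
  | @tail N' k d β H J hJ h ih =>
    intro b hb
    cases b with
    | zero => simp at hb
    | succ b =>
      rw [List.replicate_succ, List.cons.injEq] at hb
      obtain ⟨hN, hb⟩ := hb
      subst hN
      obtain ⟨κ, h1, h2, h3⟩ := ih b hb
      exact ⟨k :: κ, by simp [h1], by simp [h2], RelK.tail J hJ h3⟩

theorem V_le_Wp (n b : ℕ) :
    V K M (List.replicate b N) (n * b) ≤ Wp K M N (List.replicate b n) := by
  unfold V
  rw [Submodule.span_le]
  intro p hp
  obtain ⟨κ, h1, h2, h3⟩ := IsProd.toProdK hp b rfl
  have h4 := Wp_balance (K := K) (M := M) (N := N) n κ (by rw [h1, h2])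
  rw [h1] at h4
  exact h4 (Submodule.subset_span h3)

theorem Mrel_le_Wr (n b : ℕ) :
    Mrel K M (List.replicate b N) (n * b) ≤ Wr K M N (List.replicate b n) := by
  unfold Mrel
  rw [Submodule.span_le]
  rintro _ ⟨γ, H, hH, rfl⟩
  obtain ⟨κ, h1, h2, h3⟩ := IsRel.toRelK hH b rfl
  have h4 := Wr_balance (K := K) (M := M) (N := N) n κ (by rw [h1, h2])
  rw [h1] at h4
  exact Wr_monomial_mul (h4 h3.mem) γ

end

end H48.Hk
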