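import Pool.Agent.H48.Hk.Basic

/-! The toric deformation: upper bound for the dimension of the span of the products. -/

namespace H48.Hk

open MvPolynomial

/-- the deformed rows -/
noncomputable def Rt {A : Type*} [CommRing A] (t : A) (M : ℕ) : ℕ → ℕ → MvPolynomial (Fin M) A
  | 0, k => ev A M k
  | _ + 1, 0 => 0
  | a + 1, k + 1 => Rt t M a k + C (((k : A) + 1) * t) * Rt t M a (k + 1)

theorem map_ev {A B : Type*} [CommRing A] [CommRing B] (φ : A →+* B) (M k : ℕ) :
    map φ (ev A M k) = ev B M k := by
  unfold ev
  by_cases h : k < M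
  · simp [h]
  · simp [h]

theorem map_Rt {A B : Type*} [CommRing A] [CommRing B] (φ : A →+* B) (t : A) (M : ℕ) :
    ∀ a k, map φ (Rt t M a k) = Rt (φ t) M a k := by
  intro a
  induction a with
  | zero => intro k; exact map_ev φ M k
  | succ a ih =>
    intro k
    cases k with
    | zero => simp [Rt]
    | succ k =>
      simp only [Rt, map_add, map_mul, ih, map_C, map_one, map_natCast]

theorem Rt_zero {A : Type*} [CommRing A] (M : ℕ) : ∀ a k, Rt (0 : A) M a k = ent A M k a := by
  intro a
  induction a with
  | zero => intro k; simp [Rt, ent]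
  | succ a ih =>
    intro k
    cases k with
    | zero => simp [Rt, ent]
    | succ k =>
      simp only [Rt, mul_zero, C_0, zero_mul, add_zero, ih]
      unfold ent
      by_cases h : a ≤ k
      · rw [if_pos h, if_pos (by omega)]
        congr 1
        omega
      · rw [if_neg h, if_neg (by omega)]

/-- the coefficients of the change of variables -/
noncomputable def qc {L : Type*} [Field L] (x : ℕ → L) : ℕ → ℕ → L
  | 0, i => if i = 0 then 1 else 0
  | k + 1, i => if i = k + 1 then 1 else qc x k i / (x i - x (k + 1))

theorem qc_gt {L : Type*} [Field L] (x : ℕ → L) : ∀ k i, k < i → qc x k i = 0 := by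
  intro k
  induction k with
  | zero =>
    intro i hi
    have h0 : i ≠ 0 := by omega
    simp [qc, h0]
  | succ k ih =>
    intro i hi
    simp only [qc]
    rw [if_neg (by omega), ih i (by omega), zero_div]

theorem qc_diag {L : Type*} [Field L] (x : ℕ → L) (k : ℕ) : qc x k k = 1 := by
  cases k with
  | zero => simp [qc]
  | succ k => simp [qc]

theorem qc_rec {L : Type*} [Field L] (x : ℕ → L) (hx : Function.Injective x) (k i : ℕ) :
    qc x (k + 1) i * (x i - x (k + 1)) = qc x k i := by
  by_cases h : i = k + 1
  · subst h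
    rw [sub_self, mul_zero, qc_gt x k (k + 1) (Nat.lt_succ_self k)]
  · simp only [qc]
    rw [if_neg h, div_mul_cancel₀]
    intro h0
    exact h (hx (sub_eq_zero.mp h0))

/-- the new variables exist -/
theorem exists_Y {L : Type*} [Field L] (x : ℕ → L) (M : ℕ) : ∀ m : ℕ,
    ∃ Y : ℕ → MvPolynomial (Fin M) L, ∀ k < m,
      ev L M k = ∑ i ∈ Finset.range (k + 1), C (qc x k i) * Y i := by
  intro m
  induction m with
  | zero => exact ⟨fun _ => 0, by intro k hk; omega⟩
  | succ m ih =>
    obtain ⟨Y, hY⟩ := ih
    refine ⟨Function.update Y m (ev L M m - ∑ i ∈ Finset.range m, C (qc x m i) * Y i), ?_⟩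
    intro k hk
    have hlt : ∀ (k' : ℕ), k' ≤ m → ∑ i ∈ Finset.range k', C (qc x k i) *
        (Function.update Y m (ev L M m - ∑ i ∈ Finset.range m, C (qc x m i) * Y i)) i =
        ∑ i ∈ Finset.range k', C (qc x k i) * Y i := by
      intro k' hk'
      apply Finset.sum_congr rfl
      intro i hi
      rw [Finset.mem_range] at hi
      rw [Function.update_of_ne (by omega)]
    rcases Nat.lt_or_ge k m with h | h
    · rw [hlt (k + 1) (by omega)]
      exact hY k h
    · have hkm : k = m := by omega
      subst hkm
      rw [Finset.sum_range_succ, hlt k le_rfl, Function.update_self, qc_diag, C_1, one_mul]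
      ring

theorem Rt_eq_sum {L : Type*} [Field L] (t : L) (M : ℕ)
    (hx : Function.Injective (fun i : ℕ => (i : L) * t))
    (Y : ℕ → MvPolynomial (Fin M) L)
    (hY : ∀ k < M, ev L M k =
      ∑ i ∈ Finset.range (k + 1), C (qc (fun i : ℕ => (i : L) * t) k i) * Y i) :
    ∀ a k, k < M → Rt t M a k = ∑ i ∈ Finset.range M,
      C (qc (fun i : ℕ => (i : L) * t) k i * ((i : L) * t) ^ a) * Y i := by
  intro a
  induction a with
  | zero =>
    intro k hk
    simp only [Rt, pow_zero, mul_one]
    rw [hY k hk]
    apply Finset.sum_subset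
    · intro i hi
      rw [Finset.mem_range] at hi ⊢
      omega
    · intro i _ hi
      rw [Finset.mem_range] at hi
      rw [qc_gt _ k i (by omega), C_0, zero_mul]
  | succ a ih =>
    intro k hk
    cases k with
    | zero =>
      simp only [Rt]
      symm
      apply Finset.sum_eq_zero
      intro i _
      by_cases hi : i = 0
      · subst hi
        simp
      · simp [qc, hi]
    | succ k =>
      simp only [Rt]
      rw [ih k (by omega), ih (k + 1) hk, Finset.mul_sum, ← Finset.sum_add_distrib]
      apply Finset.sum_congr rfl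
      intro i _
      rw [← mul_assoc, ← C_mul, ← add_mul, ← C_add]
      congr 2
      rw [← qc_rec _ hx k i]
      push_cast
      ring

/-- monomials in the new variables with exponents bounded by `b` and of degree `d`. -/
def Mon {R : Type*} [CommRing R] (M : ℕ) (Y : ℕ → R) (b : ℕ → ℕ) (d : ℕ) : Set R :=
  {m | ∃ α : Fin M → ℕ, (∀ i, α i ≤ b i) ∧ ∑ i, α i = d ∧ m = ∏ i : Fin M, Y i ^ α i}

theorem Mon_mul {R : Type*} [CommRing R] {M : ℕ} {Y : ℕ → R} {b b' : ℕ → ℕ} {d d' : ℕ}
    {m m' : R} (hm : m ∈ Mon M Y b d) (hm' : m' ∈ Mon M Y b' d') :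
    m * m' ∈ Mon M Y (fun i => b i + b' i) (d + d') := by
  obtain ⟨α, h1, h2, h3⟩ := hm
  obtain ⟨α', h1', h2', h3'⟩ := hm'
  refine ⟨fun i => α i + α' i, fun i => Nat.add_le_add (h1 i) (h1' i), ?_, ?_⟩
  · rw [Finset.sum_add_distrib, h2, h2']
  · rw [h3, h3', ← Finset.prod_mul_distrib]
    apply Finset.prod_congr rfl
    intro i _
    rw [pow_add]

theorem minor_mem {L : Type*} [Field L] (t : L) (M : ℕ)
    (hx : Function.Injective (fun i : ℕ => (i : L) * t))
    (Y : ℕ → MvPolynomial (Fin M) L)
    (hY : ∀ k < M, ev L M k =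
      ∑ i ∈ Finset.range (k + 1), C (qc (fun i : ℕ => (i : L) * t) k i) * Y i)
    {N : ℕ} (hN : N ≤ M) {k : ℕ} (J : Fin k → ℕ) (hJ : ∀ j, J j < N) :
    mn (fun (i : Fin k) (j : ℕ) => Rt t M i j) J ∈
      Submodule.span L (Mon M Y (fun i => if i < N then 1 else 0) k) := by
  classical
  set x : ℕ → L := fun i : ℕ => (i : L) * t with hxdef
  have h1 : mn (fun (i : Fin k) (j : ℕ) => Rt t M i j) J =
      Matrix.detRowAlternating (fun j : Fin k => ∑ i : Fin M,
        (C (qc x (J j) i) * Y i : MvPolynomial (Fin M) L) •
          (fun a : Fin k => (C ((x i) ^ (a : ℕ)) : MvPolynomial (Fin M) L))) := by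
    unfold mn
    rw [← Matrix.det_transpose]
    change _ = Matrix.det _
    congr 1
    ext1 j a
    simp only [Matrix.transpose_apply, Matrix.of_apply, Finset.sum_apply, Pi.smul_apply,
      smul_eq_mul]
    rw [Rt_eq_sum t M hx Y hY a (J j) (lt_of_lt_of_le (hJ j) hN),
      ← Fin.sum_univ_eq_sum_range (fun i => C (qc (fun i : ℕ => (i : L) * t) (J j) i *
        ((i : L) * t) ^ (a : ℕ)) * Y i) M]
    apply Finset.sum_congr rfl
    intro i _
    rw [C_mul]
    ring
  rw [h1]
  have h2 := (Matrix.detRowAlternating (R := MvPolynomial (Fin M) L)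
    (n := Fin k)).toMultilinearMap.map_sum (fun (j : Fin k) (i : Fin M) =>
      (C (qc x (J j) i) * Y i : MvPolynomial (Fin M) L) •
          (fun a : Fin k => (C ((x i) ^ (a : ℕ)) : MvPolynomial (Fin M) L)))
  have h2' : Matrix.detRowAlternating (fun j : Fin k => ∑ i : Fin M,
        (C (qc x (J j) i) * Y i : MvPolynomial (Fin M) L) •
          (fun a : Fin k => (C ((x i) ^ (a : ℕ)) : MvPolynomial (Fin M) L))) =
      ∑ r : Fin k → Fin M, Matrix.detRowAlternating (fun j : Fin k =>
        (C (qc x (J j) (r j)) * Y (r j) : MvPolynomial (Fin M) L) •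
          (fun a : Fin k => (C ((x (r j)) ^ (a : ℕ)) : MvPolynomial (Fin M) L))) := h2
  rw [h2']
  apply Submodule.sum_mem
  intro r _
  have h3 := (Matrix.detRowAlternating (R := MvPolynomial (Fin M) L)
    (n := Fin k)).toMultilinearMap.map_smul_univ
      (fun j : Fin k => (C (qc x (J j) (r j)) * Y (r j) : MvPolynomial (Fin M) L))
      (fun (j : Fin k) (a : Fin k) => (C ((x (r j)) ^ (a : ℕ)) : MvPolynomial (Fin M) L))
  have h3' : Matrix.detRowAlternating (fun j : Fin k =>
        (C (qc x (J j) (r j)) * Y (r j) : MvPolynomial (Fin M) L) •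
          (fun a : Fin k => (C ((x (r j)) ^ (a : ℕ)) : MvPolynomial (Fin M) L))) =
      (∏ j : Fin k, (C (qc x (J j) (r j)) * Y (r j) : MvPolynomial (Fin M) L)) •
        Matrix.detRowAlternating (fun (j : Fin k) (a : Fin k) =>
          (C ((x (r j)) ^ (a : ℕ)) : MvPolynomial (Fin M) L)) := h3
  rw [h3']
  by_cases hr : Function.Injective r
  · -- the determinant is a constant
    have h4 : Matrix.detRowAlternating (fun (j : Fin k) (a : Fin k) =>
          (C ((x (r j)) ^ (a : ℕ)) : MvPolynomial (Fin M) L)) =
        C (Matrix.det (Matrix.of fun (j : Fin k) (a : Fin k) => (x (r j)) ^ (a : ℕ))) := by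
      change Matrix.det _ = _
      rw [RingHom.map_det]
      rfl
    rw [h4]
    by_cases hz : ∃ j, J j < r j
    · obtain ⟨j, hj⟩ := hz
      have h5 : (∏ j : Fin k, (C (qc x (J j) (r j)) * Y (r j) : MvPolynomial (Fin M) L)) = 0 := by
        apply Finset.prod_eq_zero (Finset.mem_univ j)
        rw [qc_gt x _ _ hj, C_0, zero_mul]
      rw [h5, zero_smul]
      exact Submodule.zero_mem _
    · push Not at hz
      rw [Finset.prod_mul_distrib, ← map_prod, smul_eq_mul]
      have h6 : (C (∏ j : Fin k, qc x (J j) (r j)) * ∏ j : Fin k, Y (r j)) *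
          C (Matrix.det (Matrix.of fun (j : Fin k) (a : Fin k) => (x (r j)) ^ (a : ℕ))) =
          ((∏ j : Fin k, qc x (J j) (r j)) *
            (Matrix.det (Matrix.of fun (j : Fin k) (a : Fin k) => (x (r j)) ^ (a : ℕ)))) •
            (∏ j : Fin k, Y (r j)) := by
        rw [MvPolynomial.smul_eq_C_mul, C_mul]
        ring
      rw [h6]
      apply Submodule.smul_mem
      apply Submodule.subset_span
      refine ⟨fun i => if i ∈ Finset.univ.image r then 1 else 0, ?_, ?_, ?_⟩
      · intro i
        simp only
        by_cases hi : i ∈ Finset.univ.image r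
        · rw [if_pos hi]
          obtain ⟨j, _, rfl⟩ := Finset.mem_image.mp hi
          rw [if_pos (lt_of_le_of_lt (hz j) (hJ j))]
        · rw [if_neg hi]
          exact Nat.zero_le _
      · rw [Finset.sum_ite_mem]
        simp [Finset.card_image_of_injective _ hr]
      · have h7 : ∀ i : Fin M, Y i ^ (if i ∈ Finset.univ.image r then 1 else 0) =
            if i ∈ Finset.univ.image r then Y i else 1 := by
          intro i
          split_ifs <;> simp
        rw [Finset.prod_congr rfl (fun i _ => h7 i), Finset.prod_ite_mem, Finset.univ_inter,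
          Finset.prod_image (fun a _ b _ h => hr h)]
  · have h8 : Matrix.detRowAlternating (fun (j : Fin k) (a : Fin k) =>
          (C ((x (r j)) ^ (a : ℕ)) : MvPolynomial (Fin M) L)) = 0 := by
      rw [Function.not_injective_iff] at hr
      obtain ⟨j, j', hjj, hne⟩ := hr
      apply AlternatingMap.map_eq_zero_of_eq _ _ _ hne
      funext a
      rw [hjj]
    rw [h8, smul_zero]
    exact Submodule.zero_mem _

/-- the number of windows larger than `i` -/
def bd (β : List ℕ) (i : ℕ) : ℕ := β.countP (fun N => decide (i < N))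

theorem bd_nil (i : ℕ) : bd [] i = 0 := rfl

theorem bd_cons (N : ℕ) (β : List ℕ) (i : ℕ) :
    bd (N :: β) i = (if i < N then 1 else 0) + bd β i := by
  unfold bd
  rw [List.countP_cons]
  simp only [decide_eq_true_eq]
  split_ifs <;> omega

theorem IsProd.deform {K L : Type*} [Field K] [Field L] [CharZero L] [Algebra (Polynomial K) L]
    [FaithfulSMul (Polynomial K) L] {M : ℕ}
    (Y : ℕ → MvPolynomial (Fin M) L)
    (hY : ∀ k < M, ev L M k = ∑ i ∈ Finset.range (k + 1),
      C (qc (fun i : ℕ => (i : L) * algebraMap (Polynomial K) L Polynomial.X) k i) * Y i)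
    {β : List ℕ} {d : ℕ} {p : MvPolynomial (Fin M) K} (h : IsProd K M β d p) :
    (∀ N ∈ β, N ≤ M) → ∃ q : MvPolynomial (Fin M) (Polynomial K),
      map (Polynomial.evalRingHom 0) q = p ∧
      map (algebraMap (Polynomial K) L) q ∈ Submodule.span L (Mon M Y (bd β) d) := by
  induction h with
  | nil =>
    intro _
    refine ⟨1, map_one _, ?_⟩
    rw [map_one]
    apply Submodule.subset_span
    refine ⟨fun _ => 0, fun i => Nat.zero_le _, by simp, by simp⟩
  | @cons N k d β p J hJ h ih =>
    intro hβ
    obtain ⟨q, hq1, hq2⟩ := ih (fun N' h' => hβ N' (List.mem_cons_of_mem _ h'))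
    refine ⟨mn (fun (i : Fin k) (j : ℕ) => Rt (Polynomial.X : Polynomial K) M i j) J * q, ?_, ?_⟩
    · rw [map_mul, hq1]
      congr 1
      rw [mn_map]
      unfold mnr
      congr 1
      funext i j
      rw [map_Rt]
      have : (Polynomial.evalRingHom (0 : K)) Polynomial.X = 0 := by simp
      rw [this, Rt_zero]
    · rw [map_mul]
      have hx : Function.Injective
          (fun i : ℕ => (i : L) * algebraMap (Polynomial K) L Polynomial.X) := by
        intro i j hij
        have hne : algebraMap (Polynomial K) L Polynomial.X ≠ 0 := by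
          intro h0
          have : (Polynomial.X : Polynomial K) = 0 := by
            apply FaithfulSMul.algebraMap_injective (Polynomial K) L
            rw [h0, map_zero]
          exact Polynomial.X_ne_zero this
        have := mul_right_cancel₀ hne hij
        exact_mod_cast this
      have h1 : map (algebraMap (Polynomial K) L)
          (mn (fun (i : Fin k) (j : ℕ) => Rt (Polynomial.X : Polynomial K) M i j) J) ∈
          Submodule.span L (Mon M Y (fun i => if i < N then 1 else 0) k) := by
        rw [mn_map]
        have h2 : (fun (i : Fin k) (j : ℕ) => map (algebraMap (Polynomial K) L)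
            (Rt (Polynomial.X : Polynomial K) M i j)) =
            fun (i : Fin k) (j : ℕ) => Rt (algebraMap (Polynomial K) L Polynomial.X) M i j := by
          funext i j
          rw [map_Rt]
        rw [h2]
        exact minor_mem _ M hx Y hY (hβ N (by simp)) J hJ
      have h3 := Submodule.mul_mem_mul h1 hq2
      rw [Submodule.span_mul_span] at h3
      refine Submodule.span_mono ?_ h3
      rintro m ⟨m1, hm1, m2, hm2, rfl⟩
      have := Mon_mul hm1 hm2
      have h4 : (fun i => (if i < N then 1 else 0) + bd β i) = bd (N :: β) := by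
        funext i
        rw [bd_cons]
      rw [h4] at this
      exact this

theorem linInd_transfer {K L σ ι : Type*} [Field K] [Field L] [Algebra (Polynomial K) L]
    [IsFractionRing (Polynomial K) L] (v : ι → MvPolynomial σ (Polynomial K))
    (h : LinearIndependent K (fun i => map (Polynomial.evalRingHom 0) (v i))) :
    LinearIndependent L (fun i => map (algebraMap (Polynomial K) L) (v i)) := by
  rw [← LinearIndependent.iff_fractionRing (Polynomial K) L]
  have h1 : LinearIndependent (Polynomial K) v := by
    rw [linearIndependent_iff']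
    intro s g hg i hi
    have key : ∀ n : ℕ, ∀ g : ι → Polynomial K, ∑ i ∈ s, g i • v i = 0 →
        ∀ i ∈ s, (Polynomial.X : Polynomial K) ^ n ∣ g i := by
      intro n
      induction n with
      | zero => intro g _ i _; simp
      | succ n ih =>
        intro g hg
        have h2 : ∑ i ∈ s, (Polynomial.eval 0 (g i)) •
            (map (Polynomial.evalRingHom 0) (v i) : MvPolynomial σ K) = 0 := by
          have h3 := congrArg (map (Polynomial.evalRingHom (0 : K))) hg
          rw [map_sum, map_zero] at h3
          rw [← h3]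
          apply Finset.sum_congr rfl
          intro i _
          rw [MvPolynomial.smul_eq_C_mul, MvPolynomial.smul_eq_C_mul, map_mul, map_C]
          simp
        have h4 := linearIndependent_iff'.mp h s _ h2
        have h5 : ∀ i ∈ s, ∃ q : Polynomial K, g i = Polynomial.X * q := by
          intro i hi
          have h6 : (Polynomial.X : Polynomial K) ∣ g i := by
            rw [Polynomial.X_dvd_iff, Polynomial.coeff_zero_eq_eval_zero]
            exact h4 i hi
          exact h6
        classical
        choose! q hq using h5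
        have h7 : ∑ i ∈ s, q i • v i = 0 := by
          have h8 : (C (Polynomial.X : Polynomial K) : MvPolynomial σ (Polynomial K)) *
              ∑ i ∈ s, q i • v i = 0 := by
            rw [Finset.mul_sum, ← hg]
            apply Finset.sum_congr rfl
            intro i hi
            rw [hq i hi, MvPolynomial.smul_eq_C_mul, MvPolynomial.smul_eq_C_mul, C_mul]
            ring
          rcases mul_eq_zero.mp h8 with h9 | h9
          · exfalso
            rw [C_eq_zero] at h9
            exact Polynomial.X_ne_zero h9
          · exact h9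
        intro i hi
        rw [hq i hi, pow_succ, mul_comm]
        exact mul_dvd_mul_left _ (ih q h7 i hi)
    have h10 := key ((g i).natDegree + 1) g hg i hi
    rw [Polynomial.X_pow_dvd_iff] at h10
    ext n
    rw [Polynomial.coeff_zero]
    rcases Nat.lt_or_ge n ((g i).natDegree + 1) with hn | hn
    · exact h10 n hn
    · exact Polynomial.coeff_eq_zero_of_natDegree_lt (by omega)
  let φ : MvPolynomial σ (Polynomial K) →ₗ[Polynomial K] MvPolynomial σ L :=
    { toFun := fun f => map (algebraMap (Polynomial K) L) f
      map_add' := fun f g => map_add _ _ _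
      map_smul' := by
        intro c f
        simp only [RingHom.id_apply]
        rw [MvPolynomial.smul_eq_C_mul, map_mul, map_C, ← MvPolynomial.smul_eq_C_mul,
          algebraMap_smul] }
  have hφ : LinearMap.ker φ = ⊥ := by
    rw [LinearMap.ker_eq_bot]
    exact map_injective _ (IsFractionRing.injective (Polynomial K) L)
  exact h1.map' φ hφ

/-- the generating polynomial of the count -/
noncomputable def cntP (M : ℕ) (β : List ℕ) : Polynomial ℕ :=
  ∏ i ∈ Finset.range M, ∑ j ∈ Finset.range (bd β i + 1), Polynomial.X ^ j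

/-- the count -/
noncomputable def cnt (M : ℕ) (β : List ℕ) (d : ℕ) : ℕ := (cntP M β).coeff d

theorem cnt_eq_card (M : ℕ) (β : List ℕ) (d : ℕ) :
    cnt M β d = ((Fintype.piFinset (fun i : Fin M => Finset.range (bd β i + 1))).filter
      (fun α => ∑ i, α i = d)).card := by
  classical
  unfold cnt cntP
  rw [← Fin.prod_univ_eq_prod_range (fun i => ∑ j ∈ Finset.range (bd β i + 1),
    (Polynomial.X : Polynomial ℕ) ^ j) M, Finset.prod_univ_sum, Polynomial.finsetSum_coeff,
    Finset.card_filter]
  apply Finset.sum_congr rfl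
  intro α _
  rw [Finset.prod_pow_eq_pow_sum, Polynomial.coeff_X_pow]
  by_cases h : ∑ i, α i = d
  · rw [if_pos h, if_pos h.symm]
  · rw [if_neg h, if_neg (fun h' => h h'.symm)]

theorem rank_V_le (K : Type*) [Field K] [CharZero K] (M : ℕ) (β : List ℕ) (d : ℕ)
    (hβ : ∀ N ∈ β, N ≤ M) : Module.rank K (V K M β d) ≤ (cnt M β d : Cardinal) := by
  classical
  let L := FractionRing (Polynomial K)
  have : CharZero L := by
    apply (algebraMap (Polynomial K) L).charZero_iff (IsFractionRing.injective _ _) |>.mp
    infer_instance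
  obtain ⟨Y, hY⟩ := exists_Y (fun i : ℕ => (i : L) *
    algebraMap (Polynomial K) L Polynomial.X) M M
  obtain ⟨b, hb, hspan, hind⟩ := exists_linearIndependent K {p | IsProd K M β d p}
  have hex : ∀ p : b, ∃ q : MvPolynomial (Fin M) (Polynomial K),
      map (Polynomial.evalRingHom 0) q = (p : MvPolynomial (Fin M) K) ∧
      map (algebraMap (Polynomial K) L) q ∈ Submodule.span L (Mon M Y (bd β) d) :=
    fun p => IsProd.deform (L := L) Y hY (hb p.2) hβ
  choose q hq1 hq2 using hex
  have hind' : LinearIndependent L (fun p : b => map (algebraMap (Polynomial K) L) (q p)) := by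
    apply linInd_transfer q
    have : (fun p : b => map (Polynomial.evalRingHom 0) (q p)) =
      (Subtype.val : b → MvPolynomial (Fin M) K) := funext hq1
    rw [this]
    exact hind
  -- the set of monomials is finite
  let F : Finset (Fin M → ℕ) := (Fintype.piFinset
    (fun i : Fin M => Finset.range (bd β i + 1))).filter (fun α => ∑ i, α i = d)
  let G : Finset (MvPolynomial (Fin M) L) := F.image (fun α => ∏ i : Fin M, Y i ^ α i)
  have hG : Mon M Y (bd β) d ⊆ (G : Set (MvPolynomial (Fin M) L)) := by
    rintro m ⟨α, h1, h2, rfl⟩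
    simp only [G, Finset.coe_image, Set.mem_image, Finset.mem_coe]
    refine ⟨α, ?_, rfl⟩
    simp only [F, Finset.mem_filter, Fintype.mem_piFinset, Finset.mem_range]
    exact ⟨fun i => Nat.lt_succ_of_le (h1 i), h2⟩
  have hcard : Fintype.card (G : Set (MvPolynomial (Fin M) L)) ≤ cnt M β d := by
    rw [cnt_eq_card]
    have : Fintype.card (G : Set (MvPolynomial (Fin M) L)) = G.card := by
      simp
    rw [this]
    exact Finset.card_image_le
  have hle : Cardinal.mk b ≤ (Fintype.card (G : Set (MvPolynomial (Fin M) L)) : Cardinal) := by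
    apply linearIndependent_le_span' _ hind'
    rintro _ ⟨p, rfl⟩
    exact Submodule.span_mono hG (hq2 p)
  unfold V
  rw [← hspan]
  have hr : Module.rank K (Submodule.span K b) = Cardinal.mk b := by
    rw [rank_span_set hind]
  rw [hr]
  exact hle.trans (by exact_mod_cast hcard)

theorem finite_V (K : Type*) [Field K] [CharZero K] (M : ℕ) (β : List ℕ) (d : ℕ)
    (hβ : ∀ N ∈ β, N ≤ M) : Module.Finite K (V K M β d) := by
  rw [← Module.rank_lt_aleph0_iff]
  exact lt_of_le_of_lt (rank_V_le K M β d hβ) Cardinal.natCast_lt_aleph0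

theorem finrank_V_le (K : Type*) [Field K] [CharZero K] (M : ℕ) (β : List ℕ) (d : ℕ)
    (hβ : ∀ N ∈ β, N ≤ M) : Module.finrank K (V K M β d) ≤ cnt M β d := by
  have h := rank_V_le K M β d hβ
  exact Module.finrank_le_of_rank_le h

end H48.Hk
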